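import Pool.Agent.Helper22E.Stm

/-!
# The combinatorial part (written by helper82)
-/

set_option autoImplicit false

namespace Pool.Agent.Helper22E

open Finset

theorem asm_digits (B G : ℕ) (hG : 0 < G) (hGB : G ≤ B) : ∀ L N : ℕ, N ≤ B * G ^ L →
    ∃ δ : ℕ → ℕ, (∀ l ≤ L, δ l ≤ B) ∧ N = ∑ l ∈ range (L + 1), δ l * G ^ l := by
  intro L
  induction L with
  | zero =>
    intro N hN
    exact ⟨fun _ => N, fun l _ => by simpa using hN, by simp⟩
  | succ L ih =>
    intro N hN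
    obtain ⟨δ, h1, h2⟩ := ih (N / G) (Nat.div_le_of_le_mul (by
      calc N ≤ B * G ^ (L + 1) := hN
        _ = G * (B * G ^ L) := by ring))
    refine ⟨fun l => if l = 0 then N % G else δ (l - 1), ?_, ?_⟩
    · intro l hl
      by_cases h : l = 0
      · simp only [h, if_true]
        exact (Nat.mod_lt _ hG).le.trans hGB
      · simp only [h, if_false]
        exact h1 _ (by omega)
    · rw [Finset.sum_range_succ']
      have h3 : ∑ l ∈ range (L + 1), (if l + 1 = 0 then N % G else δ (l + 1 - 1)) * G ^ (l + 1) =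
          G * (N / G) := by
        rw [h2, Finset.mul_sum]
        refine Finset.sum_congr rfl fun l _ => ?_
        rw [if_neg (Nat.succ_ne_zero l), Nat.add_sub_cancel]
        ring
      rw [h3]
      simp only [if_true, pow_zero, mul_one]
      exact (Nat.div_add_mod N G).symm

theorem asm_pig (K n : ℕ) (hK : 0 < K) (X : Finset ℕ) (f : ℕ → ℤ) (hX : K * n ≤ X.card) :
    ∃ Y ⊆ X, Y.card = n ∧ ∃ r : ℤ, ∀ x ∈ Y, f x % K = r := by
  have hK' : (0 : ℤ) < K := by exact_mod_cast hK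
  obtain ⟨r, hr, h⟩ := Finset.exists_le_card_fiber_of_mul_le_card_of_maps_to (s := X)
    (t := Finset.Ico (0 : ℤ) K) (f := fun x => f x % K) (n := n)
    (fun x _ => by
      rw [Finset.mem_Ico]
      exact ⟨Int.emod_nonneg _ hK'.ne', Int.emod_lt_of_pos _ hK'⟩)
    ⟨0, by simpa using hK⟩ (by simpa using hX)
  obtain ⟨Y, hY1, hY2⟩ := Finset.exists_subset_card_eq h
  exact ⟨Y, fun x hx => (Finset.mem_filter.1 (hY1 hx)).1, hY2, r,
    fun x hx => (Finset.mem_filter.1 (hY1 hx)).2⟩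

theorem asm_dvd (K m : ℕ) (Y : Finset ℕ) (f : ℕ → ℤ) (r : ℤ) (hY : Y.card = K * m)
    (hr : ∀ x ∈ Y, f x % K = r) : (K : ℤ) ∣ ∑ x ∈ Y, f x := by
  have h1 : ∑ x ∈ Y, f x = ∑ x ∈ Y, (f x - r) + (K * m : ℕ) * r := by
    rw [Finset.sum_sub_distrib, Finset.sum_const, hY]
    simp
  rw [h1]
  refine dvd_add (Finset.dvd_sum fun x hx => ?_) ⟨m * r, by push_cast; ring⟩
  rw [← hr x hx]
  exact Int.dvd_self_sub_emod

theorem t_ASM : S_ASM := by
  intro K G D L k M A X d e Z h hK hG hD hA hde hd hX hGK hMG hh hZ hbig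
  have hKZ : (0 : ℤ) < K := by exact_mod_cast hK
  -- the sets `Y l`
  have hY : ∀ l, ∃ Y : Finset ℕ, l ≤ L →
      (Y ⊆ X l ∧ Y.card = K * D ∧ (K : ℤ) ∣ ∑ x ∈ Y, d l x) := by
    intro l
    by_cases hl : l ≤ L
    · obtain ⟨Y, h1, h2, r, h3⟩ := asm_pig K (K * D) hK (X l) (d l) (hX l hl)
      exact ⟨Y, fun _ => ⟨h1, h2, asm_dvd K D Y _ r h2 h3⟩⟩
    · exact ⟨∅, fun h => absurd h hl⟩
  choose Y hY using hY
  obtain ⟨Z0, z1, z2, r, z3⟩ := asm_pig K (K * k) hK Z h hZ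
  have hrange : ∀ l ∈ range (L + 1), l ≤ L := fun l hl => by
    rw [mem_range] at hl
    omega
  set Sg : ℤ := ∑ l ∈ range (L + 1), ∑ x ∈ Y l, d l x with hSg
  have hSg0 : Sg ≤ 0 := Finset.sum_nonpos fun l hl => Finset.sum_nonpos fun x hx =>
    (hd l (hrange l hl) x ((hY l (hrange l hl)).1 hx)).1
  have hSgd : (K : ℤ) ∣ Sg := Finset.dvd_sum fun l hl => (hY l (hrange l hl)).2.2
  have hSgl : -(((L : ℤ) + 1) * ((K : ℤ) * D) * (2 * M)) ≤ Sg := by
    have h1 : ∀ l ∈ range (L + 1), -((K : ℤ) * D * (2 * M)) ≤ ∑ x ∈ Y l, d l x := by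
      intro l hl
      calc -((K : ℤ) * D * (2 * M)) = ∑ x ∈ Y l, (-(2 * M)) := by
            rw [Finset.sum_const, (hY l (hrange l hl)).2.1, nsmul_eq_mul]
            push_cast
            ring
        _ ≤ _ := Finset.sum_le_sum fun x hx =>
            (hd l (hrange l hl) x ((hY l (hrange l hl)).1 hx)).2
    calc -(((L : ℤ) + 1) * ((K : ℤ) * D) * (2 * M)) =
        ∑ l ∈ range (L + 1), (-((K : ℤ) * D * (2 * M))) := by
          rw [Finset.sum_const, card_range, nsmul_eq_mul]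
          push_cast
          ring
      _ ≤ _ := Finset.sum_le_sum h1
  have hY0 : 0 < (Y 0).card := by
    rw [(hY 0 (Nat.zero_le _)).2.1]
    exact Nat.mul_pos hK hD
  have hM0 : 0 ≤ M := by
    obtain ⟨x, hx⟩ := Finset.card_pos.1 hY0
    have := hd 0 (Nat.zero_le _) x ((hY 0 (Nat.zero_le _)).1 hx)
    linarith [this.1, this.2]
  -- the set `Z'`
  have hex : ∃ j, ∃ Z' ⊆ Z0, Z'.card = K * j ∧ 0 ≤ Sg + ∑ z ∈ Z', h z := by
    refine ⟨k, Z0, subset_rfl, z2, ?_⟩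
    have h1 : (k : ℤ) * K * A ≤ ∑ z ∈ Z0, h z := by
      calc (k : ℤ) * K * A = ∑ z ∈ Z0, A := by
            rw [Finset.sum_const, z2, nsmul_eq_mul]
            push_cast
            ring
        _ ≤ _ := Finset.sum_le_sum fun z hz => (hh z (z1 hz)).1
    linarith
  classical
  obtain ⟨Z', w1, w2, w3⟩ := Nat.find_spec hex
  have hub : Sg + ∑ z ∈ Z', h z ≤ K * M := by
    rcases Nat.eq_zero_or_pos (Nat.find hex) with h0 | h0
    · rw [h0, mul_zero, Finset.card_eq_zero] at w2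
      rw [w2, Finset.sum_empty, add_zero]
      exact hSg0.trans (mul_nonneg hKZ.le hM0)
    · obtain ⟨Z'', v1, v2⟩ := Finset.exists_subset_card_eq
        (show K * (Nat.find hex - 1) ≤ Z'.card by
          rw [w2]; exact Nat.mul_le_mul_left _ (Nat.sub_le _ _))
      have hmin := Nat.find_min hex (m := Nat.find hex - 1) (by omega)
      have hlt : Sg + ∑ z ∈ Z'', h z < 0 := by
        by_contra hc
        exact hmin ⟨Z'', v1.trans w1, v2, not_lt.1 hc⟩
      have hsplit := Finset.sum_sdiff v1 (f := h)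
      have hc : (Z' \ Z'').card = K := by
        rw [Finset.card_sdiff_of_subset v1, w2, v2, ← Nat.mul_sub]
        rw [show Nat.find hex - (Nat.find hex - 1) = 1 by omega, mul_one]
      have hle : ∑ z ∈ Z' \ Z'', h z ≤ K * M := by
        calc _ ≤ ∑ z ∈ Z' \ Z'', M := Finset.sum_le_sum fun z hz =>
              (hh z (z1 (w1 (mem_sdiff.1 hz).1))).2
          _ = K * M := by
              rw [sum_const, hc, nsmul_eq_mul]
      linarith
  obtain ⟨N', hN'⟩ : (K : ℤ) ∣ Sg + ∑ z ∈ Z', h z :=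
    dvd_add hSgd (asm_dvd K _ Z' h r w2 (fun x hx => z3 x (w1 hx)))
  have hN0 : 0 ≤ N' := by
    rw [hN'] at w3
    exact nonneg_of_mul_nonneg_right w3 hKZ
  have hNM : N' ≤ M := by
    rw [hN'] at hub
    exact le_of_mul_le_mul_left hub hKZ
  obtain ⟨N, rfl⟩ := Int.eq_ofNat_of_zero_le hN0
  obtain ⟨δ, e1, e2⟩ := asm_digits (K * D) G (by omega) hGK L N (by
    exact_mod_cast hNM.trans hMG)
  have hQ : ∀ l, ∃ Q : Finset ℕ, l ≤ L → Q ⊆ Y l ∧ Q.card = δ l := by
    intro l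
    by_cases hl : l ≤ L
    · obtain ⟨Q, q1, q2⟩ := Finset.exists_subset_card_eq
        (show δ l ≤ (Y l).card by rw [(hY l hl).2.1]; exact e1 l hl)
      exact ⟨Q, fun _ => ⟨q1, q2⟩⟩
    · exact ⟨∅, fun h => absurd h hl⟩
  choose Q hQ using hQ
  refine ⟨fun l => Y l \ Q l, Q, Z', w1.trans z1, ?_, ?_, ?_⟩
  · intro l hl
    exact ⟨sdiff_subset.trans (hY l hl).1, (hQ l hl).1.trans (hY l hl).1, sdiff_disjoint⟩
  · refine ⟨0, Nat.zero_le _, ?_⟩
    rw [sdiff_union_of_subset (hQ 0 (Nat.zero_le _)).1]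
    exact Finset.card_pos.1 hY0
  · have h1 : ∀ l ∈ range (L + 1), (∑ x ∈ Y l \ Q l, d l x + ∑ x ∈ Q l, e l x) =
        ∑ x ∈ Y l, d l x - K * ((δ l : ℤ) * (G : ℤ) ^ l) := by
      intro l hl
      have hl' := hrange l hl
      have h2 : ∑ x ∈ Q l, e l x = ∑ x ∈ Q l, d l x - K * ((δ l : ℤ) * (G : ℤ) ^ l) := by
        have h3 : ∑ x ∈ Q l, d l x = ∑ x ∈ Q l, (e l x + K * (G : ℤ) ^ l) :=
          Finset.sum_congr rfl fun x hx =>
            hde l hl' x ((hY l hl').1 ((hQ l hl').1 hx))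
        rw [h3, Finset.sum_add_distrib, Finset.sum_const, (hQ l hl').2, nsmul_eq_mul]
        ring
      rw [h2, ← Finset.sum_sdiff (hQ l hl').1 (f := d l)]
      ring
    rw [Finset.sum_congr rfl h1, Finset.sum_sub_distrib, ← Finset.mul_sum]
    have h4 : (N : ℤ) = ∑ l ∈ range (L + 1), (δ l : ℤ) * (G : ℤ) ^ l := by
      exact_mod_cast e2
    rw [← h4]
    have h5 : Sg + ∑ z ∈ Z', h z = K * (N : ℤ) := hN'
    linarith

end Pool.Agent.Helper22E
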