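import Pool.Agent.H87F.E8FormT

/-!
# The sum of the eighth powers of the inner products with the roots: both vectors of a set
-/

set_option autoImplicit false

namespace Pool.Agent.Helper22E

open Pool.Agent.Q10.E8 Pool.Agent.Helper2.E8C Pool.Agent.H87F.E8Form

/-- the linear form -/
def lin8 (z0 z1 z2 z3 z4 z5 z6 z7 : ℤ) (r : V8) : ℤ :=
  z0 * r.a0 + z1 * r.a1 + z2 * r.a2 + z3 * r.a3 + z4 * r.a4 + z5 * r.a5 + z6 * r.a6 + z7 * r.a7

theorem lsum_one (z0 z1 z2 z3 z4 z5 z6 z7 : ℤ) :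
    (G1.map fun r => lin8 z0 z1 z2 z3 z4 z5 z6 z7 r ^ 8).sum =
      256 * (112 * P 6 [z0, z1, z2, z3, z4, z5, z6, z7] * P 2 [z0, z1, z2, z3, z4, z5, z6, z7]
        + 140 * P 4 [z0, z1, z2, z3, z4, z5, z6, z7] ^ 2
        - 224 * P 8 [z0, z1, z2, z3, z4, z5, z6, z7]) := by
  have e0 : (Int.ofNat 0 : ℤ) = 0 := rfl
  have e2 : (Int.ofNat 2 : ℤ) = 2 := rfl
  have e3 : (Int.negSucc 1 : ℤ) = -2 := rfl
  simp only [G1, List.map_cons, List.map_nil, List.sum_cons, List.sum_nil, lin8, P, e0, e2, e3,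
    mul_zero, add_zero, zero_add]
  ring

/-- the product of the entries of a list of signs -/
theorem prod_signs : ∀ (n : ℕ) (s : List ℤ), s ∈ signs n → s.prod = 1 ∨ s.prod = -1
  | 0, s, h => by
    simp only [signs, List.mem_singleton] at h
    rw [h]
    exact Or.inl rfl
  | n + 1, s, h => by
    simp only [signs, List.mem_append, List.mem_map] at h
    rcases h with ⟨t, ht, rfl⟩ | ⟨t, ht, rfl⟩
    · rcases prod_signs n t ht with h1 | h1
      · left; rw [List.prod_cons, h1]; rfl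
      · right; rw [List.prod_cons, h1]; rfl
    · rcases prod_signs n t ht with h1 | h1
      · right; rw [List.prod_cons, h1]; rfl
      · left; rw [List.prod_cons, h1]; rfl

theorem lin8_pos (z0 z1 z2 z3 z4 z5 z6 z7 : ℤ) (s : List ℤ) (h : s ∈ signs 6) :
    lin8 z0 z1 z2 z3 z4 z5 z6 z7 (toV (.ofNat 1 :: s)) =
      z0 + dot s [z1, z2, z3, z4, z5, z6] + z7 * s.prod := by
  have hl := length_signs 6 s h
  match s, hl with
  | [b, c, d, e, f, g], _ =>
    have e1 : (Int.ofNat 1 : ℤ) = 1 := rfl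
    simp only [lin8, toV, dot, List.prod_cons, List.prod_nil, e1]
    ring

theorem lin8_neg (z0 z1 z2 z3 z4 z5 z6 z7 : ℤ) (s : List ℤ) (h : s ∈ signs 6) :
    lin8 z0 z1 z2 z3 z4 z5 z6 z7 (toV (.negSucc 0 :: s)) =
      -z0 + dot s [z1, z2, z3, z4, z5, z6] - z7 * s.prod := by
  have hl := length_signs 6 s h
  match s, hl with
  | [b, c, d, e, f, g], _ =>
    have e1 : (Int.negSucc 0 : ℤ) = -1 := rfl
    simp only [lin8, toV, dot, List.prod_cons, List.prod_nil, e1]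
    ring

theorem lsum_two (z0 z1 z2 z3 z4 z5 z6 z7 : ℤ) :
    (((signs 7).map toV).map fun r => lin8 z0 z1 z2 z3 z4 z5 z6 z7 r ^ 8).sum +
    (((signs 7).map toV).map fun r => lin8 (-z0) z1 z2 z3 z4 z5 z6 z7 r ^ 8).sum =
      S [z7, z0, z1, z2, z3, z4, z5, z6] 0 := by
  have hs : signs 7 = (signs 6).map (List.cons (.ofNat 1)) ++
    (signs 6).map (List.cons (.negSucc 0)) := rfl
  rw [hs]
  simp only [List.map_append, List.map_map, List.sum_append]
  have hS : S [z7, z0, z1, z2, z3, z4, z5, z6] 0 =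
      (S [z1, z2, z3, z4, z5, z6] (0 + z7 + z0) + S [z1, z2, z3, z4, z5, z6] (0 + z7 - z0)) +
      (S [z1, z2, z3, z4, z5, z6] (0 - z7 + z0) + S [z1, z2, z3, z4, z5, z6] (0 - z7 - z0)) := rfl
  have hsg := fun y : ℤ => sum_signs [z1, z2, z3, z4, z5, z6] y
  have hlen : [z1, z2, z3, z4, z5, z6].length = 6 := rfl
  rw [hlen] at hsg
  rw [hS, ← hsg, ← hsg, ← hsg, ← hsg]
  simp only [← List.sum_map_add]
  congr 1
  refine List.map_congr_left fun s h => ?_
  simp only [Function.comp_apply]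
  rw [lin8_pos z0 z1 z2 z3 z4 z5 z6 z7 s h, lin8_neg z0 z1 z2 z3 z4 z5 z6 z7 s h,
    lin8_pos (-z0) z1 z2 z3 z4 z5 z6 z7 s h, lin8_neg (-z0) z1 z2 z3 z4 z5 z6 z7 s h]
  rcases prod_signs 6 s h with h1 | h1
  · rw [h1]; ring
  · rw [h1]; ring

theorem lcore (z0 z1 z2 z3 z4 z5 z6 z7 : ℤ) :
    (AllR.map fun r => lin8 z0 z1 z2 z3 z4 z5 z6 z7 r ^ 8).sum +
    (AllR.map fun r => lin8 (-z0) z1 z2 z3 z4 z5 z6 z7 r ^ 8).sum =
      256 * (105 * P 2 [z0, z1, z2, z3, z4, z5, z6, z7] ^ 4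
        - 420 * P 4 [z0, z1, z2, z3, z4, z5, z6, z7] * P 2 [z0, z1, z2, z3, z4, z5, z6, z7] ^ 2
        + 420 * P 4 [z0, z1, z2, z3, z4, z5, z6, z7] ^ 2
        + 672 * P 6 [z0, z1, z2, z3, z4, z5, z6, z7] * P 2 [z0, z1, z2, z3, z4, z5, z6, z7]
        - 720 * P 8 [z0, z1, z2, z3, z4, z5, z6, z7]) := by
  rw [(perm.map _).sum_eq, (perm.map _).sum_eq]
  simp only [List.map_append, List.sum_append]
  have h2 := lsum_two z0 z1 z2 z3 z4 z5 z6 z7
  rw [S_formula] at h2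
  have e1 : ∀ k : ℕ, Even k → P k [-z0, z1, z2, z3, z4, z5, z6, z7] =
      P k [z0, z1, z2, z3, z4, z5, z6, z7] := by
    intro k hk
    rw [P_cons, P_cons k z0, hk.neg_pow]
  have e2 : ∀ k : ℕ, P k [z7, z0, z1, z2, z3, z4, z5, z6] =
      P k [z0, z1, z2, z3, z4, z5, z6, z7] := by
    intro k
    simp only [P, List.map_cons, List.map_nil, List.sum_cons, List.sum_nil]
    ring
  have h1 := lsum_one z0 z1 z2 z3 z4 z5 z6 z7
  have h3 := lsum_one (-z0) z1 z2 z3 z4 z5 z6 z7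
  rw [e1 2 (by decide), e1 4 (by decide), e1 6 (by decide), e1 8 (by decide)] at h3
  rw [e2, e2, e2, e2] at h2
  simp only [List.length_cons, List.length_nil] at h2
  rw [h1, h3]
  linear_combination h2

end Pool.Agent.Helper22E
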