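import Pool.Agent.Helper22E.Stm
import Pool.Agent.Helper22E.FORM8a

/-!
# Piece FORM8
-/

set_option autoImplicit false

namespace Pool.Agent.Helper22E

open Pool.Agent.Q10.E8 Pool.Agent.Helper2.E8C Pool.Agent.H87F.E8Form

theorem isE8_two (z : Fin 8 → ℤ) (h : (∑ i, z i) % 2 = 0) : IsE8 (fun i => 2 * z i) := by
  constructor
  · intro i j
    show (2 * z i) % 2 = (2 * z j) % 2
    omega
  · rw [← Finset.mul_sum]
    omega

theorem rootSum_lin (z : Fin 8 → ℤ) (h : (∑ i, z i) % 2 = 0) :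
    (AllR.map fun r => lin8 (z 0) (z 1) (z 2) (z 3) (z 4) (z 5) (z 6) (z 7) r ^ 8).sum =
      256 * rootSum (fun i => 2 * z i) := by
  rw [rootSum_list, ← List.sum_map_mul_left]
  congr 1
  refine List.map_congr_left fun r hr => ?_
  have h1 := pr_spec _ r.f (isE8_two z h) (good r hr).1
  rw [Fin.sum_univ_eight] at h1
  simp [V8.f] at h1
  have h2 : 2 * pr (fun i => 2 * z i) r.f =
      lin8 (z 0) (z 1) (z 2) (z 3) (z 4) (z 5) (z 6) (z 7) r := by
    unfold lin8
    unfold V8.f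
    linarith
  rw [← h2]
  ring

/-- FORM8 -/
theorem t_FORM8 : S_FORM8 := by
  intro z h
  have h1 := lcore (z 0) (z 1) (z 2) (z 3) (z 4) (z 5) (z 6) (z 7)
  rw [rootSum_lin z h] at h1
  obtain ⟨z', hz'⟩ : ∃ z' : Fin 8 → ℤ, z' = fun i => if i = 0 then -z i else z i := ⟨_, rfl⟩
  have hv : (fun i => if i = 0 then -(2 * z i) else 2 * z i) = fun i => 2 * z' i := by
    funext i
    rw [hz']
    show (if i = 0 then -(2 * z i) else 2 * z i) = 2 * (if i = 0 then -z i else z i)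
    split_ifs <;> ring
  have hsum : (∑ i, z' i) % 2 = 0 := by
    rw [hz', Fin.sum_univ_eight]
    rw [Fin.sum_univ_eight] at h
    simp
    omega
  have h2 := rootSum_lin z' hsum
  have e0 : z' 0 = -z 0 := by rw [hz']; rfl
  have e1 : z' 1 = z 1 := by rw [hz']; rfl
  have e2 : z' 2 = z 2 := by rw [hz']; rfl
  have e3 : z' 3 = z 3 := by rw [hz']; rfl
  have e4 : z' 4 = z 4 := by rw [hz']; rfl
  have e5 : z' 5 = z 5 := by rw [hz']; rfl
  have e6 : z' 6 = z 6 := by rw [hz']; rfl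
  have e7 : z' 7 = z 7 := by rw [hz']; rfl
  rw [e0, e1, e2, e3, e4, e5, e6, e7] at h2
  rw [h2, ← hv] at h1
  have h3 : ∀ k, P k [z 0, z 1, z 2, z 3, z 4, z 5, z 6, z 7] = ∑ i, z i ^ k := by
    intro k
    rw [Fin.sum_univ_eight]
    simp only [P, List.map_cons, List.map_nil, List.sum_cons, List.sum_nil]
    ring
  rw [h3, h3, h3, h3] at h1
  linarith

end Pool.Agent.Helper22E
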