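import Pool.Agent.Helper22E.Stm

/-!
# The group part: from sets of eight integers to an 11-design
-/

set_option autoImplicit false

namespace Pool.Agent.Helper22E

open Pool.Agent.Q10.E8 Pool.Agent.Helper2.E8C Finset

/-- the increasing enumeration of a set of eight integers -/
noncomputable def gEn (S : Finset ℕ) (i : Fin 8) : ℤ :=
  if h : S.card = 8 then ((S.orderEmbOfFin h i : ℕ) : ℤ) else 0

/-- the vector with the coordinates `2 S` -/
noncomputable def gV (S : Finset ℕ) : Fin 8 → ℤ := fun i => 2 * gEn S i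

/-- the vector with the coordinates `2 S` and the sign of the smallest one changed -/
noncomputable def gW (S : Finset ℕ) : Fin 8 → ℤ := fun i => if i = 0 then -(2 * gEn S i) else 2 * gEn S i

theorem gEn_sum {S : Finset ℕ} (h : S.card = 8) (k : ℕ) : ∑ i, gEn S i ^ k = ps k S := by
  have h1 : ∑ a ∈ S, (a : ℤ) ^ k = ∑ a ∈ univ.map (S.orderEmbOfFin h).toEmbedding, (a : ℤ) ^ k := by
    rw [Finset.map_orderEmbOfFin_univ]
  unfold ps gEn
  simp only [dif_pos h]
  rw [h1, Finset.sum_map]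
  rfl

theorem gEn_mem {S : Finset ℕ} (h : S.card = 8) (a : ℕ) : a ∈ S ↔ ∃ i, gEn S i = (a : ℤ) := by
  have h1 : a ∈ S ↔ a ∈ univ.map (S.orderEmbOfFin h).toEmbedding := by
    rw [Finset.map_orderEmbOfFin_univ]
  rw [h1, Finset.mem_map]
  unfold gEn
  simp only [dif_pos h, mem_univ, true_and]
  constructor
  · rintro ⟨i, hi⟩
    exact ⟨i, by rw [← hi]; rfl⟩
  · rintro ⟨i, hi⟩
    exact ⟨i, by exact_mod_cast hi⟩

theorem gEn_lt {S : Finset ℕ} (h : S.card = 8) {i j : Fin 8} (hij : i < j) : gEn S i < gEn S j := by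
  unfold gEn
  simp only [dif_pos h]
  exact_mod_cast (S.orderEmbOfFin h).strictMono hij

theorem gEn_pos {S : Finset ℕ} (h : S.card = 8) (h0 : 0 ∉ S) (i : Fin 8) : 0 < gEn S i := by
  unfold gEn
  simp only [dif_pos h]
  have h1 : S.orderEmbOfFin h i ∈ S := Finset.orderEmbOfFin_mem S h i
  have h2 : S.orderEmbOfFin h i ≠ 0 := fun h3 => h0 (h3 ▸ h1)
  exact_mod_cast Nat.pos_of_ne_zero h2

theorem gEn_even {m : ℕ} {S : Finset ℕ} (hS : Good m S) : (∑ i, gEn S i) % 2 = 0 := by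
  obtain ⟨h, h0, h2, _⟩ := hS
  have h3 : ∑ i, gEn S i ^ 2 = 2 * (m : ℤ) := by
    rw [gEn_sum h]
    unfold ps
    exact_mod_cast h2
  have h4 : ∀ x : ℤ, (x ^ 2 - x) % 2 = 0 := by
    intro x
    have h5 : x ^ 2 - x = (x - 1) * ((x - 1) + 1) := by ring
    rw [h5]
    exact Int.even_iff.1 (Int.even_mul_succ_self (x - 1))
  have h5 : (2 : ℤ) ∣ ∑ i, (gEn S i ^ 2 - gEn S i) :=
    Finset.dvd_sum fun i _ => Int.dvd_of_emod_eq_zero (h4 _)
  rw [Finset.sum_sub_distrib, h3] at h5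
  omega

theorem gV_e8 {m : ℕ} {S : Finset ℕ} (hS : Good m S) : IsE8 (gV S) := by
  have h := gEn_even hS
  refine ⟨fun i j => ?_, ?_⟩
  · unfold gV
    omega
  · unfold gV
    rw [← Finset.mul_sum]
    omega

theorem gW_sum (S : Finset ℕ) : ∑ i, gW S i = ∑ i, gV S i - 4 * gEn S 0 := by
  simp only [Fin.sum_univ_succ, gW, gV, Fin.succ_ne_zero, if_true, if_false]
  simp only [Fin.sum_univ_zero]
  ring

theorem gW_e8 {m : ℕ} {S : Finset ℕ} (hS : Good m S) : IsE8 (gW S) := by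
  have h := (gV_e8 hS).2
  refine ⟨fun i j => ?_, ?_⟩
  · unfold gW
    split_ifs <;> omega
  · rw [gW_sum]
    omega

theorem gV_sq {m : ℕ} {S : Finset ℕ} (hS : Good m S) : ∑ i, gV S i ^ 2 = 8 * (m : ℤ) := by
  obtain ⟨h, h0, h2, _⟩ := hS
  have h3 : ∑ i, gEn S i ^ 2 = 2 * (m : ℤ) := by
    rw [gEn_sum h]
    unfold ps
    exact_mod_cast h2
  unfold gV
  simp only [mul_pow]
  rw [← Finset.mul_sum, h3]
  ring

theorem gW_sq_eq (S : Finset ℕ) : ∑ i, gW S i ^ 2 = ∑ i, gV S i ^ 2 := by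
  refine Finset.sum_congr rfl fun i _ => ?_
  unfold gW gV
  split_ifs <;> ring

theorem gEn_big {m : ℕ} {S : Finset ℕ} (hS : Good m S) :
    gEn S 0 + gEn S 1 + gEn S 2 + gEn S 3 + gEn S 4 + gEn S 5 + gEn S 6 < gEn S 7 := by
  obtain ⟨h, h0, h2, x, hx, hlt⟩ := hS
  have h3 : ∑ i, gEn S i ^ 1 = ps 1 S := gEn_sum h 1
  have h4 : ps 1 S = ((∑ a ∈ S.erase x, a + x : ℕ) : ℤ) := by
    rw [Finset.sum_erase_add S (fun a => a) hx]
    unfold ps
    push_cast
    simp
  obtain ⟨i, hi⟩ := (gEn_mem h x).1 hx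
  have h5 : (x : ℤ) ≤ gEn S 7 := by
    rw [← hi]
    rcases eq_or_ne i 7 with h6 | h6
    · rw [h6]
    · exact (gEn_lt h (by omega)).le
  rw [h4] at h3
  simp only [Fin.sum_univ_eight, pow_one] at h3
  push_cast at h3
  have h6 : ((∑ a ∈ S.erase x, a : ℕ) : ℤ) < (x : ℤ) := by exact_mod_cast hlt
  push_cast at h6
  linarith

theorem gV_ch {m : ℕ} {S : Finset ℕ} (hS : Good m S) : Ch (gV S) := by
  have h8 := hS.1
  have hp := gEn_pos h8 hS.2.1
  have hb := gEn_big hS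
  have hl : ∀ i j : Fin 8, i < j → gEn S i < gEn S j := fun i j hij => gEn_lt h8 hij
  have e0 : |gV S 0| = 2 * gEn S 0 := by
    unfold gV
    exact abs_of_pos (by linarith [hp 0])
  refine ⟨gV_e8 hS, ?_, ?_, ?_, ?_, ?_, ?_, ?_, ?_⟩
  · rw [e0]; linarith [hp 0]
  · rw [e0]; unfold gV; linarith [hl 0 1 (by decide)]
  · unfold gV; linarith [hl 1 2 (by decide)]
  · unfold gV; linarith [hl 2 3 (by decide)]
  · unfold gV; linarith [hl 3 4 (by decide)]
  · unfold gV; linarith [hl 4 5 (by decide)]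
  · unfold gV; linarith [hl 5 6 (by decide)]
  · rw [e0]; unfold gV; linarith

theorem gW_ch {m : ℕ} {S : Finset ℕ} (hS : Good m S) : Ch (gW S) := by
  have h8 := hS.1
  have hp := gEn_pos h8 hS.2.1
  have hb := gEn_big hS
  have hl : ∀ i j : Fin 8, i < j → gEn S i < gEn S j := fun i j hij => gEn_lt h8 hij
  have e0 : |gW S 0| = 2 * gEn S 0 := by
    unfold gW
    rw [if_pos rfl, abs_neg]
    exact abs_of_pos (by linarith [hp 0])
  have e : ∀ i : Fin 8, i ≠ 0 → gW S i = 2 * gEn S i := fun i hi => by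
    unfold gW
    rw [if_neg hi]
  refine ⟨gW_e8 hS, ?_, ?_, ?_, ?_, ?_, ?_, ?_, ?_⟩
  · rw [e0]; linarith [hp 0]
  · rw [e0, e 1 (by decide)]; linarith [hl 0 1 (by decide)]
  · rw [e 1 (by decide), e 2 (by decide)]; linarith [hl 1 2 (by decide)]
  · rw [e 2 (by decide), e 3 (by decide)]; linarith [hl 2 3 (by decide)]
  · rw [e 3 (by decide), e 4 (by decide)]; linarith [hl 3 4 (by decide)]
  · rw [e 4 (by decide), e 5 (by decide)]; linarith [hl 4 5 (by decide)]
  · rw [e 5 (by decide), e 6 (by decide)]; linarith [hl 5 6 (by decide)]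
  · rw [e0, e 1 (by decide), e 2 (by decide), e 3 (by decide), e 4 (by decide), e 5 (by decide),
      e 6 (by decide), e 7 (by decide)]
    linarith

theorem gEn_inj {S T : Finset ℕ} (hS : S.card = 8) (hT : T.card = 8) (h : ∀ i, gEn S i = gEn T i) :
    S = T := by
  ext a
  rw [gEn_mem hS, gEn_mem hT]
  simp only [h]

theorem gV_inj {S T : Finset ℕ} (hS : S.card = 8) (hT : T.card = 8) (h : gV S = gV T) : S = T := by
  refine gEn_inj hS hT fun i => ?_
  have h1 := congrFun h i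
  unfold gV at h1
  linarith

theorem gW_inj {S T : Finset ℕ} (hS : S.card = 8) (hT : T.card = 8) (h : gW S = gW T) : S = T := by
  refine gEn_inj hS hT fun i => ?_
  have h1 := congrFun h i
  unfold gW at h1
  split_ifs at h1 <;> linarith

theorem g_pair (hf : S_FORM8) {m : ℕ} {S : Finset ℕ} (hS : Good m S) :
    (rootSum (gV S) - 480 * (m : ℤ) ^ 4) + (rootSum (gW S) - 480 * (m : ℤ) ^ 4) = H S := by
  have h1 := hf (gEn S) (gEn_even hS)
  have h8 := hS.1
  have h2 : ps 2 S = 2 * (m : ℤ) := by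
    unfold ps
    exact_mod_cast hS.2.2.1
  rw [gEn_sum h8, gEn_sum h8, gEn_sum h8, gEn_sum h8] at h1
  have h3 : rootSum (gV S) + rootSum (gW S) = 105 * ps 2 S ^ 4 - 420 * ps 4 S * ps 2 S ^ 2
      + 420 * ps 4 S ^ 2 + 672 * ps 6 S * ps 2 S - 720 * ps 8 S := h1
  unfold H
  have h4 : (ps 2 S) ^ 4 = 16 * (m : ℤ) ^ 4 := by rw [h2]; ring
  linarith

theorem t_GRP (hf : S_FORM8) (ho : S_ORB) : S_GRP := by
  classical
  intro m F hF hG hH
  have iV : Set.InjOn gV (F : Set (Finset ℕ)) := fun S hS T hT h =>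
    gV_inj (hG S hS).1 (hG T hT).1 h
  have iW : Set.InjOn gW (F : Set (Finset ℕ)) := fun S hS T hT h =>
    gW_inj (hG S hS).1 (hG T hT).1 h
  have hd : Disjoint (F.image gV) (F.image gW) := by
    rw [Finset.disjoint_left]
    intro u hu hu'
    obtain ⟨S, hS, rfl⟩ := Finset.mem_image.1 hu
    obtain ⟨T, hT, h⟩ := Finset.mem_image.1 hu'
    have h1 := congrFun h 0
    unfold gW gV at h1
    rw [if_pos rfl] at h1
    have h2 := gEn_pos (hG S hS).1 (hG S hS).2.1 0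
    have h3 := gEn_pos (hG T hT).1 (hG T hT).2.1 0
    linarith
  refine ho m (F.image gV ∪ F.image gW) ?_ ?_ ?_
  · obtain ⟨S, hS⟩ := hF
    exact ⟨gV S, Finset.mem_union_left _ (Finset.mem_image_of_mem _ hS)⟩
  · intro u hu
    rcases Finset.mem_union.1 hu with h | h
    · obtain ⟨S, hS, rfl⟩ := Finset.mem_image.1 h
      exact ⟨⟨gV_e8 (hG S hS), gV_sq (hG S hS)⟩, gV_ch (hG S hS)⟩
    · obtain ⟨S, hS, rfl⟩ := Finset.mem_image.1 h
      exact ⟨⟨gW_e8 (hG S hS), (gW_sq_eq S).trans (gV_sq (hG S hS))⟩, gW_ch (hG S hS)⟩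
  · rw [Finset.sum_union hd, Finset.sum_image iV, Finset.sum_image iW, ← Finset.sum_add_distrib,
      ← hH]
    exact Finset.sum_congr rfl fun S hS => g_pair hf (hG S hS)

end Pool.Agent.Helper22E
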