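import Pool.Agent.Helper22E.Stm

/-!
# Polynomial inequalities for power sums (parts NEG, BD, POS)
-/

set_option autoImplicit false

namespace Pool.Agent.Helper22E

open Finset

theorem ineq_ps_nonneg (k : ℕ) (S : Finset ℕ) : 0 ≤ ps k S :=
  Finset.sum_nonneg fun a _ => by positivity

theorem ineq_ps_le (k : ℕ) (S : Finset ℕ) : ps (2 * (k + 1)) S ≤ ps 2 S ^ (k + 1) := by
  have h : ∀ a ∈ S, (a : ℤ) ^ (2 * (k + 1)) ≤ (a : ℤ) ^ 2 * ps 2 S ^ k := by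
    intro a ha
    have h1 : (a : ℤ) ^ 2 ≤ ps 2 S :=
      Finset.single_le_sum (f := fun a : ℕ => (a : ℤ) ^ 2) (fun b _ => by positivity) ha
    have h2 : ((a : ℤ) ^ 2) ^ k ≤ ps 2 S ^ k := pow_le_pow_left₀ (by positivity) h1 k
    calc (a : ℤ) ^ (2 * (k + 1)) = (a : ℤ) ^ 2 * ((a : ℤ) ^ 2) ^ k := by ring
      _ ≤ (a : ℤ) ^ 2 * ps 2 S ^ k := mul_le_mul_of_nonneg_left h2 (by positivity)
  calc ps (2 * (k + 1)) S ≤ ∑ a ∈ S, (a : ℤ) ^ 2 * ps 2 S ^ k := Finset.sum_le_sum h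
    _ = ps 2 S ^ (k + 1) := by
      rw [← Finset.sum_mul, pow_succ, mul_comm (ps 2 S ^ k)]
      rfl

theorem ineq_ps_erase (k : ℕ) (S : Finset ℕ) (x : ℕ) (hx : x ∈ S) :
    ps k S = (x : ℤ) ^ k + ps k (S.erase x) :=
  (Finset.add_sum_erase S (fun a : ℕ => (a : ℤ) ^ k) hx).symm

theorem ineq_cast (S : Finset ℕ) : ((∑ a ∈ S, a ^ 2 : ℕ) : ℤ) = ps 2 S := by
  rw [ps]
  push_cast
  rfl

theorem ineq_neg_core (s X r a b c : ℤ) (hs : s = X + r) (hX : 0 ≤ X) (hr : 0 ≤ r)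
    (h : 2000 * r ≤ s) (ha : 0 ≤ a) (ha' : a ≤ r ^ 2) (hb' : b ≤ r ^ 3)
    (hc : 0 ≤ c) :
    45 * s ^ 4 - 420 * (X ^ 2 + a) * s ^ 2 + 420 * (X ^ 2 + a) ^ 2 + 672 * (X ^ 3 + b) * s
      - 720 * (X ^ 4 + c) ≤ 0 := by
  have hs0 : 0 ≤ s := by linarith
  have hXs : X ≤ s := by linarith
  have e : 45 * s ^ 4 - 420 * (X ^ 2 + a) * s ^ 2 + 420 * (X ^ 2 + a) ^ 2 + 672 * (X ^ 3 + b) * s
      - 720 * (X ^ 4 + c) = (-3 * s ^ 4 + 24 * r * s ^ 3 - 204 * r ^ 2 * s ^ 2 + 528 * r ^ 3 * s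
        - 300 * r ^ 4) + 420 * (a * (2 * X ^ 2 - s ^ 2)) + 420 * a ^ 2 + 672 * (b * s)
        - 720 * c := by
    have : X = s - r := by linarith
    subst this
    ring
  have h1 : a * (2 * X ^ 2 - s ^ 2) ≤ r ^ 2 * s ^ 2 := by
    have h2 : 2 * X ^ 2 - s ^ 2 ≤ s ^ 2 := by nlinarith
    calc a * (2 * X ^ 2 - s ^ 2) ≤ a * s ^ 2 := mul_le_mul_of_nonneg_left h2 ha
      _ ≤ r ^ 2 * s ^ 2 := mul_le_mul_of_nonneg_right ha' (sq_nonneg s)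
  have h3 : a ^ 2 ≤ r ^ 4 := by
    calc a ^ 2 ≤ (r ^ 2) ^ 2 := pow_le_pow_left₀ ha ha' 2
      _ = r ^ 4 := by ring
  have h4 : b * s ≤ r ^ 3 * s := mul_le_mul_of_nonneg_right hb' hs0
  have k1 : 2000 * (r * s ^ 3) ≤ s ^ 4 := by
    have := mul_le_mul_of_nonneg_right h (pow_nonneg hs0 3)
    nlinarith [this]
  have k2 : 2000 * (r ^ 2 * s ^ 2) ≤ r * s ^ 3 := by
    have := mul_le_mul_of_nonneg_right h (mul_nonneg hr (pow_nonneg hs0 2))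
    nlinarith [this]
  have k3 : 2000 * (r ^ 3 * s) ≤ r ^ 2 * s ^ 2 := by
    have := mul_le_mul_of_nonneg_right h (mul_nonneg (pow_nonneg hr 2) hs0)
    nlinarith [this]
  have k4 : 2000 * r ^ 4 ≤ r ^ 3 * s := by
    have := mul_le_mul_of_nonneg_right h (pow_nonneg hr 3)
    nlinarith [this]
  have p1 : 0 ≤ r * s ^ 3 := mul_nonneg hr (pow_nonneg hs0 3)
  have p2 : 0 ≤ r ^ 2 * s ^ 2 := by positivity
  have p3 : 0 ≤ r ^ 3 * s := mul_nonneg (pow_nonneg hr 3) hs0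
  have p4 : 0 ≤ r ^ 4 := by positivity
  have p5 : 0 ≤ s ^ 4 := by positivity
  rw [e]
  nlinarith [h1, h3, h4, k1, k2, k3, k4, p1, p2, p3, p4, p5]

theorem ineq_pos_core (s X W r a b c : ℤ) (hs : s = X + W + r) (hX : 0 ≤ X) (hW : 0 ≤ W)
    (hr : 0 ≤ r) (h : 10000 * r ≤ s) (h39 : 39 * s ≤ 100 * W) (h41 : 100 * W ≤ 41 * s)
    (ha : 0 ≤ a) (ha' : a ≤ r ^ 2) (hb : 0 ≤ b) (hc' : c ≤ r ^ 4) :
    s ^ 4 ≤ 45 * s ^ 4 - 420 * (X ^ 2 + W ^ 2 + a) * s ^ 2 + 420 * (X ^ 2 + W ^ 2 + a) ^ 2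
      + 672 * (X ^ 3 + W ^ 3 + b) * s - 720 * (X ^ 4 + W ^ 4 + c) := by
  have hs0 : 0 ≤ s := by linarith
  obtain ⟨m, hm⟩ : ∃ m, m = X * W := ⟨_, rfl⟩
  have hm0 : 0 ≤ m := by rw [hm]; exact mul_nonneg hX hW
  have hX1 : 5899 * s ≤ 10000 * X := by linarith
  have hm1 : 230061 * s ^ 2 ≤ 1000000 * m := by
    have h1 : 39 * s * (5899 * s) ≤ 100 * W * (10000 * X) :=
      mul_le_mul h39 hX1 (by positivity) (by positivity)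
    rw [hm]
    nlinarith [h1]
  have hm2 : 4 * m ≤ s ^ 2 := by
    rw [hm]
    nlinarith [sq_nonneg (X - W), mul_nonneg hr hX, mul_nonneg hr hW, mul_nonneg hr hr]
  have e : 45 * s ^ 4 - 420 * (X ^ 2 + W ^ 2 + a) * s ^ 2 + 420 * (X ^ 2 + W ^ 2 + a) ^ 2
      + 672 * (X ^ 3 + W ^ 3 + b) * s - 720 * (X ^ 4 + W ^ 4 + c) =
      (-3 * s ^ 4 + 24 * (m * s ^ 2) + 240 * m ^ 2 + 24 * (r * s ^ 3) - 384 * (m * (r * s))
        - 204 * (r ^ 2 * s ^ 2) + 1200 * (m * r ^ 2) + 528 * (r ^ 3 * s) - 300 * r ^ 4)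
        - 420 * (a * s ^ 2) + 840 * (a * (X ^ 2 + W ^ 2)) + 420 * a ^ 2 + 672 * (b * s)
        - 720 * c := by
    rw [hm]
    have : X = s - W - r := by linarith
    subst this
    ring
  have h1 : a * s ^ 2 ≤ r ^ 2 * s ^ 2 := mul_le_mul_of_nonneg_right ha' (sq_nonneg s)
  have q1 : 0 ≤ a * (X ^ 2 + W ^ 2) := by positivity
  have q2 : 0 ≤ b * s := mul_nonneg hb hs0
  have m1 : 230061 * s ^ 4 ≤ 1000000 * (m * s ^ 2) := by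
    have := mul_le_mul_of_nonneg_right hm1 (sq_nonneg s)
    nlinarith [this]
  have m2 : 230061 * (m * s ^ 2) ≤ 1000000 * m ^ 2 := by
    have := mul_le_mul_of_nonneg_left hm1 hm0
    nlinarith [this]
  have m3 : 4 * (m * (r * s)) ≤ r * s ^ 3 := by
    have := mul_le_mul_of_nonneg_right hm2 (mul_nonneg hr hs0)
    nlinarith [this]
  have k1 : 10000 * (r * s ^ 3) ≤ s ^ 4 := by
    have := mul_le_mul_of_nonneg_right h (pow_nonneg hs0 3)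
    nlinarith [this]
  have k2 : 10000 * (r ^ 2 * s ^ 2) ≤ r * s ^ 3 := by
    have := mul_le_mul_of_nonneg_right h (mul_nonneg hr (pow_nonneg hs0 2))
    nlinarith [this]
  have k3 : 10000 * (r ^ 3 * s) ≤ r ^ 2 * s ^ 2 := by
    have := mul_le_mul_of_nonneg_right h (mul_nonneg (pow_nonneg hr 2) hs0)
    nlinarith [this]
  have k4 : 10000 * r ^ 4 ≤ r ^ 3 * s := by
    have := mul_le_mul_of_nonneg_right h (pow_nonneg hr 3)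
    nlinarith [this]
  have p1 : 0 ≤ r * s ^ 3 := mul_nonneg hr (pow_nonneg hs0 3)
  have p2 : 0 ≤ r ^ 2 * s ^ 2 := by positivity
  have p3 : 0 ≤ r ^ 3 * s := mul_nonneg (pow_nonneg hr 3) hs0
  have p4 : 0 ≤ r ^ 4 := by positivity
  have p5 : 0 ≤ s ^ 4 := by positivity
  have p6 : 0 ≤ a ^ 2 := sq_nonneg a
  have p7 : 0 ≤ m * r ^ 2 := by positivity
  rw [e]
  linarith

theorem t_NEG : S_NEG := by
  intro S x hx h
  have h' : 2000 * ps 2 (S.erase x) ≤ ps 2 S := by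
    rw [← ineq_cast, ← ineq_cast]
    exact_mod_cast h
  have hr := ineq_ps_nonneg 2 (S.erase x)
  rw [H]
  rw [ineq_ps_erase 4 S x hx, ineq_ps_erase 6 S x hx, ineq_ps_erase 8 S x hx]
  have key := ineq_neg_core (ps 2 S) ((x : ℤ) ^ 2) (ps 2 (S.erase x)) (ps 4 (S.erase x))
    (ps 6 (S.erase x)) (ps 8 (S.erase x)) (ineq_ps_erase 2 S x hx) (by positivity) hr h'
    (ineq_ps_nonneg _ _) (ineq_ps_le 1 _) (ineq_ps_le 2 _) (ineq_ps_nonneg _ _)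
  have e4 : (x : ℤ) ^ 4 = ((x : ℤ) ^ 2) ^ 2 := by ring
  have e6 : (x : ℤ) ^ 6 = ((x : ℤ) ^ 2) ^ 3 := by ring
  have e8 : (x : ℤ) ^ 8 = ((x : ℤ) ^ 2) ^ 4 := by ring
  rw [e4, e6, e8]
  exact key

theorem t_BD : S_BD := by
  intro S
  have h0 := ineq_ps_nonneg 2 S
  have h4 := ineq_ps_nonneg 4 S
  have h6 := ineq_ps_nonneg 6 S
  have h8 := ineq_ps_nonneg 8 S
  have g4 : ps 4 S ≤ ps 2 S ^ 2 := ineq_ps_le 1 S
  have g6 : ps 6 S ≤ ps 2 S ^ 3 := ineq_ps_le 2 S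
  have g8 : ps 8 S ≤ ps 2 S ^ 4 := ineq_ps_le 3 S
  have a1 : ps 4 S * ps 2 S ^ 2 ≤ ps 2 S ^ 4 := by
    calc ps 4 S * ps 2 S ^ 2 ≤ ps 2 S ^ 2 * ps 2 S ^ 2 :=
          mul_le_mul_of_nonneg_right g4 (by positivity)
      _ = ps 2 S ^ 4 := by ring
  have a2 : ps 4 S ^ 2 ≤ ps 2 S ^ 4 := by
    calc ps 4 S ^ 2 ≤ (ps 2 S ^ 2) ^ 2 := pow_le_pow_left₀ h4 g4 2
      _ = ps 2 S ^ 4 := by ring
  have a3 : ps 6 S * ps 2 S ≤ ps 2 S ^ 4 := by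
    calc ps 6 S * ps 2 S ≤ ps 2 S ^ 3 * ps 2 S := mul_le_mul_of_nonneg_right g6 h0
      _ = ps 2 S ^ 4 := by ring
  have b1 : 0 ≤ ps 4 S * ps 2 S ^ 2 := by positivity
  have b2 : 0 ≤ ps 4 S ^ 2 := by positivity
  have b3 : 0 ≤ ps 6 S * ps 2 S := by positivity
  have b4 : 0 ≤ ps 2 S ^ 4 := by positivity
  rw [abs_le, H]
  constructor <;> linarith

theorem t_POS : S_POS := by
  intro S x w hx hw hxw h h39 h41
  have hw' : w ∈ S.erase x := Finset.mem_erase.mpr ⟨hxw.symm, hw⟩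
  obtain ⟨T, hT⟩ : ∃ T, T = (S.erase x).erase w := ⟨_, rfl⟩
  rw [← hT] at h
  have hk : ∀ k, ps k S = (x : ℤ) ^ k + (w : ℤ) ^ k + ps k T := by
    intro k
    rw [ineq_ps_erase k S x hx, ineq_ps_erase k (S.erase x) w hw', hT]
    ring
  have h' : 10000 * ps 2 T ≤ ps 2 S := by
    rw [← ineq_cast, ← ineq_cast]
    exact_mod_cast h
  have h39' : 39 * ps 2 S ≤ 100 * (w : ℤ) ^ 2 := by
    rw [← ineq_cast]
    exact_mod_cast h39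
  have h41' : 100 * (w : ℤ) ^ 2 ≤ 41 * ps 2 S := by
    rw [← ineq_cast]
    exact_mod_cast h41
  have key := ineq_pos_core (ps 2 S) ((x : ℤ) ^ 2) ((w : ℤ) ^ 2) (ps 2 T) (ps 4 T)
    (ps 6 T) (ps 8 T) (hk 2) (by positivity) (by positivity) (ineq_ps_nonneg _ _) h' h39' h41'
    (ineq_ps_nonneg _ _) (ineq_ps_le 1 _) (ineq_ps_nonneg _ _) (ineq_ps_le 3 _)
  have e4 : ∀ y : ℤ, y ^ 4 = (y ^ 2) ^ 2 := fun y => by ring
  have e6 : ∀ y : ℤ, y ^ 6 = (y ^ 2) ^ 3 := fun y => by ring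
  have e8 : ∀ y : ℤ, y ^ 8 = (y ^ 2) ^ 4 := fun y => by ring
  rw [H, hk 4, hk 6, hk 8, e4 x, e4 w, e6 x, e6 w, e8 x, e8 w]
  exact key
end Pool.Agent.Helper22E
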