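import Mathlib

/-!
# The table of the residues modulo 900
-/

set_option autoImplicit false

namespace Pool.Agent.Helper22E

/-- the constants of a residue class of `m` -/
structure Dat (r b1 b2 b3 b4 c1 c2 c3 c4 ξ ρ : ℕ) : Prop where
  nodup : [b1, b2, b3, b4, c1, c2, c3, c4].Nodup
  rng : ∀ a ∈ [b1, b2, b3, b4, c1, c2, c3, c4], 0 < a ∧ a < 1801
  ev : ∀ a ∈ [b1, b2, b3, b4], a % 2 = 0
  th : ∀ a ∈ [c1, c2, c3, c4], a % 3 = 0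
  B : b1 ^ 2 + b2 ^ 2 = b3 ^ 2 + b4 ^ 2
  C : c1 ^ 2 + c2 ^ 2 = c3 ^ 2 + c4 ^ 2
  b4 : b3 ^ 4 + b4 ^ 4 < b1 ^ 4 + b2 ^ 4
  c4 : c3 ^ 4 + c4 ^ 4 < c1 ^ 4 + c2 ^ 4
  hξ : ξ < 1800
  hρ : ρ < 1800
  sum : (ρ + b1 ^ 2 + b2 ^ 2 + c1 ^ 2 + c2 ^ 2 + ξ ^ 2) % 1800 = (2 * r) % 1800
  r8 : ρ % 8 = 3
  r9 : ρ % 9 = 3 ∨ ρ % 9 = 6
  r5 : ρ % 5 = 0
  r25 : ρ % 25 ≠ 0

/-- the constants -/
def cst (i : ℕ) : List ℕ := [
  [2, 16, 8, 14, 3, 24, 12, 21],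
  [4, 18, 12, 14, 72, 147, 108, 123],
  [6, 48, 24, 42, 9, 66, 39, 54],
  [2, 16, 8, 14, 9, 33, 21, 27],
  [6, 22, 14, 18, 9, 33, 21, 27],
  [4, 18, 12, 14, 3, 63, 27, 57],
  [2, 26, 14, 22, 3, 63, 27, 57],
  [2, 24, 16, 18, 9, 48, 33, 36],
  [6, 48, 24, 42, 15, 81, 45, 69],
  [18, 66, 42, 54, 15, 81, 45, 69],
  [2, 16, 8, 14, 12, 57, 33, 48],
  [4, 22, 10, 20, 39, 99, 69, 81],
  [10, 30, 18, 26, 3, 63, 27, 57],
  [6, 48, 24, 42, 21, 90, 54, 75],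
  [2, 24, 16, 18, 15, 93, 57, 75],
  [2, 26, 14, 22, 9, 33, 21, 27],
  [18, 66, 42, 54, 39, 99, 69, 81],
  [4, 22, 10, 20, 15, 42, 30, 33],
  [2, 34, 22, 26, 15, 93, 57, 75],
  [6, 48, 24, 42, 9, 33, 21, 27],
  [2, 16, 8, 14, 15, 81, 45, 69],
  [4, 18, 12, 14, 3, 93, 33, 87]].getD i []

/-- the index and the residue of `x` -/
def tab : List (ℕ × ℕ) := [
  (0, 20), (5, 13), (1, 6), (9, 15), (17, 18), (8, 7), (2, 0), (4, 17), (2, 2), (11, 1),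
  (7, 10), (9, 1), (0, 8), (11, 3), (1, 30), (9, 3), (1, 8), (14, 15), (0, 14), (6, 15),
  (13, 58), (8, 9), (1, 14), (4, 21), (2, 6), (3, 15), (13, 16), (6, 1), (0, 24), (5, 15),
  (0, 10), (6, 3), (1, 24), (3, 1), (1, 10), (9, 7), (10, 32), (3, 3), (2, 8), (6, 5),
  (7, 40), (5, 3), (0, 22), (4, 1), (2, 26), (3, 5), (1, 58), (4, 3), (0, 16), (5, 5),
  (7, 30), (6, 7), (0, 12), (8, 25), (10, 50), (4, 5), (1, 12), (3, 7), (7, 14), (16, 11),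
  (13, 18), (5, 7), (7, 18), (15, 19), (1, 40), (8, 13), (2, 0), (4, 7), (2, 2), (11, 1),
  (0, 30), (9, 11), (0, 52), (3, 9), (1, 30), (9, 27), (1, 32), (5, 9), (0, 14), (12, 5),
  (7, 0), (11, 5), (0, 18), (4, 9), (2, 6), (14, 1), (1, 18), (6, 1), (0, 24), (14, 3),
  (0, 50), (6, 3), (1, 36), (3, 1), (1, 50), (9, 13), (2, 30), (3, 3), (2, 8), (6, 5),
  (0, 0), (5, 27), (0, 2), (4, 11), (2, 14), (3, 5), (1, 38), (12, 9), (0, 4), (11, 9),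
  (13, 28), (6, 7), (1, 16), (19, 11), (2, 36), (4, 25), (2, 10), (3, 7), (0, 6), (12, 15),
  (0, 20), (5, 13), (1, 54), (9, 15), (1, 20), (8, 17), (10, 2), (4, 13), (2, 22), (11, 11),
  (7, 10), (9, 29), (0, 8), (3, 9), (2, 16), (15, 5), (1, 28), (5, 21), (0, 26), (6, 15),
  (7, 0), (8, 21), (0, 18), (9, 25), (10, 20), (3, 15), (1, 18), (6, 11), (7, 4), (5, 15),
  (0, 10), (12, 13), (7, 12), (3, 11), (10, 30), (4, 15), (2, 30), (5, 29), (2, 32), (6, 25),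
  (7, 20), (8, 1), (0, 22), (4, 1), (1, 0), (8, 3), (1, 2), (4, 3), (0, 44), (5, 25),
  (13, 8), (6, 13), (0, 12), (8, 5), (2, 24), (4, 5), (1, 48), (3, 13), (0, 54), (12, 15),
  (0, 20), (5, 17), (1, 6), (15, 11), (1, 20), (8, 7), (2, 0), (4, 7), (2, 2), (11, 1),
  (0, 30), (9, 1), (0, 28), (11, 3), (1, 30), (9, 3), (1, 8), (14, 15), (0, 14), (6, 15),
  (13, 22), (8, 9), (1, 34), (4, 9), (2, 6), (3, 15), (2, 20), (6, 1), (0, 24), (21, 15),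
  (13, 12), (6, 3), (1, 24), (3, 1), (1, 10), (9, 7), (10, 32), (3, 3), (2, 8), (6, 5),
  (17, 6), (5, 3), (0, 22), (4, 1), (2, 26), (3, 5), (1, 22), (4, 3), (0, 16), (5, 5),
  (7, 30), (6, 7), (0, 48), (8, 25), (10, 50), (4, 5), (1, 12), (3, 7), (7, 14), (16, 11),
  (0, 40), (5, 7), (7, 18), (15, 1), (1, 40), (8, 13), (2, 0), (4, 7), (2, 2), (11, 11),
  (0, 30), (9, 1), (0, 32), (3, 9), (2, 4), (9, 3), (1, 32), (5, 9), (0, 26), (12, 5),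
  (7, 0), (20, 11), (0, 18), (4, 9), (2, 6), (14, 19), (1, 42), (6, 11), (0, 24), (14, 27),
  (0, 50), (6, 27), (1, 24), (3, 1), (1, 50), (4, 15), (10, 8), (3, 3), (2, 8), (18, 13),
  (0, 0), (5, 3), (0, 2), (4, 11), (1, 0), (3, 5), (1, 2), (12, 9), (0, 4), (5, 5),
  (13, 8), (6, 13), (1, 4), (8, 5), (2, 24), (18, 21), (2, 10), (3, 7), (0, 6), (12, 15),
  (0, 20), (5, 7), (1, 6), (9, 15), (10, 0), (8, 7), (10, 2), (4, 13), (2, 22), (11, 29),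
  (7, 10), (9, 11), (0, 8), (3, 9), (2, 16), (15, 5), (1, 8), (5, 9), (0, 26), (6, 15),
  (13, 2), (8, 9), (0, 42), (9, 25), (10, 20), (3, 15), (1, 18), (6, 29), (7, 44), (5, 15),
  (0, 10), (12, 13), (7, 12), (3, 11), (1, 10), (4, 15), (2, 30), (5, 11), (2, 52), (6, 25),
  (0, 0), (8, 1), (0, 2), (4, 1), (1, 0), (3, 25), (1, 2), (4, 3), (0, 4), (5, 25),
  (7, 30), (6, 17), (0, 12), (8, 5), (2, 24), (4, 5), (1, 12), (3, 13), (0, 6), (12, 15),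
  (17, 14), (5, 13), (1, 6), (9, 15), (1, 20), (8, 7), (2, 0), (4, 7), (2, 2), (11, 1),
  (0, 30), (9, 19), (0, 8), (11, 3), (1, 30), (9, 27), (1, 8), (19, 7), (0, 14), (12, 5),
  (13, 22), (8, 9), (1, 14), (4, 9), (2, 6), (3, 15), (2, 20), (6, 1), (0, 24), (5, 15),
  (0, 10), (6, 3), (1, 36), (3, 1), (1, 10), (9, 17), (10, 32), (3, 3), (2, 8), (6, 5),
  (7, 40), (5, 27), (0, 58), (4, 1), (2, 26), (3, 5), (1, 22), (4, 3), (0, 16), (11, 9),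
  (7, 30), (6, 7), (0, 12), (19, 1), (17, 28), (4, 5), (1, 12), (3, 7), (7, 26), (16, 11),
  (0, 40), (5, 17), (7, 18), (15, 1), (1, 40), (8, 13), (10, 2), (4, 7), (2, 22), (11, 1),
  (0, 30), (9, 1), (0, 32), (3, 9), (1, 30), (9, 3), (1, 32), (5, 21), (0, 14), (18, 3),
  (7, 0), (11, 5), (0, 18), (4, 9), (2, 54), (14, 1), (1, 18), (6, 1), (0, 36), (14, 3),
  (0, 50), (6, 3), (1, 24), (3, 11), (17, 48), (4, 15), (2, 30), (3, 27), (2, 28), (6, 5),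
  (7, 20), (5, 3), (0, 38), (4, 11), (1, 0), (8, 3), (1, 2), (12, 21), (0, 16), (5, 5),
  (13, 8), (6, 7), (1, 4), (8, 5), (2, 24), (4, 25), (13, 26), (3, 13), (0, 54), (12, 15),
  (0, 20), (5, 7), (1, 6), (15, 1), (1, 20), (8, 7), (10, 2), (4, 13), (2, 22), (11, 11),
  (7, 10), (9, 11), (0, 28), (3, 21), (2, 16), (15, 5), (1, 8), (5, 9), (0, 34), (6, 15),
  (7, 0), (8, 9), (0, 18), (9, 25), (10, 20), (3, 15), (1, 18), (6, 11), (7, 4), (14, 3),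
  (13, 12), (12, 17), (7, 12), (3, 29), (1, 10), (4, 15), (2, 30), (5, 11), (2, 32), (6, 25),
  (0, 0), (8, 1), (0, 2), (4, 1), (1, 0), (3, 25), (1, 2), (4, 3), (0, 4), (5, 25),
  (7, 30), (6, 13), (0, 48), (8, 5), (2, 24), (4, 5), (1, 12), (3, 17), (0, 6), (16, 11),
  (0, 20), (5, 13), (1, 6), (9, 15), (1, 20), (8, 7), (2, 0), (4, 7), (2, 2), (11, 19),
  (0, 30), (9, 1), (0, 8), (11, 27), (2, 4), (9, 3), (1, 8), (14, 15), (0, 34), (6, 15),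
  (13, 22), (8, 9), (1, 14), (4, 9), (2, 6), (14, 11), (2, 20), (6, 19), (0, 24), (5, 15),
  (0, 10), (6, 27), (1, 24), (3, 1), (1, 10), (9, 7), (10, 52), (3, 3), (2, 8), (16, 21),
  (7, 40), (5, 3), (0, 22), (4, 11), (2, 26), (3, 5), (1, 22), (4, 27), (0, 44), (5, 5),
  (7, 30), (6, 17), (0, 12), (8, 25), (10, 50), (15, 15), (1, 12), (3, 7), (7, 14), (16, 29),
  (0, 40), (5, 7), (7, 18), (15, 1), (10, 0), (8, 13), (2, 0), (4, 13), (2, 2), (11, 1),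
  (7, 50), (9, 1), (0, 32), (3, 9), (1, 30), (9, 3), (1, 52), (5, 9), (0, 14), (12, 5),
  (13, 2), (11, 5), (0, 42), (4, 21), (2, 6), (14, 1), (1, 18), (6, 1), (0, 24), (14, 3),
  (0, 50), (6, 3), (1, 24), (3, 1), (1, 50), (4, 15), (2, 30), (3, 3), (2, 8), (6, 5),
  (0, 0), (5, 3), (0, 2), (4, 29), (1, 0), (3, 5), (1, 2), (12, 9), (0, 4), (5, 5),
  (13, 8), (6, 7), (1, 4), (8, 5), (2, 24), (4, 25), (2, 10), (3, 7), (0, 6), (12, 15),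
  (13, 18), (5, 7), (1, 6), (9, 15), (1, 20), (8, 7), (10, 22), (4, 17), (2, 58), (11, 11),
  (17, 36), (9, 11), (0, 8), (3, 9), (2, 16), (18, 11), (1, 8), (5, 9), (0, 26), (12, 25),
  (7, 0), (8, 9), (0, 18), (16, 7), (10, 20), (3, 15), (1, 18), (6, 11), (7, 4), (5, 15),
  (0, 10), (12, 13), (7, 48), (3, 11), (1, 10), (9, 13), (2, 30), (5, 11), (2, 32), (6, 25),
  (0, 0), (8, 11), (0, 2), (4, 1), (2, 14), (3, 25), (1, 22), (4, 3), (0, 4), (14, 7),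
  (7, 30), (6, 13), (0, 12), (19, 1), (2, 36), (4, 5), (1, 12), (3, 13), (0, 6), (12, 15),
  (0, 20), (5, 13), (1, 54), (9, 15), (1, 20), (8, 13), (10, 22), (4, 7), (2, 38), (11, 1),
  (0, 30), (9, 1), (0, 8), (11, 3), (1, 30), (9, 3), (1, 28), (14, 15), (0, 14), (6, 15),
  (13, 22), (8, 21), (1, 14), (4, 9), (2, 54), (3, 15), (2, 20), (6, 1), (0, 36), (5, 15),
  (0, 10), (6, 3), (1, 24), (3, 19), (10, 30), (9, 7), (10, 32), (3, 27), (2, 28), (6, 5),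
  (7, 40), (5, 3), (0, 22), (4, 1), (2, 34), (20, 7), (1, 22), (4, 3), (0, 16), (5, 5),
  (13, 32), (6, 7), (0, 12), (8, 25), (10, 50), (4, 5), (1, 48), (3, 17), (7, 14), (16, 11),
  (0, 40), (5, 7), (7, 42), (15, 1), (1, 40), (8, 17), (2, 0), (4, 7), (2, 2), (11, 1),
  (0, 30), (9, 1), (0, 32), (3, 21), (1, 30), (9, 3), (1, 32), (5, 9), (0, 14), (12, 5),
  (7, 0), (11, 5), (0, 18), (4, 9), (2, 6), (14, 1), (1, 18), (6, 1), (0, 24), (14, 3),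
  (17, 4), (6, 3), (1, 24), (3, 1), (1, 50), (4, 15), (2, 30), (3, 3), (2, 8), (6, 5),
  (0, 0), (5, 3), (0, 2), (4, 11), (1, 0), (3, 5), (1, 2), (12, 9), (0, 4), (5, 5),
  (13, 8), (6, 7), (1, 4), (8, 5), (2, 24), (4, 25), (2, 10), (3, 7), (0, 6), (16, 19),
  (0, 20), (5, 7), (1, 6), (9, 15), (1, 20), (8, 7), (10, 2), (4, 13), (2, 22), (11, 11),
  (7, 10), (9, 11), (0, 8), (3, 9), (2, 44), (15, 5), (1, 8), (5, 9), (0, 26), (6, 15),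
  (7, 0), (8, 9), (0, 18), (9, 25), (17, 22), (14, 11), (1, 42), (6, 11), (7, 4), (5, 15),
  (0, 10), (12, 13), (7, 12), (3, 11), (1, 10), (4, 15), (10, 8), (5, 11), (2, 32), (16, 21),
  (0, 0), (8, 1), (0, 2), (4, 19), (1, 0), (3, 25), (1, 2), (4, 27), (0, 4), (5, 25),
  (7, 30), (6, 13), (0, 12), (8, 5), (2, 24), (15, 15), (1, 12), (3, 13), (0, 6), (12, 15)]

/-- the residue of the rest -/
def rho (r b1 b2 c1 c2 ξ : ℕ) : ℕ := (2 * r + 1800 * 100 + 1800 * 1800 - (b1 ^ 2 + b2 ^ 2 + c1 ^ 2 + c2 ^ 2 + ξ ^ 2)) % 1800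

/-- the check -/
def chk (r : ℕ) (t : List ℕ) (ξ : ℕ) : Bool :=
  match t with
  | [b1, b2, b3, b4, c1, c2, c3, c4] =>
    decide ([b1, b2, b3, b4, c1, c2, c3, c4].Nodup) && ([b1, b2, b3, b4, c1, c2, c3, c4].all fun a => decide (0 < a) && decide (a < 1801)) &&
    ([b1, b2, b3, b4].all fun a => a % 2 == 0) && ([c1, c2, c3, c4].all fun a => a % 3 == 0) &&
    b1 ^ 2 + b2 ^ 2 == b3 ^ 2 + b4 ^ 2 && c1 ^ 2 + c2 ^ 2 == c3 ^ 2 + c4 ^ 2 &&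
    decide (b3 ^ 4 + b4 ^ 4 < b1 ^ 4 + b2 ^ 4) && decide (c3 ^ 4 + c4 ^ 4 < c1 ^ 4 + c2 ^ 4) &&
    decide (ξ < 1800) && (rho r b1 b2 c1 c2 ξ + b1 ^ 2 + b2 ^ 2 + c1 ^ 2 + c2 ^ 2 + ξ ^ 2) % 1800 == (2 * r) % 1800 &&
    rho r b1 b2 c1 c2 ξ % 8 == 3 && (rho r b1 b2 c1 c2 ξ % 9 == 3 || rho r b1 b2 c1 c2 ξ % 9 == 6) &&
    rho r b1 b2 c1 c2 ξ % 5 == 0 && rho r b1 b2 c1 c2 ξ % 25 != 0
  | _ => false

/-- the check of the table from the index `r` on -/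
def chkAll : ℕ → List (ℕ × ℕ) → Bool
  | _, [] => true
  | r, p :: l => chk r (cst p.1) p.2 && chkAll (r + 1) l

theorem tab_ok : chkAll 0 tab = true := by decide +kernel

theorem tab_len : tab.length = 900 := by decide +kernel

theorem chk_of : ∀ (l : List (ℕ × ℕ)) (s : ℕ), chkAll s l = true → ∀ i, i < l.length →
    ∃ p : ℕ × ℕ, chk (s + i) (cst p.1) p.2 = true
  | [], _, _, i, hi => by simp at hi
  | p :: l, s, h, 0, _ => by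
    simp only [chkAll, Bool.and_eq_true] at h
    exact ⟨p, h.1⟩
  | p :: l, s, h, i + 1, hi => by
    simp only [chkAll, Bool.and_eq_true] at h
    obtain ⟨q, hq⟩ := chk_of l (s + 1) h.2 i (by simpa using hi)
    exact ⟨q, by rw [show s + (i + 1) = s + 1 + i by ring]; exact hq⟩

theorem t_TAB (r : ℕ) (hr : r < 900) : ∃ b1 b2 b3 b4 c1 c2 c3 c4 ξ ρ : ℕ, Dat r b1 b2 b3 b4 c1 c2 c3 c4 ξ ρ := by
  obtain ⟨p, hp⟩ := chk_of tab 0 tab_ok r (by rw [tab_len]; exact hr)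
  rw [zero_add] at hp
  generalize cst p.1 = t at hp
  match t, hp with
  | [b1, b2, b3, b4, c1, c2, c3, c4], hp =>
    simp only [chk, Bool.and_eq_true, Bool.or_eq_true, decide_eq_true_eq, beq_iff_eq, bne_iff_ne, List.all_eq_true] at hp
    obtain ⟨⟨⟨⟨⟨⟨⟨⟨⟨⟨⟨⟨⟨h1, h2⟩, h3⟩, h4⟩, h5⟩, h6⟩, h7⟩, h8⟩, h9⟩, h10⟩, h11⟩, h12⟩, h13⟩, h14⟩ := hp
    exact ⟨b1, b2, b3, b4, c1, c2, c3, c4, p.2, rho r b1 b2 c1 c2 p.2, h1, h2, h3, h4, h5, h6, h7, h8, h9,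
      Nat.mod_lt _ (by norm_num), h10, h11, h12, h13, h14⟩

end Pool.Agent.Helper22E
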