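import Pool.Agent.Helper22E.Stm
import Pool.Agent.Helper22E.TAB

/-!
# The arithmetic part: the sets
-/

set_option autoImplicit false

namespace Pool.Agent.Helper22E

open Finset

/-- the residue condition -/
def Cond (n : ℕ) : Prop := n % 8 = 3 ∧ (n % 9 = 3 ∨ n % 9 = 6) ∧ n % 5 = 0 ∧ n % 25 ≠ 0

/-- a choice of the three odd squares -/
def IsY (Yf : ℕ → Finset ℕ) : Prop := ∀ n, Cond n → (Yf n).card = 3 ∧ ∑ y ∈ Yf n, y ^ 2 = n ∧
  ∀ y ∈ Yf n, y % 2 = 1 ∧ y % 3 ≠ 0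

lemma exY (h : S_THREE) : ∃ Yf : ℕ → Finset ℕ, IsY Yf := by
  classical
  have : ∀ n, ∃ Y : Finset ℕ, Cond n → Y.card = 3 ∧ ∑ y ∈ Y, y ^ 2 = n ∧
      ∀ y ∈ Y, y % 2 = 1 ∧ y % 3 ≠ 0 := by
    intro n
    by_cases hn : Cond n
    · obtain ⟨Y, hY⟩ := h n hn.1 hn.2.1 hn.2.2.1 hn.2.2.2
      exact ⟨Y, fun _ => hY⟩
    · exact ⟨∅, fun h => absurd h hn⟩
  choose Yf hYf using this
  exact ⟨Yf, hYf⟩

/-- the unknown part -/
def NN (s : ℕ) (E : Finset ℕ) (x : ℕ) : ℕ := s - x ^ 2 - ∑ a ∈ E, a ^ 2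

/-- the set with the explicit part `E`, the large element `x` and three unknown odd elements -/
def SS (Yf : ℕ → Finset ℕ) (s : ℕ) (E : Finset ℕ) (x : ℕ) : Finset ℕ :=
  insert x (E ∪ Yf (NN s E x))

/-- the hypotheses on `E` and `x` -/
structure Adm (s : ℕ) (E : Finset ℕ) (x : ℕ) : Prop where
  card : E.card = 4
  pos : ∀ a ∈ E, 0 < a ∧ (a % 2 = 0 ∨ a % 3 = 0)
  le : x ^ 2 + ∑ a ∈ E, a ^ 2 ≤ s
  cond : Cond (NN s E x)
  dom : ∀ T : ℕ, T ^ 2 ≤ 3 * NN s E x → (∑ a ∈ E, a) + T < x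

lemma cauchy (S : Finset ℕ) : (∑ a ∈ S, a) ^ 2 ≤ S.card * ∑ a ∈ S, a ^ 2 := by
  have h := sq_sum_le_card_mul_sum_sq (s := S) (f := fun a : ℕ => (a : ℤ))
  have h2 : (((∑ a ∈ S, a) ^ 2 : ℕ) : ℤ) ≤ ((S.card * ∑ a ∈ S, a ^ 2 : ℕ) : ℤ) := by
    push_cast
    exact h
  exact Int.ofNat_le.1 h2

variable {Yf : ℕ → Finset ℕ} {s x : ℕ} {E : Finset ℕ}

lemma Adm.disj (hY : IsY Yf) (h : Adm s E x) : Disjoint E (Yf (NN s E x)) := by
  rw [Finset.disjoint_left]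
  intro a ha hb
  have h1 := (h.pos a ha).2
  have h2 := (hY _ h.cond).2.2 a hb
  omega

lemma Adm.sumlt (hY : IsY Yf) (h : Adm s E x) : ∑ a ∈ E ∪ Yf (NN s E x), a < x := by
  rw [Finset.sum_union (h.disj hY)]
  refine h.dom _ ?_
  obtain ⟨h1, h2, h3⟩ := hY _ h.cond
  have h4 := cauchy (Yf (NN s E x))
  have h5 : (Yf (NN s E x)).card = 3 := h1
  have h6 : ∑ y ∈ Yf (NN s E x), y ^ 2 = NN s E x := h2
  rw [h5, h6] at h4
  exact h4

lemma Adm.notMem (hY : IsY Yf) (h : Adm s E x) : x ∉ E ∪ Yf (NN s E x) := by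
  intro hx
  have h1 := Finset.single_le_sum (f := fun a : ℕ => a) (fun a _ => Nat.zero_le a) hx
  have h2 := h.sumlt hY
  omega

lemma Adm.erase (hY : IsY Yf) (h : Adm s E x) : (SS Yf s E x).erase x = E ∪ Yf (NN s E x) :=
  Finset.erase_insert (h.notMem hY)

lemma Adm.lt (hY : IsY Yf) (h : Adm s E x) {a : ℕ} (ha : a ∈ SS Yf s E x) (hax : a ≠ x) : a < x := by
  have h1 : a ∈ E ∪ Yf (NN s E x) := by
    rw [← h.erase hY]
    exact Finset.mem_erase.2 ⟨hax, ha⟩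
  have h2 := Finset.single_le_sum (f := fun a : ℕ => a) (fun a _ => Nat.zero_le a) h1
  have h3 := h.sumlt hY
  omega

lemma Adm.mem {a : ℕ} (h : a ∈ SS Yf s E x) : a = x ∨ a ∈ E ∨ a ∈ Yf (NN s E x) := by
  unfold SS at h
  rw [Finset.mem_insert, Finset.mem_union] at h
  exact h

lemma Adm.sumsq (hY : IsY Yf) (h : Adm s E x) (f : ℕ → ℤ) :
    ∑ a ∈ SS Yf s E x, f a = ∑ a ∈ E, f a + (f x + ∑ a ∈ Yf (NN s E x), f a) := by
  unfold SS
  rw [Finset.sum_insert (h.notMem hY), Finset.sum_union (h.disj hY)]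
  ring

lemma Adm.sumE (hY : IsY Yf) (h : Adm s E x) : ∑ a ∈ SS Yf s E x, a ^ 2 = s := by
  have h1 := h.sumsq hY (fun a => (a : ℤ) ^ 2)
  have h2 : ∑ y ∈ Yf (NN s E x), y ^ 2 = NN s E x := (hY _ h.cond).2.1
  have h3 := h.le
  have h4 : ((∑ y ∈ Yf (NN s E x), y ^ 2 : ℕ) : ℤ) = NN s E x := by exact_mod_cast h2
  have h5 : (NN s E x : ℤ) = s - x ^ 2 - ∑ a ∈ E, (a : ℤ) ^ 2 := by
    have : NN s E x + (x ^ 2 + ∑ a ∈ E, a ^ 2) = s := by
      unfold NN; omega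
    have h6 : ((NN s E x + (x ^ 2 + ∑ a ∈ E, a ^ 2) : ℕ) : ℤ) = s := by exact_mod_cast this
    push_cast at h6
    linarith
  push_cast at h4
  have h7 : ∑ a ∈ SS Yf s E x, (a : ℤ) ^ 2 = s := by
    rw [h1, h4, h5]; ring
  exact_mod_cast h7

lemma Adm.good (hY : IsY Yf) {m : ℕ} (h : Adm (2 * m) E x) : Good m (SS Yf (2 * m) E x) := by
  refine ⟨?_, ?_, h.sumE hY, x, Finset.mem_insert_self _ _, ?_⟩
  · unfold SS
    rw [Finset.card_insert_of_notMem (h.notMem hY), Finset.card_union_of_disjoint (h.disj hY), h.card]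
    have : (Yf (NN (2 * m) E x)).card = 3 := (hY _ h.cond).1
    omega
  · intro h0
    rcases Adm.mem h0 with h1 | h1 | h1
    · have := h.sumlt hY
      omega
    · exact absurd (h.pos 0 h1).1 (lt_irrefl 0)
    · have := ((hY _ h.cond).2.2 0 h1).1
      omega
  · rw [h.erase hY]
    exact h.sumlt hY

lemma Adm.neg (hN : S_NEG) (hY : IsY Yf) (h : Adm s E x) (h2 : 1999 * s ≤ 2000 * x ^ 2) :
    H (SS Yf s E x) ≤ 0 := by
  have hx : x ∈ SS Yf s E x := Finset.mem_insert_self _ _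
  refine hN _ x hx ?_
  have h3 := h.sumE hY
  have h4 := Finset.add_sum_erase _ (fun a => a ^ 2) hx
  rw [h3] at h4 ⊢
  omega

lemma Adm.bd (hB : S_BD) (hY : IsY Yf) (h : Adm s E x) : |H (SS Yf s E x)| ≤ 2277 * (s : ℤ) ^ 4 := by
  have h1 := hB (SS Yf s E x)
  have h2 : ps 2 (SS Yf s E x) = s := by
    unfold ps
    have := h.sumE hY
    exact_mod_cast this
  rw [h2] at h1
  exact h1

/-- powers of 1801 -/
lemma pw {κ κ' i j : ℕ} (h : κ * 1801 ^ i = κ' * 1801 ^ j) (h1 : 0 < κ) (h2 : κ < 1801) (h3 : 0 < κ')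
    (h4 : κ' < 1801) : κ = κ' ∧ i = j := by
  rcases lt_trichotomy i j with hij | hij | hij
  · exfalso
    obtain ⟨d, rfl⟩ := Nat.exists_eq_add_of_lt hij
    rw [show i + d + 1 = i + (d + 1) by ring, pow_add, ← mul_assoc, mul_right_comm] at h
    have h5 := Nat.eq_of_mul_eq_mul_right (by positivity) h
    rw [pow_succ] at h5
    have : 1801 ≤ κ' * (1801 ^ d * 1801) := by
      have : 1 ≤ κ' * 1801 ^ d := Nat.mul_pos h3 (by positivity)
      nlinarith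
    omega
  · subst hij
    exact ⟨Nat.eq_of_mul_eq_mul_right (by positivity) h, rfl⟩
  · exfalso
    obtain ⟨d, rfl⟩ := Nat.exists_eq_add_of_lt hij
    rw [show j + d + 1 = j + (d + 1) by ring, pow_add, ← mul_assoc, mul_right_comm] at h
    have h5 := Nat.eq_of_mul_eq_mul_right (by positivity) h
    rw [pow_succ] at h5
    have : 1801 ≤ κ * (1801 ^ d * 1801) := by
      have : 1 ≤ κ * 1801 ^ d := Nat.mul_pos h1 (by positivity)
      nlinarith
    omega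

/-- many squares of a residue class in an interval -/
lemma cnt (lo hi ξ N σ : ℕ) (hξ : ξ < 1800) (h1 : Nat.sqrt lo ≤ σ)
    (h2 : lo + (1800 * N + 1801) * (2 * σ + (1800 * N + 1801)) < hi) :
    N ≤ ((range (hi + 1)).filter (fun x => x % 1800 = ξ ∧ lo ≤ x ^ 2 ∧ x ^ 2 < hi)).card := by
  set q := Nat.sqrt lo + 1 with hq
  set x0 := q + (ξ + 1800 - q % 1800) % 1800 with hx0
  have e1 : x0 % 1800 = ξ := by omega
  have e2 : x0 ≤ q + 1799 := by omega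
  have e3 : q ≤ x0 := by omega
  have e4 : lo < q ^ 2 := Nat.lt_succ_sqrt' lo
  have e5 : (Nat.sqrt lo) ^ 2 ≤ lo := Nat.sqrt_le' lo
  have hinj : Set.InjOn (fun k => x0 + 1800 * k) (range N : Set ℕ) := by
    intro a _ b _ hab
    simp only at hab
    omega
  rw [← Finset.card_range N, ← Finset.card_image_of_injOn hinj]
  refine Finset.card_le_card fun y hy => ?_
  rw [Finset.mem_image] at hy
  obtain ⟨k, hk, rfl⟩ := hy
  rw [Finset.mem_range] at hk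
  have f1 : (x0 + 1800 * k) % 1800 = ξ := by omega
  have f2 : lo ≤ (x0 + 1800 * k) ^ 2 := by nlinarith
  have f3 : (x0 + 1800 * k) ^ 2 < hi := by
    have g1 : x0 + 1800 * k ≤ Nat.sqrt lo + (1800 * N + 1801) := by omega
    have g2 : (x0 + 1800 * k) ^ 2 ≤ (Nat.sqrt lo + (1800 * N + 1801)) ^ 2 := Nat.pow_le_pow_left g1 2
    have g3 : (Nat.sqrt lo + (1800 * N + 1801)) ^ 2 ≤
        lo + (1800 * N + 1801) * (2 * σ + (1800 * N + 1801)) := by
      nlinarith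
    omega
  rw [Finset.mem_filter, Finset.mem_range]
  refine ⟨?_, f1, f2, f3⟩
  have : x0 + 1800 * k ≤ (x0 + 1800 * k) ^ 2 := by nlinarith [Nat.zero_le (x0 + 1800 * k)]
  omega

end Pool.Agent.Helper22E
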