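import Pool.Agent.Helper22E.NumA

/-!
# The arithmetic part: the explicit parts
-/

set_option autoImplicit false

namespace Pool.Agent.Helper22E

open Finset

/-- four constants -/
structure Q4 (β1 β2 γ1 γ2 : ℕ) : Prop where
  n1 : β1 ≠ β2
  n2 : γ1 ≠ γ2
  n3 : β1 ≠ γ1
  n4 : β1 ≠ γ2
  n5 : β2 ≠ γ1
  n6 : β2 ≠ γ2
  p1 : 0 < β1 ∧ β1 < 1801
  p2 : 0 < β2 ∧ β2 < 1801
  p3 : 0 < γ1 ∧ γ1 < 1801
  p4 : 0 < γ2 ∧ γ2 < 1801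
  e1 : β1 % 2 = 0
  e2 : β2 % 2 = 0
  t1 : γ1 % 3 = 0
  t2 : γ2 % 3 = 0

/-- the explicit part -/
def E4 (β1 β2 γ1 γ2 i j : ℕ) : Finset ℕ := {β1 * 1801 ^ i, β2 * 1801 ^ i, γ1 * 1801 ^ j, γ2 * 1801 ^ j}

lemma E4_sum {β1 β2 γ1 γ2 : ℕ} (h : Q4 β1 β2 γ1 γ2) (i j : ℕ) {R : Type*} [AddCommMonoid R] (f : ℕ → R) :
    ∑ a ∈ E4 β1 β2 γ1 γ2 i j, f a = f (β1 * 1801 ^ i) + (f (β2 * 1801 ^ i) + (f (γ1 * 1801 ^ j) +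
      f (γ2 * 1801 ^ j))) := by
  unfold E4
  rw [Finset.sum_insert, Finset.sum_insert, Finset.sum_insert, Finset.sum_singleton]
  · rw [Finset.mem_singleton]
    exact fun h1 => h.n2 (pw h1 h.p3.1 h.p3.2 h.p4.1 h.p4.2).1
  · rw [Finset.mem_insert, Finset.mem_singleton]
    rintro (h1 | h1)
    · exact h.n5 (pw h1 h.p2.1 h.p2.2 h.p3.1 h.p3.2).1
    · exact h.n6 (pw h1 h.p2.1 h.p2.2 h.p4.1 h.p4.2).1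
  · rw [Finset.mem_insert, Finset.mem_insert, Finset.mem_singleton]
    rintro (h1 | h1 | h1)
    · exact h.n1 (pw h1 h.p1.1 h.p1.2 h.p2.1 h.p2.2).1
    · exact h.n3 (pw h1 h.p1.1 h.p1.2 h.p3.1 h.p3.2).1
    · exact h.n4 (pw h1 h.p1.1 h.p1.2 h.p4.1 h.p4.2).1

lemma E4_card {β1 β2 γ1 γ2 : ℕ} (h : Q4 β1 β2 γ1 γ2) (i j : ℕ) : (E4 β1 β2 γ1 γ2 i j).card = 4 := by
  rw [Finset.card_eq_sum_ones, E4_sum h]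
  rfl

lemma E4_mem {β1 β2 γ1 γ2 i j a : ℕ} (ha : a ∈ E4 β1 β2 γ1 γ2 i j) :
    a = β1 * 1801 ^ i ∨ a = β2 * 1801 ^ i ∨ a = γ1 * 1801 ^ j ∨ a = γ2 * 1801 ^ j := by
  unfold E4 at ha
  simpa using ha

lemma modg (i : ℕ) : (1801 ^ i) ^ 2 ≡ 1 [MOD 1800] := by
  have h : 1801 ≡ 1 [MOD 1800] := by decide
  have := (h.pow i).pow 2
  simpa using this

lemma E4_sq_mod {β1 β2 γ1 γ2 : ℕ} (h : Q4 β1 β2 γ1 γ2) (i j : ℕ) :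
    (∑ a ∈ E4 β1 β2 γ1 γ2 i j, a ^ 2) % 1800 = (β1 ^ 2 + β2 ^ 2 + γ1 ^ 2 + γ2 ^ 2) % 1800 := by
  rw [E4_sum h]
  have h1 : ∀ (a k : ℕ), (a * 1801 ^ k) ^ 2 ≡ a ^ 2 [MOD 1800] := by
    intro a k
    rw [mul_pow]
    have := (Nat.ModEq.refl (a ^ 2)).mul (modg k)
    simpa using this
  have h2 := (h1 β1 i).add ((h1 β2 i).add ((h1 γ1 j).add (h1 γ2 j)))
  unfold Nat.ModEq at h2
  rw [h2]
  congr 1
  ring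

lemma E4_sq_le {β1 β2 γ1 γ2 : ℕ} (h : Q4 β1 β2 γ1 γ2) {i j I s : ℕ} (hi : i ≤ I) (hj : j ≤ I)
    (hI : 32000 * 1801 ^ 2 * (1801 ^ 2) ^ I ≤ s) : 8000 * ∑ a ∈ E4 β1 β2 γ1 γ2 i j, a ^ 2 ≤ s := by
  rw [E4_sum h]
  have h1 : ∀ (a k : ℕ), a < 1801 → k ≤ I → (a * 1801 ^ k) ^ 2 ≤ 1801 ^ 2 * (1801 ^ 2) ^ I := by
    intro a k ha hk
    rw [mul_pow]
    refine Nat.mul_le_mul (Nat.pow_le_pow_left ha.le 2) ?_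
    rw [← pow_mul, ← pow_mul, mul_comm]
    exact Nat.pow_le_pow_right (by norm_num) (Nat.mul_le_mul_left 2 hk)
  have hI' : 32000 * (1801 ^ 2 * (1801 ^ 2) ^ I) ≤ s := by
    rw [← mul_assoc]
    exact hI
  clear hI
  have e1 := h1 β1 i h.p1.2 hi
  have e2 := h1 β2 i h.p2.2 hi
  have e3 := h1 γ1 j h.p3.2 hj
  have e4 := h1 γ2 j h.p4.2 hj
  clear h1
  generalize 1801 ^ 2 * (1801 ^ 2) ^ I = Z at *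
  omega

/-- the sets near the direction of a coordinate vector are admissible -/
lemma admS {β1 β2 γ1 γ2 : ℕ} (h : Q4 β1 β2 γ1 γ2) {i j I s x ξ ρ : ℕ} (hi : i ≤ I) (hj : j ≤ I)
    (hI : 32000 * 1801 ^ 2 * (1801 ^ 2) ^ I ≤ s) (hx1 : 1999 * s ≤ 2000 * x ^ 2)
    (hx2 : 8000 * x ^ 2 < 7999 * s) (hxξ : x % 1800 = ξ) (hρ : ρ < 1800)
    (hs : (ρ + β1 ^ 2 + β2 ^ 2 + γ1 ^ 2 + γ2 ^ 2 + ξ ^ 2) % 1800 = s % 1800)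
    (r8 : ρ % 8 = 3) (r9 : ρ % 9 = 3 ∨ ρ % 9 = 6) (r5 : ρ % 5 = 0) (r25 : ρ % 25 ≠ 0) :
    Adm s (E4 β1 β2 γ1 γ2 i j) x := by
  have hE := E4_sq_le h hi hj hI
  have hM := E4_sq_mod h i j
  have hX : x ^ 2 % 1800 = ξ ^ 2 % 1800 := by
    rw [Nat.pow_mod, hxξ]
  have hN : NN s (E4 β1 β2 γ1 γ2 i j) x + x ^ 2 + ∑ a ∈ E4 β1 β2 γ1 γ2 i j, a ^ 2 = s := by
    unfold NN; omega
  have hNρ : NN s (E4 β1 β2 γ1 γ2 i j) x % 1800 = ρ := by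
    omega
  refine ⟨E4_card h i j, ?_, by omega, ?_, ?_⟩
  · intro a ha
    rcases E4_mem ha with rfl | rfl | rfl | rfl
    · exact ⟨Nat.mul_pos h.p1.1 (by positivity), Or.inl (by rw [Nat.mul_mod, h.e1]; simp)⟩
    · exact ⟨Nat.mul_pos h.p2.1 (by positivity), Or.inl (by rw [Nat.mul_mod, h.e2]; simp)⟩
    · exact ⟨Nat.mul_pos h.p3.1 (by positivity), Or.inr (by rw [Nat.mul_mod, h.t1]; simp)⟩
    · exact ⟨Nat.mul_pos h.p4.1 (by positivity), Or.inr (by rw [Nat.mul_mod, h.t2]; simp)⟩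
  · clear hI hE hM hX hN hs hx1 hx2
    generalize NN s (E4 β1 β2 γ1 γ2 i j) x = n at *
    unfold Cond
    omega
  · intro T hT
    have hc := cauchy (E4 β1 β2 γ1 γ2 i j)
    rw [E4_card h] at hc
    clear hI hM hX hs
    generalize ∑ a ∈ E4 β1 β2 γ1 γ2 i j, a = U at *
    generalize ∑ a ∈ E4 β1 β2 γ1 γ2 i j, a ^ 2 = V at *
    generalize NN s (E4 β1 β2 γ1 γ2 i j) x = n at *
    by_contra hcon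
    have h1 : x ≤ U + T := by omega
    have h2 : x ^ 2 ≤ (U + T) ^ 2 := Nat.pow_le_pow_left h1 2
    have h3 : (U + T) ^ 2 ≤ 2 * U ^ 2 + 2 * T ^ 2 := by
      have : ((U : ℤ) + T) ^ 2 ≤ 2 * U ^ 2 + 2 * T ^ 2 := by nlinarith [sq_nonneg ((U : ℤ) - T)]
      exact_mod_cast this
    generalize x ^ 2 = X at *
    generalize U ^ 2 = U2 at *
    generalize T ^ 2 = T2 at *
    omega

/-- the identity of the double swap -/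
lemma swap (Yf : ℕ → Finset ℕ) (hY : IsY Yf) {b1 b2 b3 b4 c1 c2 c3 c4 s i j x : ℕ}
    (q11 : Q4 b1 b2 c1 c2) (q22 : Q4 b3 b4 c3 c4) (q12 : Q4 b1 b2 c3 c4) (q21 : Q4 b3 b4 c1 c2)
    (hB : b1 ^ 2 + b2 ^ 2 = b3 ^ 2 + b4 ^ 2) (hC : c1 ^ 2 + c2 ^ 2 = c3 ^ 2 + c4 ^ 2)
    (a11 : Adm s (E4 b1 b2 c1 c2 i j) x) (a22 : Adm s (E4 b3 b4 c3 c4 i j) x)
    (a12 : Adm s (E4 b1 b2 c3 c4 i j) x) (a21 : Adm s (E4 b3 b4 c1 c2 i j) x) :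
    H (SS Yf s (E4 b1 b2 c1 c2 i j) x) + H (SS Yf s (E4 b3 b4 c3 c4 i j) x) =
    H (SS Yf s (E4 b1 b2 c3 c4 i j) x) + H (SS Yf s (E4 b3 b4 c1 c2 i j) x) +
      840 * ((b1 : ℤ) ^ 4 + b2 ^ 4 - b3 ^ 4 - b4 ^ 4) * ((c1 : ℤ) ^ 4 + c2 ^ 4 - c3 ^ 4 - c4 ^ 4) *
        (1801 ^ i * 1801 ^ j) ^ 4 := by
  have hBi : (b1 : ℤ) ^ 2 + b2 ^ 2 = b3 ^ 2 + b4 ^ 2 := by exact_mod_cast hB
  have hCi : (c1 : ℤ) ^ 2 + c2 ^ 2 = c3 ^ 2 + c4 ^ 2 := by exact_mod_cast hC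
  have hS : ∀ {β1 β2 γ1 γ2 : ℕ}, Q4 β1 β2 γ1 γ2 → ∑ a ∈ E4 β1 β2 γ1 γ2 i j, a ^ 2 =
      (β1 ^ 2 + β2 ^ 2) * (1801 ^ i) ^ 2 + (γ1 ^ 2 + γ2 ^ 2) * (1801 ^ j) ^ 2 := by
    intro β1 β2 γ1 γ2 h
    rw [E4_sum h]
    ring
  have n22 : NN s (E4 b3 b4 c3 c4 i j) x = NN s (E4 b1 b2 c1 c2 i j) x := by
    unfold NN
    rw [hS q22, hS q11, hB, hC]
  have n12 : NN s (E4 b1 b2 c3 c4 i j) x = NN s (E4 b1 b2 c1 c2 i j) x := by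
    unfold NN
    rw [hS q12, hS q11, hC]
  have n21 : NN s (E4 b3 b4 c1 c2 i j) x = NN s (E4 b1 b2 c1 c2 i j) x := by
    unfold NN
    rw [hS q21, hS q11, hB]
  set Y := Yf (NN s (E4 b1 b2 c1 c2 i j) x) with hYd
  have P : ∀ {β1 β2 γ1 γ2 : ℕ}, Q4 β1 β2 γ1 γ2 → Adm s (E4 β1 β2 γ1 γ2 i j) x →
      NN s (E4 β1 β2 γ1 γ2 i j) x = NN s (E4 b1 b2 c1 c2 i j) x → ∀ k,
      ps k (SS Yf s (E4 β1 β2 γ1 γ2 i j) x) = ((β1 : ℤ) ^ k + β2 ^ k) * (1801 ^ i) ^ k +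
        ((γ1 : ℤ) ^ k + γ2 ^ k) * (1801 ^ j) ^ k + (x ^ k + ps k Y) := by
    intro β1 β2 γ1 γ2 h ha hn k
    unfold ps
    rw [ha.sumsq hY (fun a => (a : ℤ) ^ k), hn, E4_sum h]
    push_cast
    ring
  unfold H
  rw [P q11 a11 rfl, P q11 a11 rfl, P q11 a11 rfl, P q11 a11 rfl, P q22 a22 n22, P q22 a22 n22, P q22 a22 n22,
    P q22 a22 n22, P q12 a12 n12, P q12 a12 n12, P q12 a12 n12, P q12 a12 n12,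
    P q21 a21 n21, P q21 a21 n21, P q21 a21 n21, P q21 a21 n21]
  rw [← hBi, ← hCi]
  ring

end Pool.Agent.Helper22E
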