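import Pool.Agent.Helper22E.NumB

/-!
# The arithmetic part: the sets near the direction of a root
-/

set_option autoImplicit false

namespace Pool.Agent.Helper22E

open Finset

/-- the explicit part -/
def E5 (β1 β2 γ1 w : ℕ) : Finset ℕ := {w, β1, β2, γ1}

lemma E5_sum {β1 β2 γ1 γ2 w : ℕ} (h : Q4 β1 β2 γ1 γ2) (hw : 1801 < w) {R : Type*} [AddCommMonoid R] (f : ℕ → R) :
    ∑ a ∈ E5 β1 β2 γ1 w, f a = f w + (f β1 + (f β2 + f γ1)) := by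
  have h1 := h.p1
  have h2 := h.p2
  have h3 := h.p3
  have n1 := h.n1
  have n3 := h.n3
  have n5 := h.n5
  unfold E5
  rw [Finset.sum_insert, Finset.sum_insert, Finset.sum_insert, Finset.sum_singleton]
  · rw [Finset.mem_singleton]
    exact n5
  · rw [Finset.mem_insert, Finset.mem_singleton]
    rintro (h4 | h4)
    · exact n1 h4
    · exact n3 h4
  · rw [Finset.mem_insert, Finset.mem_insert, Finset.mem_singleton]
    rintro (h4 | h4 | h4) <;> omega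

lemma E5_card {β1 β2 γ1 γ2 w : ℕ} (h : Q4 β1 β2 γ1 γ2) (hw : 1801 < w) : (E5 β1 β2 γ1 w).card = 4 := by
  rw [Finset.card_eq_sum_ones, E5_sum h hw]
  rfl

lemma cond_of {n ρ : ℕ} (h : n % 1800 = ρ) (r8 : ρ % 8 = 3) (r9 : ρ % 9 = 3 ∨ ρ % 9 = 6)
    (r5 : ρ % 5 = 0) (r25 : ρ % 25 ≠ 0) : Cond n := by
  unfold Cond
  omega

lemma admP {β1 β2 γ1 γ2 : ℕ} (h : Q4 β1 β2 γ1 γ2) {s x w ξ ρ : ℕ} (hs0 : 10 ^ 12 ≤ s)
    (hw1 : 39 * s ≤ 100 * w ^ 2) (hw2 : 100 * w ^ 2 ≤ 41 * s) (hwm : w % 1800 = γ2 % 1800)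
    (hx1 : s - w ^ 2 - s / 20000 ≤ x ^ 2) (hx2 : x ^ 2 < s - w ^ 2 - s / 40000)
    (hxξ : x % 1800 = ξ) (hρ : ρ < 1800)
    (hs : (ρ + β1 ^ 2 + β2 ^ 2 + γ1 ^ 2 + γ2 ^ 2 + ξ ^ 2) % 1800 = s % 1800)
    (r8 : ρ % 8 = 3) (r9 : ρ % 9 = 3 ∨ ρ % 9 = 6) (r5 : ρ % 5 = 0) (r25 : ρ % 25 ≠ 0) :
    1801 < w ∧ w < x ∧ Adm s (E5 β1 β2 γ1 w) x := by
  have hw : 1801 < w := by
    by_contra hcon
    have : w ^ 2 ≤ 1801 ^ 2 := Nat.pow_le_pow_left (by omega) 2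
    omega
  have q1 : β1 ^ 2 ≤ 1801 ^ 2 := Nat.pow_le_pow_left h.p1.2.le 2
  have q2 : β2 ^ 2 ≤ 1801 ^ 2 := Nat.pow_le_pow_left h.p2.2.le 2
  have q3 : γ1 ^ 2 ≤ 1801 ^ 2 := Nat.pow_le_pow_left h.p3.2.le 2
  have q1' := h.p1
  have q2' := h.p2
  have q3' := h.p3
  have hX : x ^ 2 % 1800 = ξ ^ 2 % 1800 := by
    rw [Nat.pow_mod, hxξ]
  have hW : w ^ 2 % 1800 = γ2 ^ 2 % 1800 := by
    rw [Nat.pow_mod, hwm, ← Nat.pow_mod]
  have hV : ∑ a ∈ E5 β1 β2 γ1 w, a ^ 2 = w ^ 2 + (β1 ^ 2 + (β2 ^ 2 + γ1 ^ 2)) := E5_sum h hw _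
  have hU : ∑ a ∈ E5 β1 β2 γ1 w, a = w + (β1 + (β2 + γ1)) := E5_sum h hw _
  have hle : x ^ 2 + ∑ a ∈ E5 β1 β2 γ1 w, a ^ 2 ≤ s := by
    rw [hV]
    omega
  have hN : NN s (E5 β1 β2 γ1 w) x + x ^ 2 + ∑ a ∈ E5 β1 β2 γ1 w, a ^ 2 = s := by
    unfold NN; omega
  rw [hV] at hN
  have hNρ : NN s (E5 β1 β2 γ1 w) x % 1800 = ρ := by
    omega
  have hdom : ∀ T : ℕ, T ^ 2 ≤ 3 * NN s (E5 β1 β2 γ1 w) x → (∑ a ∈ E5 β1 β2 γ1 w, a) + T < x := by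
    intro T hT
    rw [hU]
    clear hs hX hW hNρ hle hV hU r8 r9 r5 r25
    generalize NN s (E5 β1 β2 γ1 w) x = n at *
    by_contra hcon
    have h1 : x ≤ w + (5403 + T) := by omega
    have h2 : x ^ 2 ≤ (w + (5403 + T)) ^ 2 := Nat.pow_le_pow_left h1 2
    have h3 : 10 * (w + (5403 + T)) ^ 2 ≤ 11 * w ^ 2 + 110 * (5403 + T) ^ 2 := by
      have : 10 * ((w : ℤ) + (5403 + T)) ^ 2 ≤ 11 * w ^ 2 + 110 * (5403 + T) ^ 2 := by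
        nlinarith [sq_nonneg ((w : ℤ) - 10 * (5403 + T))]
      exact_mod_cast this
    have h4 : (5403 + T) ^ 2 ≤ 2 * 5403 ^ 2 + 2 * T ^ 2 := by
      have : ((5403 : ℤ) + T) ^ 2 ≤ 2 * 5403 ^ 2 + 2 * T ^ 2 := by nlinarith [sq_nonneg ((5403 : ℤ) - T)]
      exact_mod_cast this
    generalize (w + (5403 + T)) ^ 2 = A at *
    generalize (5403 + T) ^ 2 = B at *
    generalize x ^ 2 = X at *
    generalize w ^ 2 = W at *
    generalize T ^ 2 = T2 at *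
    omega
  have hwx : w < x := by
    have h0 := hdom 0 (by rw [zero_pow two_ne_zero]; exact Nat.zero_le _)
    rw [hU] at h0
    clear hs hX hW hNρ hle hV hU r8 r9 r5 r25 hx1 hx2 hw1 hw2 hdom hN hs0 q1 q2 q3
    omega
  refine ⟨hw, hwx, E5_card h hw, ?_, hle, ?_, hdom⟩
  · intro a ha
    unfold E5 at ha
    simp only [Finset.mem_insert, Finset.mem_singleton] at ha
    have e1 := h.e1
    have e2 := h.e2
    have t1 := h.t1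
    have t2 := h.t2
    clear hs hX hW hNρ hle hV hU r8 r9 r5 r25 hx1 hx2 hw1 hw2 hdom hN hs0 q1 q2 q3 hwx
    rcases ha with rfl | rfl | rfl | rfl
    · exact ⟨by omega, Or.inr (by omega)⟩
    · exact ⟨by omega, Or.inl (by omega)⟩
    · exact ⟨by omega, Or.inl (by omega)⟩
    · exact ⟨by omega, Or.inr (by omega)⟩
  · exact cond_of hNρ r8 r9 r5 r25

lemma posP (hP : S_POS) {Yf : ℕ → Finset ℕ} (hY : IsY Yf) {β1 β2 γ1 w s x : ℕ} (hs0 : 10 ^ 12 ≤ s)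
    (hw1 : 39 * s ≤ 100 * w ^ 2) (hw2 : 100 * w ^ 2 ≤ 41 * s)
    (hx1 : s - w ^ 2 - s / 20000 ≤ x ^ 2) (hwx : w < x) (ha : Adm s (E5 β1 β2 γ1 w) x) :
    (s : ℤ) ^ 4 ≤ H (SS Yf s (E5 β1 β2 γ1 w) x) := by
  have hx : x ∈ SS Yf s (E5 β1 β2 γ1 w) x := Finset.mem_insert_self _ _
  have hw : w ∈ SS Yf s (E5 β1 β2 γ1 w) x := by
    refine Finset.mem_insert_of_mem (Finset.mem_union_left _ ?_)
    unfold E5
    exact Finset.mem_insert_self _ _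
  have hsum := ha.sumE hY
  have hsum' := hsum
  have h1 := hP (SS Yf s (E5 β1 β2 γ1 w) x) x w hx hw (by omega)
  rw [hsum] at h1
  have hw' : w ∈ (SS Yf s (E5 β1 β2 γ1 w) x).erase x := Finset.mem_erase.2 ⟨by omega, hw⟩
  have h2 := Finset.add_sum_erase _ (fun a => a ^ 2) hx
  have h3 := Finset.add_sum_erase _ (fun a => a ^ 2) hw'
  have h4 : ps 2 (SS Yf s (E5 β1 β2 γ1 w) x) = s := by
    unfold ps
    exact_mod_cast hsum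
  rw [h4] at h1
  refine h1 ?_ hw1 hw2
  rw [hsum] at h2
  clear h1 h4 hP hsum
  generalize ∑ a ∈ ((SS Yf s (E5 β1 β2 γ1 w) x).erase x).erase w, a ^ 2 = A at *
  generalize ∑ a ∈ (SS Yf s (E5 β1 β2 γ1 w) x).erase x, a ^ 2 = B at *
  omega

end Pool.Agent.Helper22E
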