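import Pool.Agent.Helper22E.NumC

/-!
# The arithmetic part: the family of sets
-/

set_option autoImplicit false
set_option linter.unreachableTactic false
set_option linter.unusedTactic false
set_option linter.unusedSimpArgs false

namespace Pool.Agent.Helper22E

open Finset

/-- the explicit part, indexed -/
def EE (b1 b2 b3 b4 c1 c2 c3 c4 l : ℕ) (β γ : Bool) : Finset ℕ :=
  E4 (if β then b1 else b3) (if β then b2 else b4) (if γ then c1 else c3) (if γ then c2 else c4)
    ((l + 1) / 2) (l / 2)

lemma inj1 {Yf : ℕ → Finset ℕ} (hY : IsY Yf) {s x x' : ℕ} {E E' : Finset ℕ} (a : Adm s E x) (a' : Adm s E' x')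
    (h : SS Yf s E x = SS Yf s E' x') : x = x' ∧ ∀ e ∈ E, e ∈ E' := by
  have hx : x ∈ SS Yf s E x := Finset.mem_insert_self _ _
  have hx' : x' ∈ SS Yf s E' x' := Finset.mem_insert_self _ _
  have e1 : x = x' := by
    by_contra hne
    have h1 : x < x' := a'.lt hY (h ▸ hx) hne
    have h2 : x' < x := a.lt hY (h.symm ▸ hx') (Ne.symm hne)
    omega
  refine ⟨e1, fun e he => ?_⟩
  have h3 : e ∈ SS Yf s E x := Finset.mem_insert_of_mem (Finset.mem_union_left _ he)
  rw [h] at h3
  rcases Adm.mem h3 with h4 | h4 | h4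
  · exfalso
    apply a.notMem hY
    rw [e1, ← h4]
    exact Finset.mem_union_left _ he
  · exact h4
  · exfalso
    have h5 := (a.pos e he).2
    have h6 := (hY _ a'.cond).2.2 e h4
    omega

lemma inj2 {r b1 b2 b3 b4 c1 c2 c3 c4 ξ ρ : ℕ} (D : Dat r b1 b2 b3 b4 c1 c2 c3 c4 ξ ρ) {l l' : ℕ} {β β' γ γ' : Bool}
    (h : ∀ e ∈ EE b1 b2 b3 b4 c1 c2 c3 c4 l β γ, e ∈ EE b1 b2 b3 b4 c1 c2 c3 c4 l' β' γ') :
    l = l' ∧ β = β' ∧ γ = γ' := by
  have hn := D.nodup
  have hr := D.rng
  simp only [List.nodup_cons, List.mem_cons, not_or, List.not_mem_nil, not_false_iff, List.nodup_nil,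
    and_true, List.forall_mem_cons, forall_eq_or_imp] at hn hr
  obtain ⟨⟨n12, n13, n14, n15, n16, n17, n18⟩, ⟨n23, n24, n25, n26, n27, n28⟩, ⟨n34, n35, n36, n37, n38⟩,
    ⟨n45, n46, n47, n48⟩, ⟨n56, n57, n58⟩, ⟨n67, n68⟩, n78⟩ := hn
  obtain ⟨r1, r2, r3, r4, r5, r6, r7, r8, -⟩ := hr
  unfold EE at h
  have h1 := h ((if β then b1 else b3) * 1801 ^ ((l + 1) / 2)) (by unfold E4; simp)
  have h2 := h ((if γ then c1 else c3) * 1801 ^ (l / 2)) (by unfold E4; simp)
  have g1 := E4_mem h1
  have g2 := E4_mem h2
  clear h h1 h2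
  have P1 : ∀ β : Bool, 0 < (if β then b1 else b3) ∧ (if β then b1 else b3) < 1801 := by
    intro β; cases β
    · exact r3
    · exact r1
  have P2 : ∀ β : Bool, 0 < (if β then b2 else b4) ∧ (if β then b2 else b4) < 1801 := by
    intro β; cases β
    · exact r4
    · exact r2
  have P3 : ∀ β : Bool, 0 < (if β then c1 else c3) ∧ (if β then c1 else c3) < 1801 := by
    intro β; cases β
    · exact r7
    · exact r5
  have P4 : ∀ β : Bool, 0 < (if β then c2 else c4) ∧ (if β then c2 else c4) < 1801 := by
    intro β; cases β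
    · exact r8
    · exact r6
  have k1 : β = β' ∧ (l + 1) / 2 = (l' + 1) / 2 := by
    rcases g1 with g | g | g | g
    · obtain ⟨u1, u2⟩ := pw g (P1 β).1 (P1 β).2 (P1 β').1 (P1 β').2
      clear g g2
      refine ⟨?_, u2⟩
      cases β <;> cases β' <;> simp only [if_true, if_false, Bool.false_eq_true] at u1 <;>
        (first | rfl | exact absurd u1 n12 | exact absurd u1.symm n12 | exact absurd u1 n13 | exact absurd u1.symm n13 | exact absurd u1 n14 | exact absurd u1.symm n14 | exact absurd u1 n15 | exact absurd u1.symm n15 | exact absurd u1 n16 | exact absurd u1.symm n16 | exact absurd u1 n17 | exact absurd u1.symm n17 | exact absurd u1 n18 | exact absurd u1.symm n18 | exact absurd u1 n23 | exact absurd u1.symm n23 | exact absurd u1 n24 | exact absurd u1.symm n24 | exact absurd u1 n25 | exact absurd u1.symm n25 | exact absurd u1 n26 | exact absurd u1.symm n26 | exact absurd u1 n27 | exact absurd u1.symm n27 | exact absurd u1 n28 | exact absurd u1.symm n28 | exact absurd u1 n34 | exact absurd u1.symm n34 | exact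 absurd u1 n35 | exact absurd u1.symm n35 | exact absurd u1 n36 | exact absurd u1.symm n36 | exact absurd u1 n37 | exact absurd u1.symm n37 | exact absurd u1 n38 | exact absurd u1.symm n38 | exact absurd u1 n45 | exact absurd u1.symm n45 | exact absurd u1 n46 | exact absurd u1.symm n46 | exact absurd u1 n47 | exact absurd u1.symm n47 | exact absurd u1 n48 | exact absurd u1.symm n48 | exact absurd u1 n56 | exact absurd u1.symm n56 | exact absurd u1 n57 | exact absurd u1.symm n57 | exact absurd u1 n58 | exact absurd u1.symm n58 | exact absurd u1 n67 | exact absurd u1.symm n67 | exact absurd u1 n68 | exact absurd u1.symm n68 | exact absurd u1 n78 | exact absurd u1.symm n78)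
    · obtain ⟨u1, u2⟩ := pw g (P1 β).1 (P1 β).2 (P2 β').1 (P2 β').2
      clear g g2
      exfalso
      cases β <;> cases β' <;> simp only [if_true, if_false, Bool.false_eq_true] at u1 <;>
        (first | rfl | exact absurd u1 n12 | exact absurd u1.symm n12 | exact absurd u1 n13 | exact absurd u1.symm n13 | exact absurd u1 n14 | exact absurd u1.symm n14 | exact absurd u1 n15 | exact absurd u1.symm n15 | exact absurd u1 n16 | exact absurd u1.symm n16 | exact absurd u1 n17 | exact absurd u1.symm n17 | exact absurd u1 n18 | exact absurd u1.symm n18 | exact absurd u1 n23 | exact absurd u1.symm n23 | exact absurd u1 n24 | exact absurd u1.symm n24 | exact absurd u1 n25 | exact absurd u1.symm n25 | exact absurd u1 n26 | exact absurd u1.symm n26 | exact absurd u1 n27 | exact absurd u1.symm n27 | exact absurd u1 n28 | exact absurd u1.symm n28 | exact absurd u1 n34 | exact absurd u1.symm n34 | exact absurd u1 n35 | exact absurd u1.symm n35 | exact absurd u1 n36 | exact absurd u1.symm n36 | exact absurd u1 n37 | exact absurd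 u1.symm n37 | exact absurd u1 n38 | exact absurd u1.symm n38 | exact absurd u1 n45 | exact absurd u1.symm n45 | exact absurd u1 n46 | exact absurd u1.symm n46 | exact absurd u1 n47 | exact absurd u1.symm n47 | exact absurd u1 n48 | exact absurd u1.symm n48 | exact absurd u1 n56 | exact absurd u1.symm n56 | exact absurd u1 n57 | exact absurd u1.symm n57 | exact absurd u1 n58 | exact absurd u1.symm n58 | exact absurd u1 n67 | exact absurd u1.symm n67 | exact absurd u1 n68 | exact absurd u1.symm n68 | exact absurd u1 n78 | exact absurd u1.symm n78)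
    · obtain ⟨u1, u2⟩ := pw g (P1 β).1 (P1 β).2 (P3 γ').1 (P3 γ').2
      clear g g2
      exfalso
      cases β <;> cases γ' <;> simp only [if_true, if_false, Bool.false_eq_true] at u1 <;>
        (first | rfl | exact absurd u1 n12 | exact absurd u1.symm n12 | exact absurd u1 n13 | exact absurd u1.symm n13 | exact absurd u1 n14 | exact absurd u1.symm n14 | exact absurd u1 n15 | exact absurd u1.symm n15 | exact absurd u1 n16 | exact absurd u1.symm n16 | exact absurd u1 n17 | exact absurd u1.symm n17 | exact absurd u1 n18 | exact absurd u1.symm n18 | exact absurd u1 n23 | exact absurd u1.symm n23 | exact absurd u1 n24 | exact absurd u1.symm n24 | exact absurd u1 n25 | exact absurd u1.symm n25 | exact absurd u1 n26 | exact absurd u1.symm n26 | exact absurd u1 n27 | exact absurd u1.symm n27 | exact absurd u1 n28 | exact absurd u1.symm n28 | exact absurd u1 n34 | exact absurd u1.symm n34 | exact absurd u1 n35 | exact absurd u1.symm n35 | exact absurd u1 n36 | exact absurd u1.symm n36 | exact absurd u1 n37 | exact absurd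 u1.symm n37 | exact absurd u1 n38 | exact absurd u1.symm n38 | exact absurd u1 n45 | exact absurd u1.symm n45 | exact absurd u1 n46 | exact absurd u1.symm n46 | exact absurd u1 n47 | exact absurd u1.symm n47 | exact absurd u1 n48 | exact absurd u1.symm n48 | exact absurd u1 n56 | exact absurd u1.symm n56 | exact absurd u1 n57 | exact absurd u1.symm n57 | exact absurd u1 n58 | exact absurd u1.symm n58 | exact absurd u1 n67 | exact absurd u1.symm n67 | exact absurd u1 n68 | exact absurd u1.symm n68 | exact absurd u1 n78 | exact absurd u1.symm n78)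
    · obtain ⟨u1, u2⟩ := pw g (P1 β).1 (P1 β).2 (P4 γ').1 (P4 γ').2
      clear g g2
      exfalso
      cases β <;> cases γ' <;> simp only [if_true, if_false, Bool.false_eq_true] at u1 <;>
        (first | rfl | exact absurd u1 n12 | exact absurd u1.symm n12 | exact absurd u1 n13 | exact absurd u1.symm n13 | exact absurd u1 n14 | exact absurd u1.symm n14 | exact absurd u1 n15 | exact absurd u1.symm n15 | exact absurd u1 n16 | exact absurd u1.symm n16 | exact absurd u1 n17 | exact absurd u1.symm n17 | exact absurd u1 n18 | exact absurd u1.symm n18 | exact absurd u1 n23 | exact absurd u1.symm n23 | exact absurd u1 n24 | exact absurd u1.symm n24 | exact absurd u1 n25 | exact absurd u1.symm n25 | exact absurd u1 n26 | exact absurd u1.symm n26 | exact absurd u1 n27 | exact absurd u1.symm n27 | exact absurd u1 n28 | exact absurd u1.symm n28 | exact absurd u1 n34 | exact absurd u1.symm n34 | exact absurd u1 n35 | exact absurd u1.symm n35 | exact absurd u1 n36 | exact absurd u1.symm n36 | exact absurd u1 n37 | exact absurd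 u1.symm n37 | exact absurd u1 n38 | exact absurd u1.symm n38 | exact absurd u1 n45 | exact absurd u1.symm n45 | exact absurd u1 n46 | exact absurd u1.symm n46 | exact absurd u1 n47 | exact absurd u1.symm n47 | exact absurd u1 n48 | exact absurd u1.symm n48 | exact absurd u1 n56 | exact absurd u1.symm n56 | exact absurd u1 n57 | exact absurd u1.symm n57 | exact absurd u1 n58 | exact absurd u1.symm n58 | exact absurd u1 n67 | exact absurd u1.symm n67 | exact absurd u1 n68 | exact absurd u1.symm n68 | exact absurd u1 n78 | exact absurd u1.symm n78)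
  have k2 : γ = γ' ∧ l / 2 = l' / 2 := by
    rcases g2 with g | g | g | g
    · obtain ⟨u1, u2⟩ := pw g (P3 γ).1 (P3 γ).2 (P1 β').1 (P1 β').2
      clear g g1
      exfalso
      clear k1
      cases γ <;> cases β' <;> simp only [if_true, if_false, Bool.false_eq_true] at u1 <;>
        (first | rfl | exact absurd u1 n12 | exact absurd u1.symm n12 | exact absurd u1 n13 | exact absurd u1.symm n13 | exact absurd u1 n14 | exact absurd u1.symm n14 | exact absurd u1 n15 | exact absurd u1.symm n15 | exact absurd u1 n16 | exact absurd u1.symm n16 | exact absurd u1 n17 | exact absurd u1.symm n17 | exact absurd u1 n18 | exact absurd u1.symm n18 | exact absurd u1 n23 | exact absurd u1.symm n23 | exact absurd u1 n24 | exact absurd u1.symm n24 | exact absurd u1 n25 | exact absurd u1.symm n25 | exact absurd u1 n26 | exact absurd u1.symm n26 | exact absurd u1 n27 | exact absurd u1.symm n27 | exact absurd u1 n28 | exact absurd u1.symm n28 | exact absurd u1 n34 | exact absurd u1.symm n34 | exact absurd u1 n35 | exact absurd u1.symm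 n35 | exact absurd u1 n36 | exact absurd u1.symm n36 | exact absurd u1 n37 | exact absurd u1.symm n37 | exact absurd u1 n38 | exact absurd u1.symm n38 | exact absurd u1 n45 | exact absurd u1.symm n45 | exact absurd u1 n46 | exact absurd u1.symm n46 | exact absurd u1 n47 | exact absurd u1.symm n47 | exact absurd u1 n48 | exact absurd u1.symm n48 | exact absurd u1 n56 | exact absurd u1.symm n56 | exact absurd u1 n57 | exact absurd u1.symm n57 | exact absurd u1 n58 | exact absurd u1.symm n58 | exact absurd u1 n67 | exact absurd u1.symm n67 | exact absurd u1 n68 | exact absurd u1.symm n68 | exact absurd u1 n78 | exact absurd u1.symm n78)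
    · obtain ⟨u1, u2⟩ := pw g (P3 γ).1 (P3 γ).2 (P2 β').1 (P2 β').2
      clear g g1
      exfalso
      clear k1
      cases γ <;> cases β' <;> simp only [if_true, if_false, Bool.false_eq_true] at u1 <;>
        (first | rfl | exact absurd u1 n12 | exact absurd u1.symm n12 | exact absurd u1 n13 | exact absurd u1.symm n13 | exact absurd u1 n14 | exact absurd u1.symm n14 | exact absurd u1 n15 | exact absurd u1.symm n15 | exact absurd u1 n16 | exact absurd u1.symm n16 | exact absurd u1 n17 | exact absurd u1.symm n17 | exact absurd u1 n18 | exact absurd u1.symm n18 | exact absurd u1 n23 | exact absurd u1.symm n23 | exact absurd u1 n24 | exact absurd u1.symm n24 | exact absurd u1 n25 | exact absurd u1.symm n25 | exact absurd u1 n26 | exact absurd u1.symm n26 | exact absurd u1 n27 | exact absurd u1.symm n27 | exact absurd u1 n28 | exact absurd u1.symm n28 | exact absurd u1 n34 | exact absurd u1.symm n34 | exact absurd u1 n35 | exact absurd u1.symm n35 | exact absurd u1 n36 | exact absurd u1.symm n36 | exact absurd u1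 n37 | exact absurd u1.symm n37 | exact absurd u1 n38 | exact absurd u1.symm n38 | exact absurd u1 n45 | exact absurd u1.symm n45 | exact absurd u1 n46 | exact absurd u1.symm n46 | exact absurd u1 n47 | exact absurd u1.symm n47 | exact absurd u1 n48 | exact absurd u1.symm n48 | exact absurd u1 n56 | exact absurd u1.symm n56 | exact absurd u1 n57 | exact absurd u1.symm n57 | exact absurd u1 n58 | exact absurd u1.symm n58 | exact absurd u1 n67 | exact absurd u1.symm n67 | exact absurd u1 n68 | exact absurd u1.symm n68 | exact absurd u1 n78 | exact absurd u1.symm n78)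
    · obtain ⟨u1, u2⟩ := pw g (P3 γ).1 (P3 γ).2 (P3 γ').1 (P3 γ').2
      clear g g1
      refine ⟨?_, u2⟩
      cases γ <;> cases γ' <;> simp only [if_true, if_false, Bool.false_eq_true] at u1 <;>
        (first | rfl | exact absurd u1 n12 | exact absurd u1.symm n12 | exact absurd u1 n13 | exact absurd u1.symm n13 | exact absurd u1 n14 | exact absurd u1.symm n14 | exact absurd u1 n15 | exact absurd u1.symm n15 | exact absurd u1 n16 | exact absurd u1.symm n16 | exact absurd u1 n17 | exact absurd u1.symm n17 | exact absurd u1 n18 | exact absurd u1.symm n18 | exact absurd u1 n23 | exact absurd u1.symm n23 | exact absurd u1 n24 | exact absurd u1.symm n24 | exact absurd u1 n25 | exact absurd u1.symm n25 | exact absurd u1 n26 | exact absurd u1.symm n26 | exact absurd u1 n27 | exact absurd u1.symm n27 | exact absurd u1 n28 | exact absurd u1.symm n28 | exact absurd u1 n34 | exact absurd u1.symm n34 | exact absurd u1 n35 | exact absurd u1.symm n35 | exact absurd u1 n36 | exact absurd u1.symm n36 | exact absurd u1 n37 | exact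 absurd u1.symm n37 | exact absurd u1 n38 | exact absurd u1.symm n38 | exact absurd u1 n45 | exact absurd u1.symm n45 | exact absurd u1 n46 | exact absurd u1.symm n46 | exact absurd u1 n47 | exact absurd u1.symm n47 | exact absurd u1 n48 | exact absurd u1.symm n48 | exact absurd u1 n56 | exact absurd u1.symm n56 | exact absurd u1 n57 | exact absurd u1.symm n57 | exact absurd u1 n58 | exact absurd u1.symm n58 | exact absurd u1 n67 | exact absurd u1.symm n67 | exact absurd u1 n68 | exact absurd u1.symm n68 | exact absurd u1 n78 | exact absurd u1.symm n78)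
    · obtain ⟨u1, u2⟩ := pw g (P3 γ).1 (P3 γ).2 (P4 γ').1 (P4 γ').2
      clear g g1
      exfalso
      cases γ <;> cases γ' <;> simp only [if_true, if_false, Bool.false_eq_true] at u1 <;>
        (first | rfl | exact absurd u1 n12 | exact absurd u1.symm n12 | exact absurd u1 n13 | exact absurd u1.symm n13 | exact absurd u1 n14 | exact absurd u1.symm n14 | exact absurd u1 n15 | exact absurd u1.symm n15 | exact absurd u1 n16 | exact absurd u1.symm n16 | exact absurd u1 n17 | exact absurd u1.symm n17 | exact absurd u1 n18 | exact absurd u1.symm n18 | exact absurd u1 n23 | exact absurd u1.symm n23 | exact absurd u1 n24 | exact absurd u1.symm n24 | exact absurd u1 n25 | exact absurd u1.symm n25 | exact absurd u1 n26 | exact absurd u1.symm n26 | exact absurd u1 n27 | exact absurd u1.symm n27 | exact absurd u1 n28 | exact absurd u1.symm n28 | exact absurd u1 n34 | exact absurd u1.symm n34 | exact absurd u1 n35 | exact absurd u1.symm n35 | exact absurd u1 n36 | exact absurd u1.symm n36 | exact absurd u1 n37 | exact absurd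 u1.symm n37 | exact absurd u1 n38 | exact absurd u1.symm n38 | exact absurd u1 n45 | exact absurd u1.symm n45 | exact absurd u1 n46 | exact absurd u1.symm n46 | exact absurd u1 n47 | exact absurd u1.symm n47 | exact absurd u1 n48 | exact absurd u1.symm n48 | exact absurd u1 n56 | exact absurd u1.symm n56 | exact absurd u1 n57 | exact absurd u1.symm n57 | exact absurd u1 n58 | exact absurd u1.symm n58 | exact absurd u1 n67 | exact absurd u1.symm n67 | exact absurd u1 n68 | exact absurd u1.symm n68 | exact absurd u1 n78 | exact absurd u1.symm n78)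
  have k3 := k1.2
  have k4 := k2.2
  refine ⟨?_, k1.1, k2.1⟩
  clear * - k3 k4
  omega

lemma assemble {m L : ℕ} {Yf : ℕ → Finset ℕ} (hY : IsY Yf) {r b1 b2 b3 b4 c1 c2 c3 c4 ξ ρ w : ℕ}
    (D : Dat r b1 b2 b3 b4 c1 c2 c3 c4 ξ ρ) (X Z : Finset ℕ)
    (hX : ∀ l ≤ L, ∀ β γ, ∀ x ∈ X, Adm (2 * m) (EE b1 b2 b3 b4 c1 c2 c3 c4 l β γ) x)
    (hZ : ∀ z ∈ Z, Adm (2 * m) (E5 b1 b2 c1 w) z)
    (hw : ∀ l ≤ L, ∀ β γ, w ∉ EE b1 b2 b3 b4 c1 c2 c3 c4 l β γ)
    (P Q : ℕ → Finset ℕ) (Z' : Finset ℕ) (hZ' : Z' ⊆ Z)
    (hPQ : ∀ l ≤ L, P l ⊆ X ∧ Q l ⊆ X ∧ Disjoint (P l) (Q l)) (hne : ∃ l ≤ L, (P l ∪ Q l).Nonempty)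
    (hsum : ∑ l ∈ range (L + 1), (∑ x ∈ P l, (H (SS Yf (2 * m) (EE b1 b2 b3 b4 c1 c2 c3 c4 l true true) x) +
        H (SS Yf (2 * m) (EE b1 b2 b3 b4 c1 c2 c3 c4 l false false) x)) +
      ∑ x ∈ Q l, (H (SS Yf (2 * m) (EE b1 b2 b3 b4 c1 c2 c3 c4 l true false) x) +
        H (SS Yf (2 * m) (EE b1 b2 b3 b4 c1 c2 c3 c4 l false true) x))) +
      ∑ z ∈ Z', H (SS Yf (2 * m) (E5 b1 b2 c1 w) z) = 0) :
    ∃ F : Finset (Finset ℕ), F.Nonempty ∧ (∀ S ∈ F, Good m S) ∧ ∑ S ∈ F, H S = 0 ∧
      F.card ≤ (L + 1) * (X.card * 4) + Z.card := by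
  classical
  set Φ : ℕ × ℕ × Bool × Bool → Finset ℕ :=
    fun p => SS Yf (2 * m) (EE b1 b2 b3 b4 c1 c2 c3 c4 p.1 p.2.2.1 p.2.2.2) p.2.1 with hΦ
  set Ψ : ℕ → Finset ℕ := fun z => SS Yf (2 * m) (E5 b1 b2 c1 w) z with hΨ
  set c : ℕ × ℕ × Bool × Bool → Prop :=
    fun p => (p.2.2.1 = p.2.2.2 ∧ p.2.1 ∈ P p.1) ∨ (p.2.2.1 ≠ p.2.2.2 ∧ p.2.1 ∈ Q p.1) with hc
  set J := ((range (L + 1)) ×ˢ (X ×ˢ ((univ : Finset Bool) ×ˢ (univ : Finset Bool)))).filter c with hJ
  have hJm : ∀ p ∈ J, p.1 ≤ L ∧ p.2.1 ∈ X := by
    intro p hp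
    rw [hJ, Finset.mem_filter, Finset.mem_product, Finset.mem_product, Finset.mem_range] at hp
    exact ⟨by omega, hp.1.2.1⟩
  have hinj : Set.InjOn Φ (J : Set (ℕ × ℕ × Bool × Bool)) := by
    intro p hp q hq h
    obtain ⟨p1, p2⟩ := hJm p hp
    obtain ⟨q1, q2⟩ := hJm q hq
    obtain ⟨e1, e2⟩ := inj1 hY (hX _ p1 _ _ _ p2) (hX _ q1 _ _ _ q2) h
    obtain ⟨e3, e4, e5⟩ := inj2 D e2
    exact Prod.ext e3 (Prod.ext e1 (Prod.ext e4 e5))
  have hinjZ : Set.InjOn Ψ (Z' : Set ℕ) := by
    intro p hp q hq h
    exact (inj1 hY (hZ _ (hZ' hp)) (hZ _ (hZ' hq)) h).1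
  have hdisj : Disjoint (J.image Φ) (Z'.image Ψ) := by
    rw [Finset.disjoint_left]
    intro S hS hS'
    rw [Finset.mem_image] at hS hS'
    obtain ⟨p, hp, rfl⟩ := hS
    obtain ⟨z, hz, hzp⟩ := hS'
    obtain ⟨p1, p2⟩ := hJm p hp
    obtain ⟨e1, e2⟩ := inj1 hY (hZ _ (hZ' hz)) (hX _ p1 _ _ _ p2) hzp
    exact hw _ p1 _ _ (e2 w (by unfold E5; exact Finset.mem_insert_self _ _))
  refine ⟨J.image Φ ∪ Z'.image Ψ, ?_, ?_, ?_, ?_⟩
  · obtain ⟨l, hl, x, hx⟩ := hne
    obtain ⟨h1, h2, -⟩ := hPQ l hl
    rw [Finset.mem_union] at hx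
    rcases hx with hx | hx
    · refine ⟨Φ (l, x, true, true), Finset.mem_union_left _ (Finset.mem_image_of_mem _ ?_)⟩
      rw [hJ, Finset.mem_filter, Finset.mem_product, Finset.mem_product, Finset.mem_range]
      exact ⟨⟨by simp only; omega, h1 hx, by simp⟩, Or.inl ⟨rfl, hx⟩⟩
    · refine ⟨Φ (l, x, true, false), Finset.mem_union_left _ (Finset.mem_image_of_mem _ ?_)⟩
      rw [hJ, Finset.mem_filter, Finset.mem_product, Finset.mem_product, Finset.mem_range]
      exact ⟨⟨by simp only; omega, h2 hx, by simp⟩, Or.inr ⟨by simp, hx⟩⟩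
  · intro S hS
    rw [Finset.mem_union, Finset.mem_image, Finset.mem_image] at hS
    rcases hS with ⟨p, hp, rfl⟩ | ⟨z, hz, rfl⟩
    · obtain ⟨p1, p2⟩ := hJm p hp
      exact (hX _ p1 _ _ _ p2).good hY
    · exact (hZ _ (hZ' hz)).good hY
  · rw [Finset.sum_union hdisj, Finset.sum_image hinj, Finset.sum_image hinjZ, ← hsum]
    congr 1
    rw [hJ, Finset.sum_filter, Finset.sum_product]
    refine Finset.sum_congr rfl fun l hl => ?_
    rw [Finset.mem_range] at hl
    obtain ⟨h1, h2, -⟩ := hPQ l (by omega)
    rw [Finset.sum_product]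
    have e1 : ∀ x ∈ X, ∑ q ∈ (univ : Finset Bool) ×ˢ (univ : Finset Bool),
        (if c (l, x, q) then H (Φ (l, x, q)) else 0) =
        (if x ∈ P l then (H (Φ (l, x, true, true)) + H (Φ (l, x, false, false))) else 0) +
        (if x ∈ Q l then (H (Φ (l, x, true, false)) + H (Φ (l, x, false, true))) else 0) := by
      intro x _
      rw [Finset.sum_product, Fintype.sum_bool, Fintype.sum_bool, Fintype.sum_bool]
      simp only [hc]
      by_cases hp : x ∈ P l <;> by_cases hq : x ∈ Q l <;> simp [hp, hq] <;> ring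
    rw [Finset.sum_congr rfl e1, Finset.sum_add_distrib, Finset.sum_ite_mem, Finset.sum_ite_mem,
      Finset.inter_eq_right.2 h1, Finset.inter_eq_right.2 h2]
  · refine (Finset.card_union_le _ _).trans (Nat.add_le_add ?_ ?_)
    · refine Finset.card_image_le.trans ((Finset.card_filter_le _ _).trans ?_)
      rw [Finset.card_product, Finset.card_product, Finset.card_product, Finset.card_range, Finset.card_univ,
        Fintype.card_bool]
    · exact Finset.card_image_le.trans (Finset.card_le_card hZ')

end Pool.Agent.Helper22E
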