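import Pool.Agent.Helper22E.NumD

/-!
# The arithmetic part: the parameters
-/

set_option autoImplicit false

namespace Pool.Agent.Helper22E

open Finset

lemma two_pow_ge (I : ℕ) (h : 3 ≤ I) : 2 * I + 2 ≤ 2 ^ I := by
  induction I, h using Nat.le_induction with
  | base => norm_num
  | succ n _ ih => rw [pow_succ]; omega

lemma growth (C : ℕ) : ∃ I0 : ℕ, ∀ I, I0 ≤ I → C * (2 * I + 2) ≤ 1801 ^ I := by
  refine ⟨C + 3, fun I hI => ?_⟩
  have h1 : C ≤ 2 ^ I := (by omega : C ≤ I).trans Nat.lt_two_pow_self.le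
  have h2 := two_pow_ge I (by omega)
  calc C * (2 * I + 2) ≤ 2 ^ I * 2 ^ I := Nat.mul_le_mul h1 h2
    _ = (2 * 2) ^ I := by rw [mul_pow]
    _ ≤ 1801 ^ I := Nat.pow_le_pow_left (by norm_num) I

/-- the constant of the definition of `I` -/
def cA : ℕ := 32000 * 1801 ^ 2

/-- bound for `K` -/
def cK : ℕ := 840 * (2 * 1801 ^ 4) * (2 * 1801 ^ 4)

/-- the constant `D` -/
def cD : ℕ := 1801 ^ 4 + 2277 * (cA * 1801 ^ 2) ^ 4

/-- the constant of the number of elements -/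
def cC : ℕ := 1000000 * (1800 * (cK * (cK * (cD * 4554))) + 1801)

lemma cA_pos : 0 < cA := by unfold cA; positivity

/-- the exponent -/
lemma exI (s : ℕ) (hs : cA ≤ s) : ∃ I : ℕ, cA * (1801 ^ 2) ^ I ≤ s ∧ s < cA * (1801 ^ 2) ^ (I + 1) := by
  have h0 : s / cA ≠ 0 := by
    have := Nat.div_pos hs cA_pos
    omega
  refine ⟨Nat.log (1801 ^ 2) (s / cA), ?_, ?_⟩
  · have := Nat.pow_log_le_self (1801 ^ 2) h0
    rw [Nat.le_div_iff_mul_le cA_pos] at this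
    rw [mul_comm]
    exact this
  · have := Nat.lt_pow_succ_log_self (show 1 < 1801 ^ 2 by norm_num) (s / cA)
    rw [Nat.div_lt_iff_lt_mul cA_pos] at this
    rw [mul_comm]
    exact this

lemma topdig {s I K : ℕ} (hK : 0 < K) (h : s < cA * (1801 ^ 2) ^ (I + 1)) :
    2277 * (s : ℤ) ^ 4 ≤ ((K : ℤ) * cD) * ((1801 ^ 4 : ℕ) : ℤ) ^ (2 * I) := by
  have h1 : s ^ 4 ≤ (cA * 1801 ^ 2) ^ 4 * (1801 ^ 4) ^ (2 * I) := by
    calc s ^ 4 ≤ (cA * (1801 ^ 2) ^ (I + 1)) ^ 4 := Nat.pow_le_pow_left h.le 4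
      _ = (cA * 1801 ^ 2) ^ 4 * ((1801 ^ 2) ^ I) ^ 4 := by rw [pow_succ]; ring
      _ = (cA * 1801 ^ 2) ^ 4 * (1801 ^ 4) ^ (2 * I) := by
        congr 1
        rw [← pow_mul, ← pow_mul, ← pow_mul]
        congr 1
        ring
  have h2 : 2277 * s ^ 4 ≤ (K * cD) * (1801 ^ 4) ^ (2 * I) := by
    calc 2277 * s ^ 4 ≤ 2277 * ((cA * 1801 ^ 2) ^ 4 * (1801 ^ 4) ^ (2 * I)) := Nat.mul_le_mul_left _ h1
      _ = (2277 * (cA * 1801 ^ 2) ^ 4) * (1801 ^ 4) ^ (2 * I) := by ring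
      _ ≤ (K * cD) * (1801 ^ 4) ^ (2 * I) := by
        refine Nat.mul_le_mul_right _ ?_
        calc 2277 * (cA * 1801 ^ 2) ^ 4 ≤ cD := Nat.le_add_left _ _
          _ ≤ K * cD := Nat.le_mul_of_pos_left _ hK
  exact_mod_cast h2

lemma supply_aux (A B J : ℕ) (h2 : A ≤ B * (J + 1)) :
    1000000 * (1800 * A + 1801) ≤ 1000000 * (1800 * B + 1801) * (J + 1) := by
  have h3 : 1800 * A + 1801 ≤ (1800 * B + 1801) * (J + 1) := by nlinarith
  rw [mul_assoc]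
  exact Nat.mul_le_mul_left _ h3

/-- the number of elements is small against `√s` -/
lemma supply {s I K : ℕ} (hK : K ≤ cK) (h : cA * (1801 ^ 2) ^ I ≤ s)
    (hI : cC * (2 * I + 2) ≤ 1801 ^ I) :
    1000000 * (1800 * (K * (K * ((2 * I + 1) * cD * 4554))) + 1801) ≤ Nat.sqrt s := by
  have h1 : 1801 ^ I ≤ Nat.sqrt s := by
    rw [Nat.le_sqrt']
    calc (1801 ^ I) ^ 2 = 1 * (1801 ^ 2) ^ I := by rw [one_mul, ← pow_mul, ← pow_mul, mul_comm]
      _ ≤ cA * (1801 ^ 2) ^ I := Nat.mul_le_mul_right _ cA_pos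
      _ ≤ s := h
  refine le_trans ?_ (hI.trans h1)
  unfold cC
  have h2 : K * (K * ((2 * I + 1) * cD * 4554)) ≤ (cK * (cK * (cD * 4554))) * (2 * I + 2) := by
    calc K * (K * ((2 * I + 1) * cD * 4554)) ≤ cK * (cK * ((2 * I + 2) * cD * 4554)) := by
          refine Nat.mul_le_mul hK (Nat.mul_le_mul hK ?_)
          refine Nat.mul_le_mul_right _ (Nat.mul_le_mul_right _ (by omega))
      _ = (cK * (cK * (cD * 4554))) * (2 * I + 2) := by ring
  exact supply_aux _ _ (2 * I + 1) h2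

/-- `W` of the application of `cnt` -/
lemma wbound {s Z : ℕ} (h : 1000000 * Z ≤ Nat.sqrt s) : 1000000 * (Z * (2 * Nat.sqrt s + Z)) ≤ 3 * s := by
  have h1 := Nat.sqrt_le' s
  have h2 : Z ≤ Nat.sqrt s := by omega
  calc 1000000 * (Z * (2 * Nat.sqrt s + Z)) = (1000000 * Z) * (2 * Nat.sqrt s + Z) := by ring
    _ ≤ Nat.sqrt s * (3 * Nat.sqrt s) := Nat.mul_le_mul h (by omega)
    _ = 3 * (Nat.sqrt s) ^ 2 := by ring
    _ ≤ 3 * s := Nat.mul_le_mul_left _ h1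

end Pool.Agent.Helper22E
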