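import Pool.Agent.Helper22E.NumE

/-!
# The arithmetic part: conclusion
-/

set_option autoImplicit false

namespace Pool.Agent.Helper22E

open Finset

lemma q4_of {r b1 b2 b3 b4 c1 c2 c3 c4 ξ ρ : ℕ} (D : Dat r b1 b2 b3 b4 c1 c2 c3 c4 ξ ρ) (β γ : Bool) :
    Q4 (if β then b1 else b3) (if β then b2 else b4) (if γ then c1 else c3) (if γ then c2 else c4) := by
  have hn := D.nodup
  have hr := D.rng
  have he := D.ev
  have ht := D.th
  simp only [List.nodup_cons, List.mem_cons, not_or, List.not_mem_nil, not_false_iff, List.nodup_nil,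
    and_true, forall_eq_or_imp] at hn hr he ht
  obtain ⟨⟨n12, n13, n14, n15, n16, n17, n18⟩, ⟨n23, n24, n25, n26, n27, n28⟩, ⟨n34, n35, n36, n37, n38⟩,
    ⟨n45, n46, n47, n48⟩, ⟨n56, n57, n58⟩, ⟨n67, n68⟩, n78⟩ := hn
  obtain ⟨r1, r2, r3, r4, r5, r6, r7, r8, -⟩ := hr
  obtain ⟨e1, e2, e3, e4, -⟩ := he
  obtain ⟨t1, t2, t3, t4, -⟩ := ht
  cases β <;> cases γ
  · exact ⟨n34, n78, n37, n38, n47, n48, r3, r4, r7, r8, e3, e4, t3, t4⟩
  · exact ⟨n34, n56, n35, n36, n45, n46, r3, r4, r5, r6, e3, e4, t1, t2⟩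
  · exact ⟨n12, n78, n17, n18, n27, n28, r1, r2, r7, r8, e1, e2, t3, t4⟩
  · exact ⟨n12, n56, n15, n16, n25, n26, r1, r2, r5, r6, e1, e2, t1, t2⟩

lemma sum_of {m b1 b2 b3 b4 c1 c2 c3 c4 ξ ρ : ℕ} (D : Dat (m % 900) b1 b2 b3 b4 c1 c2 c3 c4 ξ ρ) (β γ : Bool) :
    (ρ + (if β then b1 else b3) ^ 2 + (if β then b2 else b4) ^ 2 + (if γ then c1 else c3) ^ 2 +
      (if γ then c2 else c4) ^ 2 + ξ ^ 2) % 1800 = (2 * m) % 1800 := by
  have h := D.sum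
  have h1 : (2 * (m % 900)) % 1800 = (2 * m) % 1800 := by omega
  rw [h1] at h
  rw [← h]
  have hB := D.B
  have hC := D.C
  cases β <;> cases γ <;> simp only [if_true, if_false, Bool.false_eq_true] <;> congr 1 <;> omega

lemma pow4_le {a : ℕ} (h : a < 1801) : a ^ 4 ≤ 1801 ^ 4 := Nat.pow_le_pow_left h.le 4

/-- the constant `K` -/
def KK (b1 b2 b3 b4 c1 c2 c3 c4 : ℕ) : ℕ :=
  840 * (b1 ^ 4 + b2 ^ 4 - (b3 ^ 4 + b4 ^ 4)) * (c1 ^ 4 + c2 ^ 4 - (c3 ^ 4 + c4 ^ 4))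

lemma KK_pos {r b1 b2 b3 b4 c1 c2 c3 c4 ξ ρ : ℕ} (D : Dat r b1 b2 b3 b4 c1 c2 c3 c4 ξ ρ) :
    0 < KK b1 b2 b3 b4 c1 c2 c3 c4 := by
  have h1 := D.b4
  have h2 := D.c4
  unfold KK
  have h3 : 0 < b1 ^ 4 + b2 ^ 4 - (b3 ^ 4 + b4 ^ 4) := by omega
  have h4 : 0 < c1 ^ 4 + c2 ^ 4 - (c3 ^ 4 + c4 ^ 4) := by omega
  positivity

lemma KK_le {r b1 b2 b3 b4 c1 c2 c3 c4 ξ ρ : ℕ} (D : Dat r b1 b2 b3 b4 c1 c2 c3 c4 ξ ρ) :
    KK b1 b2 b3 b4 c1 c2 c3 c4 ≤ cK := by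
  have q := q4_of D true true
  simp only [if_true] at q
  have h1 := pow4_le q.p1.2
  have h2 := pow4_le q.p2.2
  have h3 := pow4_le q.p3.2
  have h4 := pow4_le q.p4.2
  unfold KK cK
  refine Nat.mul_le_mul (Nat.mul_le_mul_left _ ?_) ?_
  · refine (Nat.sub_le _ _).trans ?_
    rw [two_mul]
    exact Nat.add_le_add h1 h2
  · refine (Nat.sub_le _ _).trans ?_
    rw [two_mul]
    exact Nat.add_le_add h3 h4

lemma KK_cast {r b1 b2 b3 b4 c1 c2 c3 c4 ξ ρ : ℕ} (D : Dat r b1 b2 b3 b4 c1 c2 c3 c4 ξ ρ) :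
    (KK b1 b2 b3 b4 c1 c2 c3 c4 : ℤ) = 840 * ((b1 : ℤ) ^ 4 + b2 ^ 4 - b3 ^ 4 - b4 ^ 4) *
      ((c1 : ℤ) ^ 4 + c2 ^ 4 - c3 ^ 4 - c4 ^ 4) := by
  unfold KK
  rw [Nat.cast_mul, Nat.cast_mul, Nat.cast_sub D.b4.le, Nat.cast_sub D.c4.le]
  push_cast
  ring

lemma cD_pos : 0 < cD := lt_of_lt_of_le (by norm_num : 0 < 1801 ^ 4) (Nat.le_add_right _ _)

/-- NUM with a bound for the number of the sets -/
def S_NUM' : Prop := ∃ m₀ C : ℕ, ∀ m : ℕ, m₀ ≤ m → ∃ F : Finset (Finset ℕ), F.Nonempty ∧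
  (∀ S ∈ F, Good m S) ∧ ∑ S ∈ F, H S = 0 ∧ (F.card : ℝ) ≤ C * Real.log m

lemma log_bound {I m : ℕ} (h : cA * (1801 ^ 2) ^ I ≤ 2 * m) (hm : 3 ≤ m) :
    ((2 * I + 1 : ℕ) : ℝ) ≤ 5 * Real.log m := by
  have h1 : (1801 ^ 2) ^ I ≤ 2 * m := le_trans (Nat.le_mul_of_pos_left _ cA_pos) h
  have hm0 : (0 : ℝ) < m := by exact_mod_cast (by omega : 0 < m)
  have h2 : Real.exp I ≤ 2 * m := by
    calc Real.exp I = Real.exp 1 ^ I := by rw [← Real.exp_nat_mul, mul_one]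
      _ ≤ (1801 ^ 2 : ℝ) ^ I := by
        refine pow_le_pow_left₀ (Real.exp_pos 1).le ?_ I
        have := Real.exp_one_lt_d9
        linarith
      _ ≤ 2 * m := by exact_mod_cast h1
  have h3 : (I : ℝ) ≤ Real.log (2 * m) := by
    rw [Real.le_log_iff_exp_le (by positivity)]
    exact h2
  have h4 : Real.log 2 ≤ 1 := by
    have := Real.log_two_lt_d9
    linarith
  rw [Real.log_mul (by norm_num) hm0.ne'] at h3
  have h5 : 1 ≤ Real.log m := by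
    rw [Real.le_log_iff_exp_le hm0]
    have : (3 : ℝ) ≤ m := by exact_mod_cast hm
    have := Real.exp_one_lt_d9
    linarith
  push_cast
  linarith

theorem t_NUM (h3 : S_THREE) (hN : S_NEG) (hB : S_BD) (hP : S_POS) (hA : S_ASM) : S_NUM' := by
  obtain ⟨Yf, hY⟩ := exY h3
  obtain ⟨I0, hI0⟩ := growth cC
  refine ⟨10 ^ 12 + cA * (1801 ^ 2) ^ (I0 + 1), 5 * (cK * (cK * cD) * 4 + cK * (cK * (cD * 4554))), fun m hm => ?_⟩
  obtain ⟨s, hs⟩ : ∃ s, s = 2 * m := ⟨_, rfl⟩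
  have hs12 : 10 ^ 12 ≤ s := by
    have : 10 ^ 12 ≤ m := le_trans (Nat.le_add_right _ _) hm
    omega
  have hsA : cA * (1801 ^ 2) ^ (I0 + 1) ≤ s := by
    have : cA * (1801 ^ 2) ^ (I0 + 1) ≤ m := le_trans (Nat.le_add_left _ _) hm
    omega
  have hcA : cA ≤ s := le_trans (Nat.le_mul_of_pos_right _ (by positivity)) hsA
  clear hm
  obtain ⟨I, hI1, hI2⟩ := exI s hcA
  have hII : I0 ≤ I := by
    by_contra hcon
    have h1 : cA * (1801 ^ 2) ^ (I + 1) ≤ cA * (1801 ^ 2) ^ (I0 + 1) :=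
      Nat.mul_le_mul_left _ (Nat.pow_le_pow_right (by norm_num) (by omega))
    exact absurd (lt_of_lt_of_le hI2 h1) (not_lt.2 hsA)
  have hG := hI0 I hII
  clear hsA hcA hI0 hII
  obtain ⟨b1, b2, b3, b4, c1, c2, c3, c4, ξ, ρ, D⟩ := t_TAB (m % 900) (Nat.mod_lt _ (by norm_num))
  obtain ⟨K, hKd⟩ : ∃ K, K = KK b1 b2 b3 b4 c1 c2 c3 c4 := ⟨_, rfl⟩
  have hK0 : 0 < K := by rw [hKd]; exact KK_pos D
  have hKle : K ≤ cK := by rw [hKd]; exact KK_le D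
  have hsup := supply hKle hI1 hG
  have htop := topdig hK0 hI2
  clear hI2 hG
  obtain ⟨k, hk⟩ : ∃ k, k = (2 * I + 1) * cD * 4554 := ⟨_, rfl⟩
  rw [← hk] at hsup
  obtain ⟨N, hNd⟩ : ∃ N, N = K * (K * k) := ⟨_, rfl⟩
  rw [← hNd] at hsup
  have hD0 : 0 < cD := cD_pos
  have hDk : cD ≤ k := by
    rw [hk]
    generalize cD = d
    nlinarith [Nat.zero_le (I * d)]
  have hkpos : 0 < k := lt_of_lt_of_le hD0 hDk
  have hN1 : 1 ≤ N := by rw [hNd]; exact Nat.mul_pos hK0 (Nat.mul_pos hK0 hkpos)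
  have hW := wbound hsup
  have hsq : ∀ a ≤ s, Nat.sqrt a ≤ Nat.sqrt s := fun a ha => Nat.sqrt_le_sqrt ha
  obtain ⟨W, hWd⟩ : ∃ W, W = (1800 * N + 1801) * (2 * Nat.sqrt s + (1800 * N + 1801)) := ⟨_, rfl⟩
  rw [← hWd] at hW
  -- the set X
  have hXc' := cnt (1999 * s / 2000 + 1) (7999 * s / 8000) ξ N (Nat.sqrt s) D.hξ (hsq _ (by omega))
    (by rw [← hWd]; clear * - hW hs12; omega)
  set X1 := (range (7999 * s / 8000 + 1)).filter
    (fun x => x % 1800 = ξ ∧ 1999 * s / 2000 + 1 ≤ x ^ 2 ∧ x ^ 2 < 7999 * s / 8000) with hXd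
  obtain ⟨X, hXX, hXc⟩ : ∃ X ⊆ X1, X.card = K * (K * cD) := by
    refine Finset.exists_subset_card_eq (le_trans ?_ hXc')
    rw [hNd]
    exact Nat.mul_le_mul_left _ (Nat.mul_le_mul_left _ hDk)
  have hXm : ∀ x ∈ X, x % 1800 = ξ ∧ 1999 * s ≤ 2000 * x ^ 2 ∧ 8000 * x ^ 2 < 7999 * s := by
    intro x hx
    have hx := hXX hx
    rw [hXd, Finset.mem_filter] at hx
    obtain ⟨-, h1, h2, h3⟩ := hx
    refine ⟨h1, ?_, ?_⟩
    · clear * - h2
      generalize x ^ 2 = y at *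
      omega
    · clear * - h3
      generalize x ^ 2 = y at *
      omega
  -- the element w
  have hwc := cnt (39 * s / 100 + 1) (41 * s / 100) (c2 % 1800) N (Nat.sqrt s) (Nat.mod_lt _ (by norm_num))
    (hsq _ (by omega)) (by rw [← hWd]; clear * - hW hs12; omega)
  obtain ⟨w, hw⟩ := Finset.card_pos.1 (lt_of_lt_of_le hN1 hwc)
  rw [Finset.mem_filter] at hw
  obtain ⟨-, hwm, hw1', hw2'⟩ := hw
  have hw1 : 39 * s ≤ 100 * w ^ 2 := by
    clear * - hw1'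
    generalize w ^ 2 = y at *
    omega
  have hw2 : 100 * w ^ 2 ≤ 41 * s := by
    clear * - hw2'
    generalize w ^ 2 = y at *
    omega
  clear hw1' hw2' hwc
  -- the set Z
  have hZc' := cnt (s - w ^ 2 - s / 20000) (s - w ^ 2 - s / 40000) ξ N (Nat.sqrt s) D.hξ
    (hsq _ (by omega)) (by
      rw [← hWd]
      clear * - hW hs12 hw1 hw2
      generalize w ^ 2 = y at *
      omega)
  set Z1 := (range (s - w ^ 2 - s / 40000 + 1)).filter
    (fun x => x % 1800 = ξ ∧ s - w ^ 2 - s / 20000 ≤ x ^ 2 ∧ x ^ 2 < s - w ^ 2 - s / 40000) with hZd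
  obtain ⟨Z, hZZ, hZc⟩ : ∃ Z ⊆ Z1, Z.card = N := Finset.exists_subset_card_eq hZc'
  -- admissibility
  have hsum : ∀ β γ : Bool, (ρ + (if β then b1 else b3) ^ 2 + (if β then b2 else b4) ^ 2 +
      (if γ then c1 else c3) ^ 2 + (if γ then c2 else c4) ^ 2 + ξ ^ 2) % 1800 = s % 1800 := by
    intro β γ
    rw [hs]
    exact sum_of D β γ
  have hXa : ∀ l ≤ 2 * I, ∀ β γ, ∀ x ∈ X, Adm s (EE b1 b2 b3 b4 c1 c2 c3 c4 l β γ) x := by
    intro l hl β γ x hx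
    obtain ⟨h1, h2, h3⟩ := hXm x hx
    exact admS (q4_of D β γ) (by omega : (l + 1) / 2 ≤ I) (by omega : l / 2 ≤ I) hI1 h2 h3 h1 D.hρ
      (hsum β γ) D.r8 D.r9 D.r5 D.r25
  have hZa : ∀ z ∈ Z, 1801 < w ∧ w < z ∧ Adm s (E5 b1 b2 c1 w) z ∧ s - w ^ 2 - s / 20000 ≤ z ^ 2 := by
    intro z hz
    have hz := hZZ hz
    rw [hZd, Finset.mem_filter] at hz
    obtain ⟨-, h1, h2, h3⟩ := hz
    have q := q4_of D true true
    have hq := hsum true true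
    simp only [if_true] at q hq
    obtain ⟨u1, u2, u3⟩ := admP q hs12 hw1 hw2 hwm h2 h3 h1 D.hρ hq D.r8 D.r9 D.r5 D.r25
    exact ⟨u1, u2, u3, h2⟩
  have hwE : ∀ l ≤ 2 * I, ∀ β γ, w ∉ EE b1 b2 b3 b4 c1 c2 c3 c4 l β γ := by
    intro l hl β γ hwe
    have h1 := E4_sq_le (q4_of D β γ) (by omega : (l + 1) / 2 ≤ I) (by omega : l / 2 ≤ I) hI1
    have h2 := Finset.single_le_sum (f := fun a : ℕ => a ^ 2) (fun a _ => Nat.zero_le _) hwe
    have h2' : w ^ 2 ≤ ∑ a ∈ E4 (if β then b1 else b3) (if β then b2 else b4) (if γ then c1 else c3)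
      (if γ then c2 else c4) ((l + 1) / 2) (l / 2), a ^ 2 := h2
    clear * - h1 h2' hw1 hs12
    generalize ∑ a ∈ E4 (if β then b1 else b3) (if β then b2 else b4) (if γ then c1 else c3)
      (if γ then c2 else c4) ((l + 1) / 2) (l / 2), a ^ 2 = y at *
    generalize w ^ 2 = z at *
    omega
  obtain ⟨P, Q, Z', hZ', hPQ, hne, hfin⟩ := hA K (1801 ^ 4) cD (2 * I) k (2277 * (s : ℤ) ^ 4) ((s : ℤ) ^ 4)
    (fun _ => X)
    (fun l x => H (SS Yf s (EE b1 b2 b3 b4 c1 c2 c3 c4 l true true) x) +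
      H (SS Yf s (EE b1 b2 b3 b4 c1 c2 c3 c4 l false false) x))
    (fun l x => H (SS Yf s (EE b1 b2 b3 b4 c1 c2 c3 c4 l true false) x) +
      H (SS Yf s (EE b1 b2 b3 b4 c1 c2 c3 c4 l false true) x)) Z
    (fun z => H (SS Yf s (E5 b1 b2 c1 w) z)) hK0 (by norm_num) hD0
    (by
      have : (0 : ℤ) < s := by
        have : 0 < s := lt_of_lt_of_le (by norm_num) hs12
        exact_mod_cast this
      positivity)
    (by
      intro l hl x hx
      have h := swap Yf hY (q4_of D true true) (q4_of D false false) (q4_of D true false) (q4_of D false true)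
        D.B D.C (hXa l hl true true x hx) (hXa l hl false false x hx) (hXa l hl true false x hx)
        (hXa l hl false true x hx)
      have e1 : ((1801 : ℤ) ^ ((l + 1) / 2) * 1801 ^ (l / 2)) ^ 4 = (((1801 ^ 4 : ℕ)) : ℤ) ^ l := by
        rw [← pow_add, show (l + 1) / 2 + l / 2 = l by omega, Nat.cast_pow, ← pow_mul, ← pow_mul, mul_comm,
          Nat.cast_ofNat]
      have hKc := KK_cast D
      rw [← hKd] at hKc
      simp only [if_true, if_false, Bool.false_eq_true] at h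
      rw [e1, ← hKc] at h
      exact h)
    (by
      intro l hl x hx
      have h2 := (hXm x hx).2.1
      have n1 := (hXa l hl true true x hx).neg hN hY h2
      have n2 := (hXa l hl false false x hx).neg hN hY h2
      have m1 := (abs_le.1 ((hXa l hl true true x hx).bd hB hY)).1
      have m2 := (abs_le.1 ((hXa l hl false false x hx).bd hB hY)).1
      constructor
      · linarith
      · linarith)
    (by
      intro l _
      exact hXc.ge)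
    (by
      calc 1801 ^ 4 ≤ cD := Nat.le_add_right _ _
        _ ≤ K * cD := Nat.le_mul_of_pos_left _ hK0)
    htop
    (by
      intro z hz
      obtain ⟨u1, u2, u3, u4⟩ := hZa z hz
      exact ⟨posP hP hY hs12 hw1 hw2 u4 u2 u3, (abs_le.1 (u3.bd hB hY)).2⟩)
    (by rw [← hNd]; exact hZc.ge)
    (by
      rw [hk]
      push_cast
      apply le_of_eq
      ring)
  subst hs
  obtain ⟨F, f1, f2, f3, f4⟩ := assemble hY D X Z hXa (fun z hz => (hZa z hz).2.2.1) hwE P Q Z' hZ' hPQ hne hfin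
  refine ⟨F, f1, f2, f3, ?_⟩
  have hlog := log_bound hI1 (by omega : 3 ≤ m)
  have f5 : F.card ≤ (cK * (cK * cD) * 4 + cK * (cK * (cD * 4554))) * (2 * I + 1) := by
    refine f4.trans ?_
    rw [hXc, hZc, hNd, hk]
    have g1 : K * (K * cD) ≤ cK * (cK * cD) := Nat.mul_le_mul hKle (Nat.mul_le_mul_right _ hKle)
    have g2 : K * (K * ((2 * I + 1) * cD * 4554)) ≤ cK * (cK * ((2 * I + 1) * cD * 4554)) :=
      Nat.mul_le_mul hKle (Nat.mul_le_mul_right _ hKle)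
    calc (2 * I + 1) * (K * (K * cD) * 4) + K * (K * ((2 * I + 1) * cD * 4554)) ≤
        (2 * I + 1) * (cK * (cK * cD) * 4) + cK * (cK * ((2 * I + 1) * cD * 4554)) :=
          Nat.add_le_add (Nat.mul_le_mul_left _ (Nat.mul_le_mul_right _ g1)) g2
      _ = (cK * (cK * cD) * 4 + cK * (cK * (cD * 4554))) * (2 * I + 1) := by ring
  obtain ⟨B, hBd⟩ : ∃ B, B = cK * (cK * cD) * 4 + cK * (cK * (cD * 4554)) := ⟨_, rfl⟩
  rw [← hBd] at f5 ⊢
  have f6 : (F.card : ℝ) ≤ (B : ℝ) * ((2 * I + 1 : ℕ) : ℝ) := by exact_mod_cast f5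
  refine f6.trans ?_
  push_cast at hlog ⊢
  have hB0 : (0 : ℝ) ≤ B := Nat.cast_nonneg B
  nlinarith

end Pool.Agent.Helper22E
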