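import Pool.Agent.Helper22E.Stm

/-!
# ORB: a zero-sum family of vectors of the open chamber gives a spherical 11-design
-/

set_option autoImplicit false

namespace Pool.Agent.Helper22E

open Pool.Agent.Q10.E8 Pool.Agent.Helper2.E8C Finset

/-- the quotient of two automorphisms -/
noncomputable def quo (g' g : (Fin 8 → ℤ) → (Fin 8 → ℤ)) : (Fin 8 → ℤ) → (Fin 8 → ℤ) :=
  fun x => Function.invFunOn g' {v | IsE8 v} (g x)

theorem quo_spec {g' g : (Fin 8 → ℤ) → (Fin 8 → ℤ)} (hg' : IsAut g') (hg : IsAut g)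
    {x : Fin 8 → ℤ} (hx : IsE8 x) : IsE8 (quo g' g x) ∧ g' (quo g' g x) = g x := by
  have h1 : g x ∈ g' '' {v | IsE8 v} := hg'.1.surjOn (hg.1.mapsTo hx)
  exact ⟨Function.invFunOn_mem h1, Function.invFunOn_eq h1⟩

theorem quo_aut {g' g : (Fin 8 → ℤ) → (Fin 8 → ℤ)} (hg' : IsAut g') (hg : IsAut g) :
    IsAut (quo g' g) := by
  refine ⟨⟨fun x hx => (quo_spec hg' hg hx).1, ?_, ?_⟩, ?_⟩
  · intro x hx y hy hxy
    apply hg.1.injOn hx hy
    rw [← (quo_spec hg' hg hx).2, ← (quo_spec hg' hg hy).2, hxy]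
  · intro y hy
    obtain ⟨x, hx, hxy⟩ := hg.1.surjOn (hg'.1.mapsTo hy)
    refine ⟨x, hx, ?_⟩
    apply hg'.1.injOn (quo_spec hg' hg hx).1 hy
    rw [(quo_spec hg' hg hx).2, hxy]
  · intro u v hu hv
    rw [← hg'.2 _ _ (quo_spec hg' hg hu).1 (quo_spec hg' hg hv).1, (quo_spec hg' hg hu).2,
      (quo_spec hg' hg hv).2, hg.2 u v hu hv]

theorem comp_aut {g' g : (Fin 8 → ℤ) → (Fin 8 → ℤ)} (hg' : IsAut g') (hg : IsAut g) :
    IsAut (fun x => g' (g x)) := by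
  refine ⟨hg'.1.comp hg.1, ?_⟩
  intro u v hu hv
  rw [hg'.2 _ _ (hg.1.mapsTo hu) (hg.1.mapsTo hv), hg.2 u v hu hv]

theorem eq_of_rigid (h : S_RIGID) {g' g : (Fin 8 → ℤ) → (Fin 8 → ℤ)} (hg' : IsAut g')
    (hg : IsAut g) {u w : Fin 8 → ℤ} (hu : Ch u) (hw : Ch w) (e : g u = g' w) :
    u = w ∧ ∀ x, IsE8 x → g x = g' x := by
  have h1 : quo g' g u = w := by
    apply hg'.1.injOn (quo_spec hg' hg hu.1).1 hw.1
    rw [(quo_spec hg' hg hu.1).2, e]
  have h2 := h (quo g' g) (quo_aut hg' hg) u w hu hw h1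
  refine ⟨?_, fun x hx => ?_⟩
  · rw [← h1, h2 u hu.1]
  · rw [← (quo_spec hg' hg hx).2, h2 x hx]

open Classical in
/-- the orbit of a vector -/
noncomputable def orb (m : ℕ) (u : Fin 8 → ℤ) : Finset (Fin 8 → ℤ) :=
  (shell m).filter fun v => ∃ g, IsAut g ∧ v = g u

theorem mem_orb {m : ℕ} {u v : Fin 8 → ℤ} (hu : InShell m u) :
    v ∈ orb m u ↔ ∃ g, IsAut g ∧ v = g u := by
  classical
  unfold orb
  rw [Finset.mem_filter, mem_shell]
  constructor
  · exact fun h => h.2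
  · rintro ⟨g, hg, rfl⟩
    exact ⟨(aut_shell hg hu.1).mpr hu, g, hg, rfl⟩

theorem card_orb_le (h : S_RIGID) {m : ℕ} {u w : Fin 8 → ℤ} (hu : InShell m u) (hw : InShell m w)
    (cw : Ch w) : (orb m u).card ≤ (orb m w).card := by
  classical
  have key : ∀ v : Fin 8 → ℤ, ∃ g : (Fin 8 → ℤ) → (Fin 8 → ℤ), v ∈ orb m u → IsAut g ∧ v = g u := by
    intro v
    by_cases hv : v ∈ orb m u
    · obtain ⟨g, hg⟩ := (mem_orb hu).mp hv
      exact ⟨g, fun _ => hg⟩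
    · exact ⟨id, fun hc => absurd hc hv⟩
  choose g hg using key
  refine Finset.card_le_card_of_injOn (fun v => g v w) ?_ ?_
  · intro v hv
    exact (mem_orb hw).mpr ⟨g v, (hg v hv).1, rfl⟩
  · intro v hv v' hv' e
    have h1 := (eq_of_rigid h (hg v' hv').1 (hg v hv).1 cw cw e).2 u hu.1
    rw [(hg v hv).2, (hg v' hv').2, h1]

theorem one_aut : IsAut (fun x => x) := by
  refine ⟨⟨fun x hx => hx, fun x _ y _ h => h, fun x hx => ⟨x, hx, rfl⟩⟩, fun u v _ _ => rfl⟩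

theorem t_ORB (h : S_RIGID) : S_ORB := by
  classical
  intro m U hne hU hsum
  let Y : Finset (Fin 8 → ℤ) := U.biUnion (orb m)
  have hYm : ∀ v, v ∈ Y ↔ ∃ u ∈ U, ∃ g, IsAut g ∧ v = g u := by
    intro v
    rw [Finset.mem_biUnion]
    constructor
    · rintro ⟨u, hu, hv⟩
      exact ⟨u, hu, (mem_orb (hU u hu).1).mp hv⟩
    · rintro ⟨u, hu, hv⟩
      exact ⟨u, hu, (mem_orb (hU u hu).1).mpr hv⟩
  have hYs : ∀ v ∈ Y, InShell m v := by
    intro v hv
    obtain ⟨u, hu, g, hg, rfl⟩ := (hYm v).mp hv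
    exact (aut_shell hg (hU u hu).1.1).mpr (hU u hu).1
  -- invariance
  have hinv : ∀ g, IsAut g → ∀ v, InShell m v → (g v ∈ Y ↔ v ∈ Y) := by
    intro g hg v hv
    constructor
    · intro hgv
      obtain ⟨u, hu, k, hk, e⟩ := (hYm _).mp hgv
      refine (hYm v).mpr ⟨u, hu, quo g k, quo_aut hg hk, ?_⟩
      apply hg.1.injOn hv.1 (quo_spec hg hk (hU u hu).1.1).1
      rw [e, (quo_spec hg hk (hU u hu).1.1).2]
    · intro hvY
      obtain ⟨u, hu, k, hk, rfl⟩ := (hYm _).mp hvY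
      exact (hYm _).mpr ⟨u, hu, _, comp_aut hg hk, rfl⟩
  -- the sum
  obtain ⟨u₀, hu₀⟩ := hne
  have hcard : ∀ u ∈ U, (orb m u).card = (orb m u₀).card := fun u hu =>
    le_antisymm (card_orb_le h (hU u hu).1 (hU u₀ hu₀).1 (hU u₀ hu₀).2)
      (card_orb_le h (hU u₀ hu₀).1 (hU u hu).1 (hU u hu).2)
  have hdisj : (U : Set (Fin 8 → ℤ)).PairwiseDisjoint (orb m) := by
    intro u hu w hw huw
    rw [Function.onFun, Finset.disjoint_left]
    intro v hv hv'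
    obtain ⟨g, hg, e⟩ := (mem_orb (hU u hu).1).mp hv
    obtain ⟨g', hg', e'⟩ := (mem_orb (hU w hw).1).mp hv'
    exact huw (eq_of_rigid h hg' hg (hU u hu).2 (hU w hw).2 (by rw [← e, e'])).1
  have hsumY : ∑ v ∈ Y, (rootSum v - 480 * (m : ℤ) ^ 4) = 0 := by
    rw [Finset.sum_biUnion hdisj]
    have h1 : ∀ u ∈ U, ∑ v ∈ orb m u, (rootSum v - 480 * (m : ℤ) ^ 4)
        = (orb m u₀).card * (rootSum u - 480 * (m : ℤ) ^ 4) := by
      intro u hu
      rw [← hcard u hu, ← nsmul_eq_mul, ← Finset.sum_const]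
      refine Finset.sum_congr rfl fun v hv => ?_
      obtain ⟨g, hg, rfl⟩ := (mem_orb (hU u hu).1).mp hv
      rw [rootSum_aut hg (hU u hu).1.1]
    rw [Finset.sum_congr rfl h1, ← Finset.mul_sum, hsum, mul_zero]
  -- sums over the shell
  have hYsub : Y ⊆ shell m := fun v hv => (mem_shell m v).mpr (hYs v hv)
  have hconv : ∀ f : (Fin 8 → ℤ) → ℝ, ∑ v ∈ shell m, (if v ∈ Y then (1 : ℝ) else 0) * f v
      = ∑ v ∈ Y, f v := by
    intro f
    have h1 : ∀ v ∈ shell m, (if v ∈ Y then (1 : ℝ) else 0) * f v = if v ∈ Y then f v else 0 := by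
      intro v _
      split_ifs <;> simp
    rw [Finset.sum_congr rfl h1, Finset.sum_ite_mem, Finset.inter_eq_right.mpr hYsub]
  have hmain := (main1 Pool.Agent.Helper97.E8C.t_AUT Pool.Agent.Helper97.E8C.t_TRANS m
    (fun v => if v ∈ Y then (1 : ℝ) else 0) (by
      intro g hg v hv
      have := hinv g hg v ((mem_shell m v).mp hv)
      simp only [this])).1.2 (by
      rw [hconv]
      exact_mod_cast hsumY)
  refine ⟨Y, hYs, ⟨u₀, (hYm u₀).mpr ⟨u₀, hu₀, _, one_aut, rfl⟩⟩, ?_⟩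
  intro p hp
  have h1 := hmain p hp
  have h2 := hconv (fun _ => 1)
  simp only [mul_one] at h2
  rw [hconv, h2] at h1
  simp only [one_mul]
  exact h1

end Pool.Agent.Helper22E
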