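import Pool.Agent.Helper22E.Stm

/-!
# Piece RIGID: an automorphism of `E_8` which maps the open chamber into itself is the identity
-/

set_option autoImplicit false

namespace Pool.Agent.Helper22E

open Pool.Agent.Q10.E8 Finset

namespace Rigid

/-- the simple roots (doubled coordinates) -/
def sr : Fin 8 → Fin 8 → ℤ := ![
  ![1, -1, -1, -1, -1, -1, -1, 1],
  ![2, 2, 0, 0, 0, 0, 0, 0],
  ![-2, 2, 0, 0, 0, 0, 0, 0],
  ![0, -2, 2, 0, 0, 0, 0, 0],
  ![0, 0, -2, 2, 0, 0, 0, 0],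
  ![0, 0, 0, -2, 2, 0, 0, 0],
  ![0, 0, 0, 0, -2, 2, 0, 0],
  ![0, 0, 0, 0, 0, -2, 2, 0]]

/-- the simple roots as structures -/
def SL : List V8 := [
  ⟨.ofNat 1, .negSucc 0, .negSucc 0, .negSucc 0, .negSucc 0, .negSucc 0, .negSucc 0, .ofNat 1⟩,
  ⟨.ofNat 2, .ofNat 2, .ofNat 0, .ofNat 0, .ofNat 0, .ofNat 0, .ofNat 0, .ofNat 0⟩,
  ⟨.negSucc 1, .ofNat 2, .ofNat 0, .ofNat 0, .ofNat 0, .ofNat 0, .ofNat 0, .ofNat 0⟩,
  ⟨.ofNat 0, .negSucc 1, .ofNat 2, .ofNat 0, .ofNat 0, .ofNat 0, .ofNat 0, .ofNat 0⟩,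
  ⟨.ofNat 0, .ofNat 0, .negSucc 1, .ofNat 2, .ofNat 0, .ofNat 0, .ofNat 0, .ofNat 0⟩,
  ⟨.ofNat 0, .ofNat 0, .ofNat 0, .negSucc 1, .ofNat 2, .ofNat 0, .ofNat 0, .ofNat 0⟩,
  ⟨.ofNat 0, .ofNat 0, .ofNat 0, .ofNat 0, .negSucc 1, .ofNat 2, .ofNat 0, .ofNat 0⟩,
  ⟨.ofNat 0, .ofNat 0, .ofNat 0, .ofNat 0, .ofNat 0, .negSucc 1, .ofNat 2, .ofNat 0⟩]

/-- four times the coefficients in the basis of the simple roots -/
def K (r : Fin 8 → ℤ) : Fin 8 → ℤ := ![
  4 * r 7,
  r 0 + r 1 + r 2 + r 3 + r 4 + r 5 + r 6 + 5 * r 7,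
  -r 0 + r 1 + r 2 + r 3 + r 4 + r 5 + r 6 + 7 * r 7,
  2 * (r 2 + r 3 + r 4 + r 5 + r 6) + 10 * r 7,
  2 * (r 3 + r 4 + r 5 + r 6) + 8 * r 7,
  2 * (r 4 + r 5 + r 6) + 6 * r 7,
  2 * (r 5 + r 6) + 4 * r 7,
  2 * r 6 + 2 * r 7]

/-- the same for structures -/
def KL (r : V8) : List ℤ := [
  4 * r.a7,
  r.a0 + r.a1 + r.a2 + r.a3 + r.a4 + r.a5 + r.a6 + 5 * r.a7,
  -r.a0 + r.a1 + r.a2 + r.a3 + r.a4 + r.a5 + r.a6 + 7 * r.a7,
  2 * (r.a2 + r.a3 + r.a4 + r.a5 + r.a6) + 10 * r.a7,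
  2 * (r.a3 + r.a4 + r.a5 + r.a6) + 8 * r.a7,
  2 * (r.a4 + r.a5 + r.a6) + 6 * r.a7,
  2 * (r.a5 + r.a6) + 4 * r.a7,
  2 * r.a6 + 2 * r.a7]

/-- positive roots -/
def posb (r : V8) : Bool := (KL r).all fun x => decide (0 ≤ x)

/-- negative roots -/
def negb (r : V8) : Bool := (KL r).all fun x => decide (x ≤ 0)

theorem pos_or_neg : AllR.all (fun r => posb r || negb r) = true := by
  decide +kernel

/-- product with the sum of the positive roots -/
def dR (r : V8) : ℤ := 4 * r.a1 + 8 * r.a2 + 12 * r.a3 + 16 * r.a4 + 20 * r.a5 + 24 * r.a6 + 92 * r.a7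

theorem simple_check : (AllR.filter posb).all (fun r => !(dR r == 8) || SL.any (V8.eq r)) = true := by
  decide +kernel

theorem KL_iff (r : V8) : (∀ x ∈ KL r, 0 ≤ x) ↔ ∀ j, 0 ≤ K r.f j := by
  simp only [KL, List.mem_cons, List.not_mem_nil, or_false, forall_eq_or_imp, forall_eq]
  constructor
  · rintro ⟨h0, h1, h2, h3, h4, h5, h6, h7⟩ j
    fin_cases j <;> simp [K, V8.f] <;> linarith
  · intro h
    have h0 := h 0
    have h1 := h 1
    have h2 := h 2
    have h3 := h 3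
    have h4 := h 4
    have h5 := h 5
    have h6 := h 6
    have h7 := h 7
    simp [K, V8.f] at h0 h1 h2 h3 h4 h5 h6 h7
    refine ⟨by linarith, by linarith, by linarith, by linarith, by linarith, by linarith,
      by linarith, by linarith⟩

theorem KL_iff' (r : V8) : (∀ x ∈ KL r, x ≤ 0) ↔ ∀ j, K r.f j ≤ 0 := by
  simp only [KL, List.mem_cons, List.not_mem_nil, or_false, forall_eq_or_imp, forall_eq]
  constructor
  · rintro ⟨h0, h1, h2, h3, h4, h5, h6, h7⟩ j
    fin_cases j <;> simp [K, V8.f] <;> linarith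
  · intro h
    have h0 := h 0
    have h1 := h 1
    have h2 := h 2
    have h3 := h 3
    have h4 := h 4
    have h5 := h 5
    have h6 := h 6
    have h7 := h 7
    simp [K, V8.f] at h0 h1 h2 h3 h4 h5 h6 h7
    refine ⟨by linarith, by linarith, by linarith, by linarith, by linarith, by linarith,
      by linarith, by linarith⟩

theorem posb_iff (r : V8) : posb r = true ↔ ∀ j, 0 ≤ K r.f j := by
  rw [← KL_iff]
  simp [posb]

theorem negb_iff (r : V8) : negb r = true ↔ ∀ j, K r.f j ≤ 0 := by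
  rw [← KL_iff']
  simp [negb]

theorem K_dot (r v : Fin 8 → ℤ) : 4 * ∑ i, r i * v i = ∑ j, K r j * ∑ i, sr j i * v i := by
  simp only [Fin.sum_univ_eight]
  simp [K, sr]
  ring

theorem K_zero (r : Fin 8 → ℤ) (h : ∀ j, K r j = 0) : ∀ i, r i = 0 := by
  have h0 := h 0
  have h1 := h 1
  have h2 := h 2
  have h3 := h 3
  have h4 := h 4
  have h5 := h 5
  have h6 := h 6
  have h7 := h 7
  simp [K] at h0 h1 h2 h3 h4 h5 h6 h7
  intro i
  fin_cases i <;> simp <;> omega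

theorem ch_pos {v : Fin 8 → ℤ} (hv : Ch v) (j : Fin 8) : 0 < ∑ i, sr j i * v i := by
  obtain ⟨-, h0, h1, h2, h3, h4, h5, h6, h7⟩ := hv
  obtain ⟨h8, h9⟩ := abs_lt.1 h1
  have h10 := le_abs_self (v 0)
  have h11 := neg_abs_le (v 0)
  simp only [Fin.sum_univ_eight]
  fin_cases j <;> simp [sr] <;> linarith

theorem sign_root {r v : Fin 8 → ℤ} (hr : r ∈ shell 1) (hv : Ch v) :
    0 < ∑ i, r i * v i ↔ ∀ j, 0 ≤ K r j := by
  have hr1 := (mem_shell 1 r).1 hr
  have hr2 := complete r hr1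
  obtain ⟨r', hr', rfl⟩ := List.mem_map.1 hr2
  have hpn := List.all_eq_true.mp pos_or_neg r' hr'
  rw [Bool.or_eq_true, posb_iff, negb_iff] at hpn
  have hK := K_dot r'.f v
  constructor
  · intro h
    rcases hpn with h1 | h1
    · exact h1
    · exfalso
      have h2 : ∑ j, K r'.f j * ∑ i, sr j i * v i ≤ 0 :=
        Finset.sum_nonpos fun j _ => mul_nonpos_of_nonpos_of_nonneg (h1 j) (ch_pos hv j).le
      linarith
  · intro h
    have h2 : ∀ j ∈ (Finset.univ : Finset (Fin 8)), 0 ≤ K r'.f j * ∑ i, sr j i * v i :=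
      fun j _ => mul_nonneg (h j) (ch_pos hv j).le
    have h3 := Finset.sum_nonneg h2
    rcases h3.lt_or_eq with h4 | h4
    · linarith
    · exfalso
      have h5 := (Finset.sum_eq_zero_iff_of_nonneg h2).1 h4.symm
      have h6 := K_zero r'.f fun j => by
        have := h5 j (Finset.mem_univ j)
        rcases mul_eq_zero.1 this with h7 | h7
        · exact h7
        · exact absurd h7 (ch_pos hv j).ne'
      have h7 := hr1.2
      rw [Finset.sum_eq_zero fun i _ => by rw [h6 i]; rfl] at h7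
      norm_num at h7

/-- the positive roots -/
noncomputable def P : Finset (Fin 8 → ℤ) := (shell 1).filter fun r => ∀ j, 0 ≤ K r j

theorem P_eq : P = ((AllR.filter posb).map V8.f).toFinset := by
  ext r
  rw [P, Finset.mem_filter, shell_one, List.mem_toFinset, List.mem_toFinset, List.mem_map,
    List.mem_map]
  constructor
  · rintro ⟨⟨r', hr', rfl⟩, h⟩
    exact ⟨r', List.mem_filter.2 ⟨hr', (posb_iff r').2 h⟩, rfl⟩
  · rintro ⟨r', hr', rfl⟩
    obtain ⟨h1, h2⟩ := List.mem_filter.1 hr'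
    exact ⟨⟨r', h1, rfl⟩, (posb_iff r').1 h2⟩

/-- the sum of the positive roots -/
def R2 : Fin 8 → ℤ := ![0, 4, 8, 12, 16, 20, 24, 92]

theorem sumP (i : Fin 8) : ∑ s ∈ P, s i = R2 i := by
  have hnd : ((AllR.filter posb).map V8.f).Nodup :=
    ((nodup_of_pwne _ AllR_pwne).filter _).map V8.f_inj
  rw [P_eq, List.sum_toFinset _ hnd, List.map_map]
  revert i
  decide +kernel

theorem sum_ip (r : Fin 8 → ℤ) : ∑ s ∈ P, ∑ i, r i * s i = ∑ i, r i * R2 i := by
  rw [Finset.sum_comm]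
  refine Finset.sum_congr rfl fun i _ => ?_
  rw [← Finset.mul_sum, sumP]

theorem SL_f : SL.map V8.f = List.ofFn sr := by
  decide +kernel

theorem mem_simple {r : Fin 8 → ℤ} (hr : r ∈ P) (h : ∑ i, r i * R2 i = 8) : ∃ j, r = sr j := by
  rw [P_eq, List.mem_toFinset] at hr
  obtain ⟨r', hr', rfl⟩ := List.mem_map.1 hr
  have h1 := List.all_eq_true.mp simple_check r' hr'
  rw [Bool.or_eq_true] at h1
  have h2 : dR r' = 8 := by
    rw [← h]
    simp only [Fin.sum_univ_eight]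
    simp [dR, R2, V8.f]
    ring
  rcases h1 with h1 | h1
  · rw [h2] at h1
    exact absurd h1 (by decide)
  · have h3 := List.mem_map_of_mem (f := V8.f) (mem_of_any h1)
    rw [SL_f, List.mem_ofFn] at h3
    obtain ⟨j, hj⟩ := h3
    exact ⟨j, hj.symm⟩

theorem sr_shell (j : Fin 8) : sr j ∈ shell 1 := by
  rw [mem_shell]
  unfold InShell IsE8
  revert j
  decide +kernel

theorem sr_R2 (j : Fin 8) : ∑ i, sr j i * R2 i = 8 := by
  revert j
  decide +kernel

/-- the Gram matrix -/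
def C (j k : Fin 8) : ℤ := ∑ i, sr j i * sr k i

/-- number of neighbours -/
def f1 (j : Fin 8) : ℕ := ∑ k, if C j k = -4 then 1 else 0

/-- second invariant -/
def f2 (j : Fin 8) : ℕ := ∑ k, if C j k = -4 then f1 k else 0

/-- third invariant -/
def f3 (j : Fin 8) : ℕ := ∑ k, if C j k = -4 then f2 k else 0

theorem f3_inj : ∀ j k : Fin 8, f3 j = f3 k → j = k := by
  decide +kernel

theorem perm_id (π : Fin 8 → Fin 8) (hπ : Function.Injective π)
    (h : ∀ j k, C (π j) (π k) = C j k) (j : Fin 8) : π j = j := by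
  have hb : Function.Bijective π := Finite.injective_iff_bijective.1 hπ
  have hs : ∀ (f : Fin 8 → ℕ), ∑ k, f (π k) = ∑ k, f k := fun f => hb.sum_comp f
  have e1 : ∀ j, f1 (π j) = f1 j := by
    intro j
    unfold f1
    rw [← hs]
    exact Finset.sum_congr rfl fun k _ => by rw [h]
  have e2 : ∀ j, f2 (π j) = f2 j := by
    intro j
    unfold f2
    rw [← hs]
    exact Finset.sum_congr rfl fun k _ => by rw [h, e1]
  have e3 : ∀ j, f3 (π j) = f3 j := by
    intro j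
    unfold f3
    rw [← hs]
    exact Finset.sum_congr rfl fun k _ => by rw [h, e2]
  exact f3_inj _ _ (e3 j)

theorem eq_of_sr (x y : Fin 8 → ℤ) (h : ∀ j, ∑ i, x i * sr j i = ∑ i, y i * sr j i) : x = y := by
  have h0 := h 0
  have h1 := h 1
  have h2 := h 2
  have h3 := h 3
  have h4 := h 4
  have h5 := h 5
  have h6 := h 6
  have h7 := h 7
  simp only [Fin.sum_univ_eight] at h0 h1 h2 h3 h4 h5 h6 h7
  simp [sr] at h0 h1 h2 h3 h4 h5 h6 h7
  funext i
  fin_cases i <;> simp <;> omega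

end Rigid

open Rigid in
theorem t_RIGID : S_RIGID := by
  intro g hg v w hv hw hgv
  have hP : ∀ r ∈ P, g r ∈ P := by
    intro r hr
    obtain ⟨h1, h2⟩ := Finset.mem_filter.1 hr
    have h3 := (mem_shell 1 r).1 h1
    have h4 : g r ∈ shell 1 := by
      rw [mem_shell]
      exact (aut_shell hg h3.1).2 h3
    refine Finset.mem_filter.2 ⟨h4, (sign_root h4 hw).1 ?_⟩
    rw [← hgv, hg.2 r v h3.1 hv.1]
    exact (sign_root h1 hv).2 h2
  have hE : ∀ r ∈ P, IsE8 r := fun r hr => ((mem_shell 1 r).1 (Finset.mem_filter.1 hr).1).1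
  have hsum : ∀ f : (Fin 8 → ℤ) → ℤ, ∑ s ∈ P, f (g s) = ∑ s ∈ P, f s := by
    intro f
    refine Finset.sum_nbij g hP ?_ ?_ (fun _ _ => rfl)
    · intro a ha b hb hab
      exact hg.1.injOn (hE a ha) (hE b hb) hab
    · intro s hs
      rw [Finset.mem_coe] at hs
      obtain ⟨r, hr, rfl⟩ := hg.1.surjOn (hE s hs)
      obtain ⟨h1, h2⟩ := Finset.mem_filter.1 hs
      have h3 := (mem_shell 1 (g r)).1 h1
      have h4 : r ∈ shell 1 := by
        rw [mem_shell]
        exact (aut_shell hg hr).1 h3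
      refine ⟨r, Finset.mem_coe.2 (Finset.mem_filter.2 ⟨h4, (sign_root h4 hv).1 ?_⟩), rfl⟩
      rw [← hg.2 r v hr hv.1, hgv]
      exact (sign_root h1 hw).2 h2
  have hA : ∀ r ∈ P, ∑ i, g r i * R2 i = ∑ i, r i * R2 i := by
    intro r hr
    rw [← sum_ip, ← sum_ip, ← hsum]
    exact Finset.sum_congr rfl fun s hs => hg.2 r s (hE r hr) (hE s hs)
  have hsrP : ∀ j, sr j ∈ P := fun j =>
    Finset.mem_filter.2 ⟨sr_shell j, (sign_root (sr_shell j) hv).1 (ch_pos hv j)⟩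
  have hex : ∀ j, ∃ k, g (sr j) = sr k := fun j =>
    mem_simple (hP _ (hsrP j)) (by rw [hA _ (hsrP j), sr_R2])
  choose π hπ using hex
  have hC : ∀ j k, C (π j) (π k) = C j k := by
    intro j k
    unfold C
    rw [← hπ j, ← hπ k]
    exact hg.2 _ _ (hE _ (hsrP j)) (hE _ (hsrP k))
  have hinj : Function.Injective π := by
    intro j k hjk
    have h1 : g (sr j) = g (sr k) := by rw [hπ, hπ, hjk]
    have h2 := hg.1.injOn (hE _ (hsrP j)) (hE _ (hsrP k)) h1
    revert h2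
    revert j k
    have : ∀ j k, sr j = sr k → j = k := by decide +kernel
    intro j k _ _ h
    exact this j k h
  have hfix : ∀ j, g (sr j) = sr j := fun j => by rw [hπ, perm_id π hinj hC j]
  intro u hu
  refine eq_of_sr _ _ fun j => ?_
  have h1 := hg.2 u (sr j) hu (hE _ (hsrP j))
  rw [hfix j] at h1
  exact h1

end Pool.Agent.Helper22E
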