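import Pool.Agent.Helper22E.Stm
import Pool.Agent.H591R2.ThreeSq

/-!
# Piece THREE: sums of three different odd squares prime to three
-/

namespace Pool.Agent.Helper22E

theorem sq8 {a b c : ℕ} (h : (a ^ 2 + b ^ 2 + c ^ 2) % 8 = 3) : a % 2 = 1 := by
  have ha := Nat.pow_mod a 2 8
  have hb := Nat.pow_mod b 2 8
  have hc := Nat.pow_mod c 2 8
  have h1 : a % 8 < 8 := Nat.mod_lt _ (by norm_num)
  have h2 : b % 8 < 8 := Nat.mod_lt _ (by norm_num)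
  have h3 : c % 8 < 8 := Nat.mod_lt _ (by norm_num)
  have hb' : b ^ 2 % 8 = 0 ∨ b ^ 2 % 8 = 1 ∨ b ^ 2 % 8 = 4 := by
    rw [hb]; interval_cases (b % 8) <;> simp
  have hc' : c ^ 2 % 8 = 0 ∨ c ^ 2 % 8 = 1 ∨ c ^ 2 % 8 = 4 := by
    rw [hc]; interval_cases (c % 8) <;> simp
  by_contra hodd
  have ha' : a ^ 2 % 8 = 0 ∨ a ^ 2 % 8 = 4 := by
    rw [ha]
    have : a % 8 % 2 = 0 := by omega
    interval_cases (a % 8) <;> simp_all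
  omega

theorem sq9 {a b c : ℕ} (h : (a ^ 2 + b ^ 2 + c ^ 2) % 9 = 3 ∨ (a ^ 2 + b ^ 2 + c ^ 2) % 9 = 6) :
    a % 3 ≠ 0 := by
  have key : ∀ d : ℕ, (d % 3 = 0 ∧ d ^ 2 % 9 = 0) ∨ (d ^ 2 % 3 = 1) := by
    intro d
    have hd := Nat.pow_mod d 2 9
    have h1 : d % 9 < 9 := Nat.mod_lt _ (by norm_num)
    have h2 : d % 3 = d % 9 % 3 := by omega
    have h3 : d ^ 2 % 3 = d ^ 2 % 9 % 3 := by omega
    rw [h2, h3, hd]
    interval_cases (d % 9) <;> simp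
  intro ha
  rcases key a with ⟨_, h1⟩ | h1
  · rcases key b with ⟨_, h2⟩ | h2 <;> rcases key c with ⟨_, h3⟩ | h3 <;> omega
  · have := Nat.pow_mod a 2 3
    rw [ha] at this
    omega

theorem sq5 {a c : ℕ} (h : (2 * a ^ 2 + c ^ 2) % 5 = 0) : (2 * a ^ 2 + c ^ 2) % 25 = 0 := by
  have ha := Nat.pow_mod a 2 5
  have hc := Nat.pow_mod c 2 5
  have h1 : a % 5 < 5 := Nat.mod_lt _ (by norm_num)
  have h3 : c % 5 < 5 := Nat.mod_lt _ (by norm_num)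
  have hc' : c ^ 2 % 5 = 0 ∨ c ^ 2 % 5 = 1 ∨ c ^ 2 % 5 = 4 := by
    rw [hc]; interval_cases (c % 5) <;> simp
  have ha' : a ^ 2 % 5 = 0 ∨ a ^ 2 % 5 = 1 ∨ a ^ 2 % 5 = 4 := by
    rw [ha]; interval_cases (a % 5) <;> simp
  have ha0 : a ^ 2 % 5 = 0 := by omega
  have hc0 : c ^ 2 % 5 = 0 := by omega
  have h5a : 5 ∣ a := (by norm_num : Nat.Prime 5).dvd_of_dvd_pow (Nat.dvd_of_mod_eq_zero ha0)
  have h5c : 5 ∣ c := (by norm_num : Nat.Prime 5).dvd_of_dvd_pow (Nat.dvd_of_mod_eq_zero hc0)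
  obtain ⟨u, rfl⟩ := h5a
  obtain ⟨v, rfl⟩ := h5c
  have : 2 * (5 * u) ^ 2 + (5 * v) ^ 2 = 25 * (2 * u ^ 2 + v ^ 2) := by ring
  rw [this]
  simp

theorem three (n : ℕ) (h8 : n % 8 = 3) (h9 : n % 9 = 3 ∨ n % 9 = 6) (h5 : n % 5 = 0)
    (h25 : n % 25 ≠ 0) (x y z : ℤ) (h : x ^ 2 + y ^ 2 + z ^ 2 = n) :
    ∃ Y : Finset ℕ, Y.card = 3 ∧ ∑ y ∈ Y, y ^ 2 = n ∧ ∀ y ∈ Y, y % 2 = 1 ∧ y % 3 ≠ 0 := by
  obtain ⟨a, ha⟩ : ∃ a, a = x.natAbs := ⟨_, rfl⟩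
  obtain ⟨b, hb⟩ : ∃ a, a = y.natAbs := ⟨_, rfl⟩
  obtain ⟨c, hc⟩ : ∃ a, a = z.natAbs := ⟨_, rfl⟩
  have hn : a ^ 2 + b ^ 2 + c ^ 2 = n := by
    zify
    rw [ha, hb, hc, ← h]
    simp [sq_abs]
  have hab : a ≠ b := by
    rintro rfl
    exact h25 (by rw [← hn] at h5 ⊢; have := @sq5 a c (by rw [two_mul]; exact h5); rw [two_mul] at this; exact this)
  have hac : a ≠ c := by
    rintro rfl
    refine h25 ?_
    have e : 2 * a ^ 2 + b ^ 2 = n := by rw [← hn]; ring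
    rw [← e]
    exact sq5 (by rw [e]; exact h5)
  have hbc : b ≠ c := by
    rintro rfl
    refine h25 ?_
    have e : 2 * b ^ 2 + a ^ 2 = n := by rw [← hn]; ring
    rw [← e]
    exact sq5 (by rw [e]; exact h5)
  refine ⟨{a, b, c}, Finset.card_eq_three.2 ⟨a, b, c, hab, hac, hbc, rfl⟩, ?_, ?_⟩
  · rw [Finset.sum_insert (by simp [hab, hac]), Finset.sum_insert (by simp [hbc]),
      Finset.sum_singleton, ← hn]
    ring
  · intro w hw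
    simp only [Finset.mem_insert, Finset.mem_singleton] at hw
    rcases hw with rfl | rfl | rfl
    · exact ⟨sq8 (hn ▸ h8), sq9 (hn ▸ h9)⟩
    · have e : w ^ 2 + a ^ 2 + c ^ 2 = n := by rw [← hn]; ring
      exact ⟨sq8 (e ▸ h8), sq9 (e ▸ h9)⟩
    · have e : w ^ 2 + a ^ 2 + b ^ 2 = n := by rw [← hn]; ring
      exact ⟨sq8 (e ▸ h8), sq9 (e ▸ h9)⟩

theorem t_THREE : S_THREE := by
  intro n h8 h9 h5 h25
  obtain ⟨x, y, z, h⟩ := Pool.Agent.H591R2.three_squares h8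
  exact three n h8 h9 h5 h25 x y z h

end Pool.Agent.Helper22E
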