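import Pool.Agent.Helper22E.ORB
import Pool.Agent.Helper22E.GRP
import Pool.Agent.Helper22E.RIGID
import Pool.Agent.Helper22E.FORM8
import Pool.Agent.Helper22E.THREE
import Pool.Agent.Helper22E.INEQ
import Pool.Agent.Helper22E.ASM
import Pool.Agent.Helper22E.NumF

/-!
# The group part with a bound for the number of points, and the conclusion

`t_ORB'` and `t_GRP'` follow `t_ORB` (ORB.lean) and `t_GRP` (GRP.lean).
-/

set_option autoImplicit false

namespace Pool.Agent.Helper22E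

open Pool.Agent.Q10.E8 Pool.Agent.Helper2.E8C Finset

/-- ORB with the number of points -/
def S_ORB' : Prop := ∀ (m : ℕ) (U : Finset (Fin 8 → ℤ)), U.Nonempty → (∀ u ∈ U, InShell m u ∧ Ch u) →
  ∑ u ∈ U, (rootSum u - 480 * (m : ℤ) ^ 4) = 0 →
  ∃ Y : Finset (Fin 8 → ℤ), (∀ v ∈ Y, InShell m v) ∧ IsDesign 11 m Y ∧ Y.card ≤ 240 ^ 8 * U.card

/-- GRP with the number of points -/
def S_GRP' : Prop := ∀ (m : ℕ) (F : Finset (Finset ℕ)), F.Nonempty → (∀ S ∈ F, Good m S) →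
  ∑ S ∈ F, H S = 0 → ∃ Y : Finset (Fin 8 → ℤ), (∀ v ∈ Y, InShell m v) ∧ IsDesign 11 m Y ∧
    Y.card ≤ 240 ^ 8 * (2 * F.card)

theorem card_orb_bd {m : ℕ} {u : Fin 8 → ℤ} (hu : InShell m u) : (orb m u).card ≤ 240 ^ 8 := by
  classical
  have key : ∀ v : Fin 8 → ℤ, ∃ g : (Fin 8 → ℤ) → (Fin 8 → ℤ), v ∈ orb m u → IsAut g ∧ v = g u := by
    intro v
    by_cases hv : v ∈ orb m u
    · obtain ⟨g, hg⟩ := (mem_orb hu).mp hv
      exact ⟨g, fun _ => hg⟩
    · exact ⟨id, fun hc => absurd hc hv⟩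
  choose g hg using key
  have hc : (Fintype.piFinset (fun _ : Fin 8 => shell 1)).card = 240 ^ 8 := by
    rw [Fintype.card_piFinset_const, card_roots]
  rw [← hc]
  refine Finset.card_le_card_of_injOn (fun v j => g v (Rigid.sr j)) ?_ ?_
  · intro v hv
    rw [Finset.mem_coe, Fintype.mem_piFinset]
    intro j
    have h1 := (mem_shell 1 _).1 (Rigid.sr_shell j)
    exact (mem_shell 1 _).2 ((aut_shell (hg v hv).1 h1.1).2 h1)
  · intro v hv v' hv' e
    have h2 : ∀ j, g v (Rigid.sr j) = g v' (Rigid.sr j) := fun j => congrFun e j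
    have ha := (hg v hv).1
    have ha' := (hg v' hv').1
    have h3 : g v u = g v' u := by
      have q := quo_spec ha' ha hu.1
      have h4 : quo (g v') (g v) u = u := by
        apply Rigid.eq_of_sr
        intro j
        have h1 := ((mem_shell 1 _).1 (Rigid.sr_shell j)).1
        rw [← ha'.2 _ _ q.1 h1, q.2, ← h2 j, ha.2 _ _ hu.1 h1]
      rw [← q.2, h4]
    rw [(hg v hv).2, (hg v' hv').2, h3]

theorem t_ORB' (h : S_RIGID) : S_ORB' := by
  classical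
  intro m U hne hU hsum
  let Y : Finset (Fin 8 → ℤ) := U.biUnion (orb m)
  have hYm : ∀ v, v ∈ Y ↔ ∃ u ∈ U, ∃ g, IsAut g ∧ v = g u := by
    intro v
    rw [Finset.mem_biUnion]
    constructor
    · rintro ⟨u, hu, hv⟩
      exact ⟨u, hu, (mem_orb (hU u hu).1).mp hv⟩
    · rintro ⟨u, hu, hv⟩
      exact ⟨u, hu, (mem_orb (hU u hu).1).mpr hv⟩
  have hYs : ∀ v ∈ Y, InShell m v := by
    intro v hv
    obtain ⟨u, hu, g, hg, rfl⟩ := (hYm v).mp hv
    exact (aut_shell hg (hU u hu).1.1).mpr (hU u hu).1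
  -- invariance
  have hinv : ∀ g, IsAut g → ∀ v, InShell m v → (g v ∈ Y ↔ v ∈ Y) := by
    intro g hg v hv
    constructor
    · intro hgv
      obtain ⟨u, hu, k, hk, e⟩ := (hYm _).mp hgv
      refine (hYm v).mpr ⟨u, hu, quo g k, quo_aut hg hk, ?_⟩
      apply hg.1.injOn hv.1 (quo_spec hg hk (hU u hu).1.1).1
      rw [e, (quo_spec hg hk (hU u hu).1.1).2]
    · intro hvY
      obtain ⟨u, hu, k, hk, rfl⟩ := (hYm _).mp hvY
      exact (hYm _).mpr ⟨u, hu, _, comp_aut hg hk, rfl⟩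
  -- the sum
  obtain ⟨u₀, hu₀⟩ := hne
  have hcard : ∀ u ∈ U, (orb m u).card = (orb m u₀).card := fun u hu =>
    le_antisymm (card_orb_le h (hU u hu).1 (hU u₀ hu₀).1 (hU u₀ hu₀).2)
      (card_orb_le h (hU u₀ hu₀).1 (hU u hu).1 (hU u hu).2)
  have hdisj : (U : Set (Fin 8 → ℤ)).PairwiseDisjoint (orb m) := by
    intro u hu w hw huw
    rw [Function.onFun, Finset.disjoint_left]
    intro v hv hv'
    obtain ⟨g, hg, e⟩ := (mem_orb (hU u hu).1).mp hv
    obtain ⟨g', hg', e'⟩ := (mem_orb (hU w hw).1).mp hv'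
    exact huw (eq_of_rigid h hg' hg (hU u hu).2 (hU w hw).2 (by rw [← e, e'])).1
  have hsumY : ∑ v ∈ Y, (rootSum v - 480 * (m : ℤ) ^ 4) = 0 := by
    rw [Finset.sum_biUnion hdisj]
    have h1 : ∀ u ∈ U, ∑ v ∈ orb m u, (rootSum v - 480 * (m : ℤ) ^ 4)
        = (orb m u₀).card * (rootSum u - 480 * (m : ℤ) ^ 4) := by
      intro u hu
      rw [← hcard u hu, ← nsmul_eq_mul, ← Finset.sum_const]
      refine Finset.sum_congr rfl fun v hv => ?_
      obtain ⟨g, hg, rfl⟩ := (mem_orb (hU u hu).1).mp hv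
      rw [rootSum_aut hg (hU u hu).1.1]
    rw [Finset.sum_congr rfl h1, ← Finset.mul_sum, hsum, mul_zero]
  -- sums over the shell
  have hYsub : Y ⊆ shell m := fun v hv => (mem_shell m v).mpr (hYs v hv)
  have hconv : ∀ f : (Fin 8 → ℤ) → ℝ, ∑ v ∈ shell m, (if v ∈ Y then (1 : ℝ) else 0) * f v
      = ∑ v ∈ Y, f v := by
    intro f
    have h1 : ∀ v ∈ shell m, (if v ∈ Y then (1 : ℝ) else 0) * f v = if v ∈ Y then f v else 0 := by
      intro v _
      split_ifs <;> simp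
    rw [Finset.sum_congr rfl h1, Finset.sum_ite_mem, Finset.inter_eq_right.mpr hYsub]
  have hmain := (main1 Pool.Agent.Helper97.E8C.t_AUT Pool.Agent.Helper97.E8C.t_TRANS m
    (fun v => if v ∈ Y then (1 : ℝ) else 0) (by
      intro g hg v hv
      have := hinv g hg v ((mem_shell m v).mp hv)
      simp only [this])).1.2 (by
      rw [hconv]
      exact_mod_cast hsumY)
  refine ⟨Y, hYs, ⟨⟨u₀, (hYm u₀).mpr ⟨u₀, hu₀, _, one_aut, rfl⟩⟩, ?_⟩, ?_⟩
  swap
  · rw [mul_comm]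
    exact Finset.card_biUnion_le_card_mul U (orb m) (240 ^ 8) fun u hu => card_orb_bd (hU u hu).1
  intro p hp
  have h1 := hmain p hp
  have h2 := hconv (fun _ => 1)
  simp only [mul_one] at h2
  rw [hconv, h2] at h1
  simp only [one_mul]
  exact h1


theorem t_GRP' (hf : S_FORM8) (ho : S_ORB') : S_GRP' := by
  classical
  intro m F hF hG hH
  have iV : Set.InjOn gV (F : Set (Finset ℕ)) := fun S hS T hT h =>
    gV_inj (hG S hS).1 (hG T hT).1 h
  have iW : Set.InjOn gW (F : Set (Finset ℕ)) := fun S hS T hT h =>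
    gW_inj (hG S hS).1 (hG T hT).1 h
  have hd : Disjoint (F.image gV) (F.image gW) := by
    rw [Finset.disjoint_left]
    intro u hu hu'
    obtain ⟨S, hS, rfl⟩ := Finset.mem_image.1 hu
    obtain ⟨T, hT, h⟩ := Finset.mem_image.1 hu'
    have h1 := congrFun h 0
    unfold gW gV at h1
    rw [if_pos rfl] at h1
    have h2 := gEn_pos (hG S hS).1 (hG S hS).2.1 0
    have h3 := gEn_pos (hG T hT).1 (hG T hT).2.1 0
    linarith
  have a1 : (F.image gV ∪ F.image gW).Nonempty := by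
    obtain ⟨S, hS⟩ := hF
    exact ⟨gV S, Finset.mem_union_left _ (Finset.mem_image_of_mem _ hS)⟩
  have a2 : ∀ u ∈ F.image gV ∪ F.image gW, InShell m u ∧ Ch u := by
    intro u hu
    rcases Finset.mem_union.1 hu with h | h
    · obtain ⟨S, hS, rfl⟩ := Finset.mem_image.1 h
      exact ⟨⟨gV_e8 (hG S hS), gV_sq (hG S hS)⟩, gV_ch (hG S hS)⟩
    · obtain ⟨S, hS, rfl⟩ := Finset.mem_image.1 h
      exact ⟨⟨gW_e8 (hG S hS), (gW_sq_eq S).trans (gV_sq (hG S hS))⟩, gW_ch (hG S hS)⟩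
  have a3 : ∑ u ∈ F.image gV ∪ F.image gW, (rootSum u - 480 * (m : ℤ) ^ 4) = 0 := by
    rw [Finset.sum_union hd, Finset.sum_image iV, Finset.sum_image iW, ← Finset.sum_add_distrib,
      ← hH]
    exact Finset.sum_congr rfl fun S hS => g_pair hf (hG S hS)
  obtain ⟨Y, y1, y2, y3⟩ := ho m _ a1 a2 a3
  refine ⟨Y, y1, y2, y3.trans (Nat.mul_le_mul_left _ ?_)⟩
  refine (Finset.card_union_le _ _).trans ?_
  rw [two_mul]
  exact Nat.add_le_add Finset.card_image_le Finset.card_image_le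

/-- every large shell contains a spherical 11-design of `O(log m)` points -/
theorem main : ∃ C m₀ : ℕ, ∀ m : ℕ, m₀ ≤ m → ∃ Y : Finset (Fin 8 → ℤ),
    (∀ v ∈ Y, InShell m v) ∧ IsDesign 11 m Y ∧ (Y.card : ℝ) ≤ C * Real.log m := by
  obtain ⟨m₀, C, h⟩ := t_NUM t_THREE t_NEG t_BD t_POS t_ASM
  refine ⟨240 ^ 8 * 2 * C, m₀, fun m hm => ?_⟩
  obtain ⟨F, f1, f2, f3, f4⟩ := h m hm
  obtain ⟨Y, y1, y2, y3⟩ := t_GRP' t_FORM8 (t_ORB' t_RIGID) m F f1 f2 f3
  refine ⟨Y, y1, y2, ?_⟩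
  have y4 : (Y.card : ℝ) ≤ ((240 ^ 8 * (2 * F.card) : ℕ) : ℝ) := by exact_mod_cast y3
  refine y4.trans ?_
  rw [Nat.cast_mul, Nat.cast_mul, Nat.cast_mul, Nat.cast_mul]
  have h5 : (0 : ℝ) ≤ ((240 ^ 8 : ℕ) : ℝ) := Nat.cast_nonneg _
  calc ((240 ^ 8 : ℕ) : ℝ) * (((2 : ℕ) : ℝ) * (F.card : ℝ)) ≤
      ((240 ^ 8 : ℕ) : ℝ) * (((2 : ℕ) : ℝ) * ((C : ℝ) * Real.log m)) := by
        refine mul_le_mul_of_nonneg_left (mul_le_mul_of_nonneg_left f4 (by norm_num)) h5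
    _ = _ := by ring

end Pool.Agent.Helper22E
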