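import Pool.Agent.Helper2.E8C.Asm3
import Pool.Agent.Helper97.E8C.Trans

/-!
# Spherical 11-designs inside all large shells of `E_8`: statements of the parts

Coordinates are doubled, as in `Pool.Agent.Q10.E8`: `InShell m v` says that `v/2` is a vector of `E_8` of
norm `2 m`; `rootSum v` is the sum of the eighth powers of the inner products with the 240 roots.
A set `S` of eight distinct positive integers with `sum a^2 = 2 m` gives the two vectors of `S_m` with the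
coordinates `S` (increasing) and with the sign of the smallest coordinate changed.
-/

set_option autoImplicit false

namespace Pool.Agent.Helper22E

open Pool.Agent.Q10.E8 Pool.Agent.Helper2.E8C Finset

/-- power sums of a finite set -/
def ps (k : ℕ) (S : Finset ℕ) : ℤ := ∑ a ∈ S, (a : ℤ) ^ k

/-- the sum of the invariant of degree 8 at the two vectors of `S` -/
def H (S : Finset ℕ) : ℤ := 45 * ps 2 S ^ 4 - 420 * ps 4 S * ps 2 S ^ 2 + 420 * ps 4 S ^ 2
  + 672 * ps 6 S * ps 2 S - 720 * ps 8 S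

/-- eight distinct positive integers with `sum a^2 = 2 m`, one of them larger than the sum of the others -/
def Good (m : ℕ) (S : Finset ℕ) : Prop :=
  S.card = 8 ∧ 0 ∉ S ∧ ∑ a ∈ S, a ^ 2 = 2 * m ∧ ∃ x ∈ S, ∑ a ∈ S.erase x, a < x

/-- NUM: the arithmetic part. -/
def S_NUM : Prop := ∃ m₀ : ℕ, ∀ m : ℕ, m₀ ≤ m → ∃ F : Finset (Finset ℕ), F.Nonempty ∧
  (∀ S ∈ F, Good m S) ∧ ∑ S ∈ F, H S = 0

/-- GRP: the group part. -/
def S_GRP : Prop := ∀ (m : ℕ) (F : Finset (Finset ℕ)), F.Nonempty → (∀ S ∈ F, Good m S) →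
  ∑ S ∈ F, H S = 0 → ∃ Y : Finset (Fin 8 → ℤ), (∀ v ∈ Y, InShell m v) ∧ IsDesign 11 m Y

/-- the open Weyl chamber, in doubled coordinates -/
def Ch (v : Fin 8 → ℤ) : Prop := IsE8 v ∧ 0 < |v 0| ∧ |v 0| < v 1 ∧ v 1 < v 2 ∧ v 2 < v 3 ∧ v 3 < v 4 ∧
  v 4 < v 5 ∧ v 5 < v 6 ∧ |v 0| + v 1 + v 2 + v 3 + v 4 + v 5 + v 6 < v 7

/-- FORM8 (adapt `Pool.Agent.H87F.E8Form`, `E8FormT`: there with two zero coordinates). The roots are `G1` and
`(signs 7).map toV` (`perm`). The roots of the first type give the same for both vectors (`sum_one` with 8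
variables, `ring`); for `s ∈ signs 7` with last coordinate `p = ∏ s` the two vectors give the arguments
`dot s [z1..z7] ± ..`: choose the ZEROTH coordinate or use: the sum over `s ∈ signs 7` of both vectors is the
sum over all `signs 8` of `dot^8 = S [z0..z7] 0` (`S_formula`). -/
def S_FORM8 : Prop := ∀ z : Fin 8 → ℤ, (∑ i, z i) % 2 = 0 →
  rootSum (fun i => 2 * z i) + rootSum (fun i => if i = 0 then -(2 * z i) else 2 * z i) =
    105 * (∑ i, z i ^ 2) ^ 4 - 420 * (∑ i, z i ^ 4) * (∑ i, z i ^ 2) ^ 2 + 420 * (∑ i, z i ^ 4) ^ 2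
      + 672 * (∑ i, z i ^ 6) * (∑ i, z i ^ 2) - 720 * (∑ i, z i ^ 8)

/-- RIGID: an automorphism which maps a vector of the open chamber into the open chamber is the identity.
Proof. (0) `g` is additive on `E_8` (`|g(u+v) - g u - g v|^2 = 0` by the preservation of products, `E_8` closed
under `+`, `-`). (1) For a root `r` and `v` in the chamber the sign of `sum r_i v_i` is the sign of the LAST
nonzero coordinate of `r` (finite check on `AllR` / the types `± 2 e_i ± 2 e_j`, all odd): so `g` maps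
`P = {roots with last nonzero coordinate positive}` into `P`, hence onto `P`, and fixes `sum of P = 2 rho`,
`rho = (0,2,4,6,8,10,12,46)` (doubled), hence fixes `rho`. (2) The roots with `pr r rho = 1` are the 8 simple
roots; `g` permutes them; `f1 r = #{s simple, pr r s = -1}`, `f2 r = sum of f1 over the neighbours`,
`f3 r = sum of f2 over the neighbours` are preserved by `g`, and `f3` takes the distinct values
3,4,5,6,7,8,9,12 on the simple roots: `g` fixes every simple root (`decide +kernel` on lists of `V8`, see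
`Pool.Agent.Q10.E8.Roots`, `H87F.E8Form.perm_dec`). (3) The simple roots generate `E_8` (compare `vec_surj`). -/
def S_RIGID : Prop := ∀ g : (Fin 8 → ℤ) → (Fin 8 → ℤ), IsAut g → ∀ v w, Ch v → Ch w → g v = w →
  ∀ u, IsE8 u → g u = u

/-- ORB: a zero-sum family of chamber vectors gives an 11-design. `Y` = the vectors `g u`, `g` an
automorphism, `u ∈ U` (a filter of `shell m`, `aut_shell`). `Y` is the disjoint union of the orbits
`O(u)` (RIGID applied to `g'⁻¹ g`; the inverse on `E_8` of an automorphism extends to an automorphism), and all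
orbits have the same size `A > 0` (`g u ↦ g w` is well defined and bijective by RIGID), so
`sum over Y of (rootSum v - 480 m^4) = A * sum over U = 0` (`rootSum_aut`). The weight `w` = indicator of `Y`
is invariant; `main1 t_AUT t_TRANS m w` gives `Cubature 11 m (shell m) w`, which is `Cubature 11 m Y 1`
(unfold `Cubature`, sums over the filter). -/
def S_ORB : Prop := ∀ (m : ℕ) (U : Finset (Fin 8 → ℤ)), U.Nonempty → (∀ u ∈ U, InShell m u ∧ Ch u) →
  ∑ u ∈ U, (rootSum u - 480 * (m : ℤ) ^ 4) = 0 →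
  ∃ Y : Finset (Fin 8 → ℤ), (∀ v ∈ Y, InShell m v) ∧ IsDesign 11 m Y

/-- THREE: from `Pool.Agent.H591R2.three_squares` (`Pool/Agent/H591R2/ThreeSq.lean`). `n % 8 = 3`: all three
odd. `n % 9 = 3, 6`: none divisible by 3. `5 ∣ n`, `25 ∤ n`: the squares mod 5 are 0, 1, 4, so the absolute
values are distinct. -/
def S_THREE : Prop := ∀ n : ℕ, n % 8 = 3 → (n % 9 = 3 ∨ n % 9 = 6) → n % 5 = 0 → n % 25 ≠ 0 →
  ∃ Y : Finset ℕ, Y.card = 3 ∧ ∑ y ∈ Y, y ^ 2 = n ∧ ∀ y ∈ Y, y % 2 = 1 ∧ y % 3 ≠ 0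

/-- NEG -/
def S_NEG : Prop := ∀ (S : Finset ℕ) (x : ℕ), x ∈ S →
  2000 * ∑ a ∈ S.erase x, a ^ 2 ≤ ∑ a ∈ S, a ^ 2 → H S ≤ 0

/-- BD: `|H| ≤ 2277 s^4`, as `0 ≤ ps (2k) ≤ (ps 2)^k` -/
def S_BD : Prop := ∀ S : Finset ℕ, |H S| ≤ 2277 * (ps 2 S) ^ 4

/-- POS: near the direction of the roots the invariant is large (numerically `H ≥ 10 s^4`). -/
def S_POS : Prop := ∀ (S : Finset ℕ) (x w : ℕ), x ∈ S → w ∈ S → x ≠ w →
  10000 * ∑ a ∈ (S.erase x).erase w, a ^ 2 ≤ ∑ a ∈ S, a ^ 2 →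
  39 * ∑ a ∈ S, a ^ 2 ≤ 100 * w ^ 2 → 100 * w ^ 2 ≤ 41 * ∑ a ∈ S, a ^ 2 → (ps 2 S) ^ 4 ≤ H S

/-- ASM: the combinatorial part. Proof. In each `X l` take (pigeonhole mod `K`) `K D` elements whose
`d l` are congruent mod `K`: the sum of their `d l` is divisible by `K`, call it `Σ_l`; `Σ_S = sum Σ_l` is
`≤ 0` and `≥ -(L+1) K D 2 M`. In `Z` take `K k` elements with `h` congruent mod `K`, in an order; `T_j` = the
sum of the first `K j` of them, a multiple of `K`, `T_{j+1} - T_j ≤ K M`, `T_k ≥ k K A ≥ - Σ_S`. Take the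
least `j` with `Σ_S + T_j ≥ 0`: then `Σ_S + T_j = K N`, `0 ≤ N ≤ M`. Write `N = sum_{l ≤ L} δ_l G^l` with
`0 ≤ δ_l ≤ K D` (digits `< G` for `l < L`, the last one `≤ M / G^L`); replace `d` by `e` at `δ_l` of the
elements of the level `l`. -/
def S_ASM : Prop := ∀ (K G D L k : ℕ) (M A : ℤ) (X : ℕ → Finset ℕ) (d e : ℕ → ℕ → ℤ) (Z : Finset ℕ)
  (h : ℕ → ℤ), 0 < K → 2 ≤ G → 0 < D → 0 < A →
  (∀ l ≤ L, ∀ x ∈ X l, d l x = e l x + K * (G : ℤ) ^ l) →
  (∀ l ≤ L, ∀ x ∈ X l, d l x ≤ 0 ∧ -(2 * M) ≤ d l x) →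
  (∀ l ≤ L, K * (K * D) ≤ (X l).card) → G ≤ K * D → M ≤ (K * D) * (G : ℤ) ^ L →
  (∀ z ∈ Z, A ≤ h z ∧ h z ≤ M) → K * (K * k) ≤ Z.card → (L + 1) * (K * D) * (2 * M) ≤ k * K * A →
  ∃ (P Q : ℕ → Finset ℕ) (Z' : Finset ℕ), Z' ⊆ Z ∧
    (∀ l ≤ L, P l ⊆ X l ∧ Q l ⊆ X l ∧ Disjoint (P l) (Q l)) ∧ (∃ l ≤ L, (P l ∪ Q l).Nonempty) ∧
    ∑ l ∈ range (L + 1), (∑ x ∈ P l, d l x + ∑ x ∈ Q l, e l x) + ∑ z ∈ Z', h z = 0

end Pool.Agent.Helper22E
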